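import Pool.Agent.Lib.MP_5f1e54_an.DR.Gen1

/-!
# DR-Aut1: powers of `A = 1 + m J`, the matrix of an automorphism

`λ = 1 + m n`.  `pow_IJ`: `A^k = 1 + c_k J` with `n c_k = λ^k - 1` (induction on `k`).
`A` is invertible over `ℚ`: `isUnit_IJ` (`A⁻¹ = 1 - (m/λ) J`), so `v A^k = w A^k → v = w` and `R_A = ℚ^n`.

`exists_matrix`: `A = IJ n m`.  `e_i ∈ Δ_A` for all `i` (`single_mem`); put `X i := ψ e_i` (rows), `X' i := ψ⁻¹ e_i`.
* for `z ∈ ℤ^n`: `ψ z = z X` (additivity; `z = ∑ z_i e_i`, `map_sum`, `map_zsmul`);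
* `ψ` commutes with `δ^k`: `ψ(v)A^k = ψ(v A^k)`; for `v ∈ Δ_A` with `v A^k = z ∈ ℤ^n`:
  `ψ(v) A^k = z X = v A^k X`;
* `A X = X A`: row `i` of `A X` is `ψ(e_i A) = ψ(e_i) A`;
* hence `ψ(v) A^k = v X A^k`, `ψ(v) = v X`;
* the same for `ψ⁻¹`; `X X' = 1`: `e_i = ψ⁻¹(ψ e_i) = (row i of X) X'`;
* each row of `X`, `X'` lies in `Δ_A`; take `K` larger than all exponents: `X A^K`, `X' A^K` are integral;
* positivity: `e_0 ∈ Δ_A⁺`, so `ψ e_0 ∈ Δ_A⁺`: some `(row 0 of X) A^k ≥ 0` has nonnegative integral entries.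
-/

open Matrix Finset

namespace Pool.Agent.DimRep

variable {n m : ℕ}

theorem pow_IJ (n m k : ℕ) : ∃ c : ℕ, n * c + 1 = (1 + m * n) ^ k ∧
    ∀ i j, toZ (IJ n m) i j = dl i j + m ∧ (toZ (IJ n m) ^ k) i j = dl i j + c := by
  induction k with
  | zero =>
    refine ⟨0, by simp, fun i j => ⟨toZ_IJ m i j, ?_⟩⟩
    rw [pow_zero, Matrix.one_apply]
    simp [dl]
  | succ k ih =>
    obtain ⟨c, h1, h2⟩ := ih
    refine ⟨c * (1 + m * n) + m, ?_, fun i j => ⟨toZ_IJ m i j, ?_⟩⟩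
    · rw [pow_succ, ← h1]
      ring
    · rw [pow_succ, Matrix.mul_apply]
      have e : ∀ l, (toZ (IJ n m) ^ k) i l * toZ (IJ n m) l j =
          dl i l * (dl l j + m) + c * dl l j + c * m := by
        intro l
        rw [(h2 i l).2, (h2 l j).1]
        ring
      simp only [e, Finset.sum_add_distrib]
      rw [sum_dl_mul i (fun l => dl l j + (m : ℤ)), sum_mul_dl j (fun _ => (c : ℤ))]
      simp only [Finset.sum_const, Finset.card_univ, Fintype.card_fin, nsmul_eq_mul]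
      push_cast
      ring

theorem isUnit_IJ (n m : ℕ) : ∃ B : Matrix (Fin n) (Fin n) ℚ, toQ (IJ n m) * B = 1 ∧
    B * toQ (IJ n m) = 1 := by
  have hl : (1 + (m : ℚ) * n) ≠ 0 := by positivity
  have hA : toQ (IJ n m) = 1 + (m : ℚ) • (Matrix.of fun _ _ => (1 : ℚ)) := by
    ext i j
    simp only [toQ, IJ, Matrix.map_apply, Matrix.add_apply, Matrix.smul_apply, Matrix.of_apply,
      Matrix.one_apply, smul_eq_mul, mul_one]
    push_cast
    rfl
  have hJ : (Matrix.of fun (_ _ : Fin n) => (1 : ℚ)) * (Matrix.of fun (_ _ : Fin n) => (1 : ℚ)) =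
      (n : ℚ) • (Matrix.of fun (_ _ : Fin n) => (1 : ℚ)) := by
    ext i j
    simp [Matrix.mul_apply]
  set J : Matrix (Fin n) (Fin n) ℚ := Matrix.of fun _ _ => (1 : ℚ) with hJd
  have key : toQ (IJ n m) * (1 - ((m : ℚ) / (1 + m * n)) • J) = 1 := by
    rw [hA, add_mul, mul_sub, mul_sub, Matrix.one_mul, Matrix.mul_one,
      Matrix.one_mul, Matrix.smul_mul, Matrix.mul_smul, hJ, smul_smul, smul_smul]
    have e : (m : ℚ) * ((m : ℚ) / (1 + m * n)) * n = m - m / (1 + m * n) := by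
      field_simp
      ring
    rw [e, sub_smul]
    abel
  exact ⟨_, key, mul_eq_one_comm.mp key⟩

end Pool.Agent.DimRep
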