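import Pool.Agent.Lib.MP_5f1e54_an.DR.Aut1

/-!
# DR-Aut2: the matrix of an automorphism (proof in the header of `Aut1.lean`)
-/

open Matrix Finset

namespace Pool.Agent.DimRep

variable {n m : ℕ}

private theorem aut2_range (B : Matrix (Fin n) (Fin n) ℚ) (hBA : B * toQ (IJ n m) = 1)
    (v : Fin n → ℚ) (k : ℕ) : v = (v ᵥ* B ^ k) ᵥ* toQ (IJ n m) ^ k := by
  have hcomm : Commute B (toQ (IJ n m)) := by
    show B * toQ (IJ n m) = toQ (IJ n m) * B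
    rw [hBA, mul_eq_one_comm.mp hBA]
  rw [Matrix.vecMul_vecMul, ← hcomm.mul_pow, hBA, one_pow, Matrix.vecMul_one]

private theorem aut2_mem (B : Matrix (Fin n) (Fin n) ℚ) (hBA : B * toQ (IJ n m) = 1)
    (v : Fin n → ℚ) (h : ∃ (k : ℕ) (z : Fin n → ℤ), v ᵥ* toQ (IJ n m) ^ k = fun i => (z i : ℚ)) :
    v ∈ Delta (IJ n m) :=
  ⟨⟨v ᵥ* B ^ n, aut2_range B hBA v n⟩, h⟩

private theorem aut2_int (B : Matrix (Fin n) (Fin n) ℚ) (hBA : B * toQ (IJ n m) = 1)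
    (z : Fin n → ℤ) : (fun i => (z i : ℚ)) ∈ Delta (IJ n m) :=
  aut2_mem B hBA _ ⟨0, z, by rw [pow_zero, Matrix.vecMul_one]⟩

private theorem aut2_single (B : Matrix (Fin n) (Fin n) ℚ) (hBA : B * toQ (IJ n m) = 1)
    (i : Fin n) : (Pi.single i 1 : Fin n → ℚ) ∈ Delta (IJ n m) := by
  have h := aut2_int B hBA (Pi.single i 1 : Fin n → ℤ)
  have h2 : (fun j => ((Pi.single i 1 : Fin n → ℤ) j : ℚ)) = (Pi.single i 1 : Fin n → ℚ) := by
    funext j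
    simp only [Pi.single_apply]
    split_ifs <;> simp
  rwa [h2] at h

private theorem aut2_closed (B : Matrix (Fin n) (Fin n) ℚ) (hBA : B * toQ (IJ n m) = 1)
    (v : Delta (IJ n m)) (k : ℕ) : (v : Fin n → ℚ) ᵥ* toQ (IJ n m) ^ k ∈ Delta (IJ n m) := by
  obtain ⟨_, l, z, hz⟩ := v.2
  refine aut2_mem B hBA _ ⟨l, z ᵥ* toZ (IJ n m) ^ k, ?_⟩
  rw [Matrix.vecMul_vecMul, ← pow_add, add_comm k l, pow_add, ← Matrix.vecMul_vecMul, hz,
    cast_vecMul_pow]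

/-- the matrix of a group homomorphism -/
private noncomputable def aut2_X (B : Matrix (Fin n) (Fin n) ℚ) (hBA : B * toQ (IJ n m) = 1)
    (φ : Delta (IJ n m) ≃+ Delta (IJ n m)) : Matrix (Fin n) (Fin n) ℚ :=
  Matrix.of fun i => (φ ⟨Pi.single i 1, aut2_single B hBA i⟩ : Fin n → ℚ)

private theorem aut2_X_int (B : Matrix (Fin n) (Fin n) ℚ) (hBA : B * toQ (IJ n m) = 1)
    (φ : Delta (IJ n m) ≃+ Delta (IJ n m)) (z : Fin n → ℤ) (v : Delta (IJ n m))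
    (hv : (v : Fin n → ℚ) = fun i => (z i : ℚ)) :
    (φ v : Fin n → ℚ) = (v : Fin n → ℚ) ᵥ* aut2_X B hBA φ := by
  have h1 : v = ∑ i, z i • (⟨Pi.single i 1, aut2_single B hBA i⟩ : Delta (IJ n m)) := by
    apply Subtype.ext
    rw [AddSubgroup.val_finsetSum, hv]
    funext j
    rw [Finset.sum_apply]
    simp [Pi.single_apply]
  have h2 : φ v = ∑ i, z i • φ (⟨Pi.single i 1, aut2_single B hBA i⟩ : Delta (IJ n m)) := by
    conv_lhs => rw [h1]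
    rw [map_sum]
    exact Finset.sum_congr rfl fun i _ => map_zsmul φ _ _
  rw [h2, AddSubgroup.val_finsetSum, hv]
  funext j
  rw [Finset.sum_apply]
  simp only [Matrix.vecMul, dotProduct, aut2_X, Matrix.of_apply]
  refine Finset.sum_congr rfl fun i _ => ?_
  simp

private def aut2_Comm (φ : Delta (IJ n m) ≃+ Delta (IJ n m)) : Prop :=
  ∀ v w : Delta (IJ n m), (w : Fin n → ℚ) = (v : Fin n → ℚ) ᵥ* toQ (IJ n m) →
    (φ w : Fin n → ℚ) = (φ v : Fin n → ℚ) ᵥ* toQ (IJ n m)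

private theorem aut2_commk (B : Matrix (Fin n) (Fin n) ℚ) (hBA : B * toQ (IJ n m) = 1)
    (φ : Delta (IJ n m) ≃+ Delta (IJ n m)) (hφ : aut2_Comm φ) (k : ℕ) :
    ∀ v w : Delta (IJ n m), (w : Fin n → ℚ) = (v : Fin n → ℚ) ᵥ* toQ (IJ n m) ^ k →
    (φ w : Fin n → ℚ) = (φ v : Fin n → ℚ) ᵥ* toQ (IJ n m) ^ k := by
  induction k with
  | zero =>
    intro v w h
    rw [pow_zero, Matrix.vecMul_one] at h
    rw [pow_zero, Matrix.vecMul_one, Subtype.ext h]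
  | succ k ih =>
    intro v w h
    have h1 := ih v ⟨(v : Fin n → ℚ) ᵥ* toQ (IJ n m) ^ k, aut2_closed B hBA v k⟩ rfl
    have h2 := hφ ⟨(v : Fin n → ℚ) ᵥ* toQ (IJ n m) ^ k, aut2_closed B hBA v k⟩ w (by
      rw [h, pow_succ, ← Matrix.vecMul_vecMul])
    rw [h2, h1, Matrix.vecMul_vecMul, ← pow_succ]

private theorem aut2_AX (B : Matrix (Fin n) (Fin n) ℚ) (hBA : B * toQ (IJ n m) = 1)
    (φ : Delta (IJ n m) ≃+ Delta (IJ n m)) (hφ : aut2_Comm φ) :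
    toQ (IJ n m) * aut2_X B hBA φ = aut2_X B hBA φ * toQ (IJ n m) := by
  ext i j
  have h1 := aut2_closed B hBA ⟨Pi.single i 1, aut2_single B hBA i⟩ 1
  rw [pow_one] at h1
  have h2 := hφ ⟨Pi.single i 1, aut2_single B hBA i⟩ ⟨_, h1⟩ rfl
  have h3 := aut2_X_int B hBA φ (fun j => toZ (IJ n m) i j) ⟨_, h1⟩ (by
    funext j
    simp [toQ, toZ])
  rw [h3] at h2
  have h4 := congrFun h2 j
  simp only at h4
  rw [Matrix.vecMul_vecMul, Matrix.single_one_vecMul] at h4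
  exact h4

private theorem aut2_vec (B : Matrix (Fin n) (Fin n) ℚ) (hBA : B * toQ (IJ n m) = 1)
    (φ : Delta (IJ n m) ≃+ Delta (IJ n m)) (hφ : aut2_Comm φ) (v : Delta (IJ n m)) :
    (φ v : Fin n → ℚ) = (v : Fin n → ℚ) ᵥ* aut2_X B hBA φ := by
  obtain ⟨_, k, z, hz⟩ := v.2
  have h1 := aut2_commk B hBA φ hφ k v ⟨_, aut2_closed B hBA v k⟩ rfl
  have h2 := aut2_X_int B hBA φ z ⟨_, aut2_closed B hBA v k⟩ hz
  have h3 : (φ v : Fin n → ℚ) ᵥ* toQ (IJ n m) ^ k =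
      ((v : Fin n → ℚ) ᵥ* aut2_X B hBA φ) ᵥ* toQ (IJ n m) ^ k := by
    rw [← h1, h2]
    have hc : Commute (toQ (IJ n m)) (aut2_X B hBA φ) := aut2_AX B hBA φ hφ
    rw [Matrix.vecMul_vecMul, Matrix.vecMul_vecMul, (hc.pow_left k).eq]
  have hAB : toQ (IJ n m) * B = 1 := mul_eq_one_comm.mp hBA
  have hcAB : Commute (toQ (IJ n m)) B := by
    show toQ (IJ n m) * B = B * toQ (IJ n m)
    rw [hBA, hAB]
  have h4 : ∀ u : Fin n → ℚ, (u ᵥ* toQ (IJ n m) ^ k) ᵥ* B ^ k = u := by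
    intro u
    rw [Matrix.vecMul_vecMul, ← hcAB.mul_pow, hAB, one_pow, Matrix.vecMul_one]
  rw [← h4 (φ v : Fin n → ℚ), h3, h4]

theorem exists_matrix (hn : 1 ≤ n) (ψ : Delta (IJ n m) ≃+ Delta (IJ n m)) (hψ : IsAut (IJ n m) ψ) :
    ∃ (X X' : Matrix (Fin n) (Fin n) ℚ) (Y Y' : Matrix (Fin n) (Fin n) ℤ) (K : ℕ),
      X * X' = 1 ∧ toQ (IJ n m) * X = X * toQ (IJ n m) ∧
      (∀ v : Delta (IJ n m), (ψ v : Fin n → ℚ) = (v : Fin n → ℚ) ᵥ* X) ∧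
      X * toQ (IJ n m) ^ K = zQ Y ∧ X' * toQ (IJ n m) ^ K = zQ Y' ∧
      ∃ (i : Fin n) (k : ℕ), ∀ j, 0 ≤ (X * toQ (IJ n m) ^ k) i j := by
  obtain ⟨B, hAB, hBA⟩ := isUnit_IJ n m
  have hc1 : aut2_Comm ψ := fun v w h => hψ.comm v w h
  have hc2 : aut2_Comm ψ.symm := by
    intro v w h
    have hm := aut2_closed B hBA (ψ.symm v) 1
    rw [pow_one] at hm
    have h1 := hψ.comm (ψ.symm v) ⟨_, hm⟩ rfl
    rw [AddEquiv.apply_symm_apply, ← h] at h1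
    have h2 : ψ ⟨_, hm⟩ = w := Subtype.ext h1
    rw [← h2, AddEquiv.symm_apply_apply]
  have key : ∀ φ : Delta (IJ n m) ≃+ Delta (IJ n m), ∃ k : Fin n → ℕ, ∀ K, (∀ i, k i ≤ K) →
      ∃ Y : Matrix (Fin n) (Fin n) ℤ, aut2_X B hBA φ * toQ (IJ n m) ^ K = zQ Y := by
    intro φ
    have h1 : ∀ i, ∃ (k : ℕ) (z : Fin n → ℤ),
        (aut2_X B hBA φ) i ᵥ* toQ (IJ n m) ^ k = fun j => (z j : ℚ) := by
      intro i
      exact (φ ⟨Pi.single i 1, aut2_single B hBA i⟩).2.2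
    choose k z hz using h1
    refine ⟨k, fun K hK => ⟨Matrix.of fun i => z i ᵥ* toZ (IJ n m) ^ (K - k i), ?_⟩⟩
    ext i j
    have h2 : (aut2_X B hBA φ * toQ (IJ n m) ^ K) i j =
        ((aut2_X B hBA φ) i ᵥ* toQ (IJ n m) ^ K) j := rfl
    rw [h2]
    have h3 : toQ (IJ n m) ^ K = toQ (IJ n m) ^ (k i) * toQ (IJ n m) ^ (K - k i) := by
      rw [← pow_add, Nat.add_sub_cancel' (hK i)]
    rw [h3, ← Matrix.vecMul_vecMul, hz i, cast_vecMul_pow]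
    rfl
  obtain ⟨k1, hk1⟩ := key ψ
  obtain ⟨k2, hk2⟩ := key ψ.symm
  obtain ⟨Y, hY⟩ := hk1 (∑ i, k1 i + ∑ i, k2 i) fun i =>
    le_trans (Finset.single_le_sum (f := k1) (fun _ _ => Nat.zero_le _) (Finset.mem_univ i))
      (Nat.le_add_right _ _)
  obtain ⟨Y', hY'⟩ := hk2 (∑ i, k1 i + ∑ i, k2 i) fun i =>
    le_trans (Finset.single_le_sum (f := k2) (fun _ _ => Nat.zero_le _) (Finset.mem_univ i))
      (Nat.le_add_left _ _)
  refine ⟨aut2_X B hBA ψ, aut2_X B hBA ψ.symm, Y, Y', _, ?_, aut2_AX B hBA ψ hc1,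
    aut2_vec B hBA ψ hc1, hY, hY', ?_⟩
  · ext i j
    have h1 := aut2_vec B hBA ψ.symm hc2 (ψ ⟨Pi.single i 1, aut2_single B hBA i⟩)
    rw [AddEquiv.symm_apply_apply] at h1
    have h2 := congrFun h1 j
    have h3 : (aut2_X B hBA ψ * aut2_X B hBA ψ.symm) i j =
        ((ψ ⟨Pi.single i 1, aut2_single B hBA i⟩ : Fin n → ℚ) ᵥ* aut2_X B hBA ψ.symm) j := rfl
    rw [h3, ← h2, Matrix.one_apply]
    show (Pi.single i 1 : Fin n → ℚ) j = _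
    rw [Pi.single_apply]
    by_cases hij : j = i
    · rw [if_pos hij, if_pos hij.symm]
    · rw [if_neg hij, if_neg fun h => hij h.symm]
  · let i0 : Fin n := ⟨0, hn⟩
    have h1 : (Pi.single i0 1 : Fin n → ℚ) ∈ DeltaPos (IJ n m) := by
      refine ⟨⟨_, aut2_range B hBA _ n⟩, 0, Pi.single i0 1, ?_⟩
      rw [pow_zero, Matrix.vecMul_one]
      funext j
      simp only [Pi.single_apply]
      split_ifs <;> simp
    have h2 := (hψ.pos ⟨Pi.single i0 1, aut2_single B hBA i0⟩).mpr h1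
    obtain ⟨_, k, z, hz⟩ := h2
    refine ⟨i0, k, fun j => ?_⟩
    have h3 : (aut2_X B hBA ψ * toQ (IJ n m) ^ k) i0 j =
        ((ψ ⟨Pi.single i0 1, aut2_single B hBA i0⟩ : Fin n → ℚ) ᵥ* toQ (IJ n m) ^ k) j := rfl
    rw [h3, hz]
    exact Nat.cast_nonneg _

end Pool.Agent.DimRep
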