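import Pool.Agent.Lib.MP_5f1e54_an.DR.Circ

/-!
# DR-Div: realised matrices with prescribed row and column sums

`λ = 1 + m n`.  Induction on `t` (strong, or `Nat.recOnMul` / prime factorisation): `t = 1`: `P = 1`, `P' = 1`, `j = 0`.
`t > 1`: a prime `p ∣ t` divides `λ^N`, so `p ∣ λ`, `λ = p p'`; `circ` gives `P₀ P₀' = P₀' P₀ = A` with row and
column sums `p`, `Good A (toQ P₀)` (`Good.of_factor`); `t / p ∣ λ^N` too, take `P₁, P₁', j` for `t / p`; then
`P = P₀ P₁`, `P' = P₁' P₀'`, `j + 1`: `P P' = P₀ (P₁ P₁') P₀' = P₀ A^j P₀' = A^{j+1}` (`P₀` commutes with `A`: row and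
column sums constant).  `Good.mul` needs that `P₁` commutes with `A`: `A = 1 + m J` and constant row and column
sums (equal to each other).
-/

open Matrix Finset

namespace Pool.Agent.DimRep

theorem comm_of_sums {n m : ℕ} {X : Matrix (Fin n) (Fin n) ℚ} {q : ℚ} (h1 : ∀ i, ∑ j, X i j = q)
    (h2 : ∀ j, ∑ i, X i j = q) : toQ (IJ n m) * X = X * toQ (IJ n m) := by
  ext i j
  rw [Matrix.mul_apply, Matrix.mul_apply]
  have e1 : ∀ l, toQ (IJ n m) i l * X l j = (if i = l then X l j else 0) + m * X l j := by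
    intro l
    simp only [toQ, IJ, Matrix.map_apply]
    split_ifs <;> push_cast <;> ring
  have e2 : ∀ l, X i l * toQ (IJ n m) l j = (if l = j then X i l else 0) + m * X i l := by
    intro l
    simp only [toQ, IJ, Matrix.map_apply]
    split_ifs <;> push_cast <;> ring
  simp only [e1, e2, Finset.sum_add_distrib, ← Finset.mul_sum, h1, h2]
  simp

theorem divisors (n m : ℕ) (hn : 1 ≤ n) (N t : ℕ) (ht : t ∣ (1 + m * n) ^ N) :
    ∃ (P P' : Matrix (Fin n) (Fin n) ℤ) (j : ℕ), Good (IJ n m) (zQ P) ∧ P * P' = toZ (IJ n m) ^ j ∧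
      (∀ i, ∑ j, P i j = t) ∧ (∀ j, ∑ i, P i j = t) := by
  induction t using Nat.strong_induction_on with
  | _ t ih =>
  have hpos : 0 < (1 + m * n) ^ N := Nat.pow_pos (by omega)
  have ht0 : 0 < t := Nat.pos_of_dvd_of_pos ht hpos
  rcases Nat.lt_or_ge 1 t with h1 | h1
  · -- a prime factor of `t`
    obtain ⟨p, hp, hpt⟩ := Nat.exists_prime_and_dvd (show t ≠ 1 by omega)
    have hpl : p ∣ 1 + m * n := hp.dvd_of_dvd_pow (hpt.trans ht)
    obtain ⟨p', hp'⟩ := hpl
    obtain ⟨s, hs⟩ := hpt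
    obtain ⟨P₀, P₀', h2, h3, h4, h5⟩ := circ n m p p' hn hp'.symm
    have hs0 : 0 < s := by
      rcases Nat.eq_zero_or_pos s with h | h
      · rw [h, Nat.mul_zero] at hs
        omega
      · exact h
    have hst : s < t := by
      rw [hs]
      exact lt_mul_of_one_lt_left hs0 hp.one_lt
    obtain ⟨P₁, P₁', j, g1, g2, g3, g4⟩ := ih s hst ((Dvd.intro_left p hs.symm).trans ht)
    have hg0 : Good (IJ n m) (zQ (toZ P₀)) := by
      rw [zQ_toZ]
      exact Good.of_factor h2 h3
    have hz : toZ P₀ * toZ P₀' = toZ (IJ n m) := by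
      rw [← h2]
      ext a b
      simp [toZ, Matrix.mul_apply]
    have hz' : toZ P₀' * toZ P₀ = toZ (IJ n m) := by
      rw [← h3]
      ext a b
      simp [toZ, Matrix.mul_apply]
    have hc0 : toZ P₀ * toZ (IJ n m) = toZ (IJ n m) * toZ P₀ := by
      rw [← hz, Matrix.mul_assoc, hz', hz]
    have hr0 : ∀ i, ∑ j, toZ P₀ i j = (p : ℤ) := by
      intro i
      rw [← h4 i]
      simp [toZ]
    have hk0 : ∀ j, ∑ i, toZ P₀ i j = (p : ℤ) := by
      intro i
      rw [← h5 i]
      simp [toZ]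
    refine ⟨toZ P₀ * P₁, P₁' * toZ P₀', j + 1, ?_, ?_, ?_, ?_⟩
    · rw [zQ_mul]
      refine hg0.mul g1 (comm_of_sums (q := (s : ℚ)) ?_ ?_)
      · intro i
        have := congrArg (fun x : ℤ => (x : ℚ)) (g3 i)
        simpa [zQ] using this
      · intro i
        have := congrArg (fun x : ℤ => (x : ℚ)) (g4 i)
        simpa [zQ] using this
    · calc toZ P₀ * P₁ * (P₁' * toZ P₀') = toZ P₀ * (P₁ * P₁') * toZ P₀' := by
            simp only [Matrix.mul_assoc]
        _ = toZ P₀ * toZ (IJ n m) ^ j * toZ P₀' := by rw [g2]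
        _ = toZ (IJ n m) ^ j * toZ P₀ * toZ P₀' := by
            rw [show toZ P₀ * toZ (IJ n m) ^ j = toZ (IJ n m) ^ j * toZ P₀ from
              Commute.pow_right hc0 j]
        _ = toZ (IJ n m) ^ (j + 1) := by rw [Matrix.mul_assoc, hz, pow_succ]
    · intro i
      simp only [Matrix.mul_apply]
      rw [Finset.sum_comm]
      simp only [← Finset.mul_sum, g3, ← Finset.sum_mul, hr0]
      rw [hs]
      push_cast
      ring
    · intro i
      simp only [Matrix.mul_apply]
      rw [Finset.sum_comm]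
      simp only [← Finset.sum_mul, hk0, ← Finset.mul_sum, g4]
      rw [hs]
      push_cast
      ring
  · have ht1 : t = 1 := by omega
    subst ht1
    refine ⟨1, 1, 0, ?_, by simp, ?_, ?_⟩
    · rw [zQ_one]
      exact Good.one
    · intro i
      simp [Matrix.one_apply]
    · intro j
      simp [Matrix.one_apply]

end Pool.Agent.DimRep
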