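import Pool.Agent.Lib.MP_5f1e54_an.DR.Aut2
import Pool.Agent.Lib.MP_5f1e54_an.DR.Div

/-!
# DR-Aut3: reduction to unimodular matrices with row and column sums `1`

`A = IJ n m = 1 + m J`, `λ = 1 + m n`, `m, n ≥ 1`.  Let `X, X', Y, Y', K` be as in `exists_matrix`.
* `A X = X A` gives `J X = X J` (`m ≥ 1`), so all row sums and all column sums of `X` are equal to one `q ∈ ℚ`
  (entry `(i, j)`: column sum `j` of `X` = row sum `i` of `X`; `n ≥ 1`).  Row and column sums of `X'` are `q⁻¹`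
  (`X X' = 1`; `q ≠ 0`).  Row sums of `A` are `λ`.
* `q > 0`: the row `i` of `X A^k` is `≥ 0` with sum `q λ^k`.
* `t := q λ^K`, `t' := q⁻¹ λ^K` are integers (row sums of `Y`, `Y'`), positive, `t t' = λ^{2K}`; so (as naturals)
  `t ∣ (1 + m n)^(2K)`; `divisors` gives `P, P', j`.
* `Z := Y P' ` (over `ℤ`); `Y₁ := X A^K (zQ P)⁻¹`: define it as `zQ Y * zQ P' * B^j` (`B = A⁻¹`): since `P P' = A^j`,
  also `P' P = A^j` (over `ℚ`: `P` invertible and commuting with `A`), `Y₁ P = zQ Y`.  Row and column sums of `Y₁` are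
  `t / t = 1`.  `Y₁ A^j = zQ (Y P')` is integral and `Y₁ A^j = Y₁ (1 + c J) = Y₁ + c J` (`pow_IJ`), so `Y₁` is
  integral: `Y₁ = zQ Z₁`, row and column sums of `Z₁` are `1`.  Its inverse `zQ P * X' * B^K`, times `A^{2K}`, is
  `zQ P * zQ Y'` (everything commutes with `A`), integral; its row and column sums are `1`, so it is integral in the
  same way; hence `Uni Z₁`.
* `h Z₁` gives `Good A Y₁`; `X = Y₁ P A^{-K}`: `Good.mul`, `Good.inv` (for `A^K`: `Good.self`, powers);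
  all matrices commute with `A` (`comm_of_sums`).
* `Good A X`: `toQ U = X A^k`, so `v U = ψ(v) A^k`.
-/

open Matrix Finset

namespace Pool.Agent.DimRep

variable {n m : ℕ}

private theorem aut3_entry (i j : Fin n) :
    toQ (IJ n m) i j = (if i = j then 1 else 0) + (m : ℚ) := by
  simp only [toQ, IJ, Matrix.map_apply]
  push_cast
  split_ifs <;> simp

private theorem aut3_row_mul {X Y : Matrix (Fin n) (Fin n) ℚ} {a b : ℚ} (h1 : ∀ i, ∑ j, X i j = a)
    (h2 : ∀ i, ∑ j, Y i j = b) : ∀ i, ∑ j, (X * Y) i j = a * b := by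
  intro i
  simp only [Matrix.mul_apply]
  rw [Finset.sum_comm]
  simp only [← Finset.mul_sum, h2]
  rw [← Finset.sum_mul, h1]

private theorem aut3_row_A : ∀ i, ∑ j, toQ (IJ n m) i j = 1 + m * n := by
  intro i
  simp only [aut3_entry]
  rw [Finset.sum_add_distrib]
  simp
  ring

private theorem aut3_row_one : ∀ i : Fin n, ∑ j, (1 : Matrix (Fin n) (Fin n) ℚ) i j = 1 := by
  intro i
  simp [Matrix.one_apply]

private theorem aut3_row_pow (k : ℕ) : ∀ i, ∑ j, (toQ (IJ n m) ^ k) i j = (1 + m * n : ℚ) ^ k := by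
  induction k with
  | zero =>
    intro i
    rw [pow_zero, pow_zero]
    exact aut3_row_one i
  | succ k ih =>
    rw [pow_succ, pow_succ]
    exact aut3_row_mul ih aut3_row_A

/-- a matrix commuting with `A` has constant row and column sums -/
private theorem aut3_const (hn : 1 ≤ n) (hm : 1 ≤ m) {X : Matrix (Fin n) (Fin n) ℚ}
    (h : toQ (IJ n m) * X = X * toQ (IJ n m)) :
    ∃ q : ℚ, (∀ i, ∑ j, X i j = q) ∧ (∀ j, ∑ i, X i j = q) := by
  have hm0 : (m : ℚ) ≠ 0 := by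
    have : m ≠ 0 := by omega
    exact_mod_cast this
  have key : ∀ i j, ∑ l, X l j = ∑ l, X i l := by
    intro i j
    have h1 := congrFun (congrFun h i) j
    rw [Matrix.mul_apply, Matrix.mul_apply] at h1
    simp only [aut3_entry, add_mul, mul_add, Finset.sum_add_distrib] at h1
    rw [← Finset.mul_sum, ← Finset.sum_mul] at h1
    simp only [ite_mul, one_mul, zero_mul, mul_ite, mul_one, mul_zero, Finset.sum_ite_eq,
      Finset.sum_ite_eq', Finset.mem_univ, if_true] at h1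
    have h2 : (m : ℚ) * ∑ l, X l j = m * ∑ l, X i l := by linarith
    exact mul_left_cancel₀ hm0 h2
  obtain ⟨i0⟩ : Nonempty (Fin n) := ⟨⟨0, hn⟩⟩
  refine ⟨∑ l, X i0 l, fun i => ?_, fun j => key i0 j⟩
  rw [← key i i0, key i0 i0]

private theorem aut3_pow_entry (k : ℕ) : ∃ c : ℤ, ∀ i j,
    (toQ (IJ n m) ^ k) i j = (if i = j then 1 else 0) + (c : ℚ) := by
  obtain ⟨c, -, hc⟩ := pow_IJ n m k
  refine ⟨c, fun i j => ?_⟩
  rw [← zQ_toZ, ← zQ_pow]
  unfold zQ
  rw [Matrix.map_apply, (hc i j).2]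
  unfold dl
  push_cast
  split_ifs <;> simp

/-- a matrix commuting with `A`, with row sums `1`, is integral if it is so after multiplication by a power of `A` -/
private theorem aut3_int {V : Matrix (Fin n) (Fin n) ℚ} (h1 : ∀ i, ∑ j, V i j = 1) (k : ℕ)
    (Z : Matrix (Fin n) (Fin n) ℤ) (hZ : V * toQ (IJ n m) ^ k = zQ Z) :
    ∃ Z' : Matrix (Fin n) (Fin n) ℤ, zQ Z' = V := by
  obtain ⟨c, hc⟩ := aut3_pow_entry (n := n) (m := m) k
  refine ⟨fun i j => Z i j - c, ?_⟩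
  ext i j
  have h2 := congrFun (congrFun hZ i) j
  rw [Matrix.mul_apply] at h2
  simp only [hc, mul_add, Finset.sum_add_distrib] at h2
  rw [← Finset.sum_mul, h1] at h2
  simp only [mul_ite, mul_one, mul_zero, Finset.sum_ite_eq', Finset.mem_univ, if_true, zQ,
    Matrix.map_apply] at h2
  simp only [zQ, Matrix.map_apply]
  push_cast
  linarith

private theorem aut3_good_pow {A : Matrix (Fin n) (Fin n) ℕ} (K : ℕ) : Good A (toQ A ^ K) := by
  induction K with
  | zero => rw [pow_zero]; exact Good.one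
  | succ K ih =>
    rw [pow_succ]
    exact Good.mul ih Good.self rfl

theorem surj_of_uni (hn : 1 ≤ n) (hm : 1 ≤ m)
    (h : ∀ X : Matrix (Fin n) (Fin n) ℤ, Uni X → GZ m X)
    (ψ : Delta (IJ n m) ≃+ Delta (IJ n m)) (hψ : IsAut (IJ n m) ψ) : InImage (IJ n m) ψ := by
  obtain ⟨X, X', Y, Y', K, hXX', hcX, hψX, hY, hY', i1, k1, hpos⟩ := exists_matrix hn ψ hψ
  obtain ⟨B, hAB, hBA⟩ := isUnit_IJ n m
  set A : Matrix (Fin n) (Fin n) ℚ := toQ (IJ n m) with hA
  obtain ⟨i0⟩ : Nonempty (Fin n) := ⟨⟨0, hn⟩⟩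
  have hX'X : X' * X = 1 := mul_eq_one_comm.mp hXX'
  -- powers
  have hABk : ∀ k : ℕ, A ^ k * B ^ k = 1 := by
    intro k
    have hc : Commute A B := hAB.trans hBA.symm
    rw [← hc.mul_pow, hAB, one_pow]
  have hBAk : ∀ k : ℕ, B ^ k * A ^ k = 1 := fun k => mul_eq_one_comm.mp (hABk k)
  have cA : ∀ {M M' : Matrix (Fin n) (Fin n) ℚ}, M * M' = 1 → A * M = M * A → A * M' = M' * A := by
    intro M M' h1 h2
    have h1' : M' * M = 1 := mul_eq_one_comm.mp h1
    calc A * M' = M' * M * (A * M') := by rw [h1', Matrix.one_mul]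
      _ = M' * (A * M) * M' := by rw [h2]; simp only [Matrix.mul_assoc]
      _ = M' * A := by rw [Matrix.mul_assoc M', Matrix.mul_assoc A, h1, Matrix.mul_one]
  have cmul : ∀ {M M' : Matrix (Fin n) (Fin n) ℚ}, A * M = M * A → A * M' = M' * A →
      A * (M * M') = M * M' * A := by
    intro M M' h1 h2
    rw [← Matrix.mul_assoc, h1, Matrix.mul_assoc, h2, Matrix.mul_assoc]
  have cpow : ∀ k : ℕ, A * A ^ k = A ^ k * A := fun k => (Commute.refl A).pow_right k
  have cB : ∀ k : ℕ, A * B ^ k = B ^ k * A := fun k =>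
    (show Commute A B from hAB.trans hBA.symm).pow_right k
  have hcX' : A * X' = X' * A := cA hXX' hcX
  have swapA : ∀ {M : Matrix (Fin n) (Fin n) ℚ} (k : ℕ), A * M = M * A → A ^ k * M = M * A ^ k :=
    fun k h1 => Commute.pow_left h1 k
  -- the sums
  have hlam : (0 : ℚ) < 1 + m * n := by positivity
  obtain ⟨q, hq1, hq2⟩ := aut3_const hn hm hcX
  obtain ⟨q', hq1', hq2'⟩ := aut3_const hn hm hcX'
  have hqq : q * q' = 1 := by
    have h1 := aut3_row_mul hq1 hq1' i0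
    rw [hXX', aut3_row_one] at h1
    exact h1.symm
  have hq0 : 0 < q := by
    have h1 := aut3_row_mul hq1 (aut3_row_pow (n := n) (m := m) k1) i1
    have h2 : 0 ≤ q * (1 + m * n : ℚ) ^ k1 := by
      rw [← h1]
      exact Finset.sum_nonneg fun j _ => hpos j
    have h3 : 0 < (1 + m * n : ℚ) ^ k1 := by positivity
    have h4 : 0 ≤ q := nonneg_of_mul_nonneg_left h2 h3
    rcases h4.eq_or_lt with h5 | h5
    · rw [← h5, zero_mul] at hqq
      exact absurd hqq zero_ne_one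
    · exact h5
  have hq0' : 0 < q' := by
    have h1 : 0 < q * q' := by rw [hqq]; exact one_pos
    exact (pos_iff_pos_of_mul_pos h1).1 hq0
  -- t
  have hYrow : ∀ i, ((∑ j, Y i j : ℤ) : ℚ) = q * (1 + m * n : ℚ) ^ K := by
    intro i
    have h1 := aut3_row_mul hq1 (aut3_row_pow (n := n) (m := m) K) i
    rw [← h1, hY]
    simp [zQ]
  have hY'row : ∀ i, ((∑ j, Y' i j : ℤ) : ℚ) = q' * (1 + m * n : ℚ) ^ K := by
    intro i
    have h1 := aut3_row_mul hq1' (aut3_row_pow (n := n) (m := m) K) i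
    rw [← h1, hY']
    simp [zQ]
  obtain ⟨t, ht⟩ : ∃ t : ℕ, (t : ℤ) = ∑ j, Y i0 j := by
    refine ⟨(∑ j, Y i0 j).toNat, Int.toNat_of_nonneg ?_⟩
    have h1 : (0 : ℚ) < ((∑ j, Y i0 j : ℤ) : ℚ) := by rw [hYrow]; positivity
    exact_mod_cast h1.le
  obtain ⟨t', ht'⟩ : ∃ t' : ℕ, (t' : ℤ) = ∑ j, Y' i0 j := by
    refine ⟨(∑ j, Y' i0 j).toNat, Int.toNat_of_nonneg ?_⟩
    have h1 : (0 : ℚ) < ((∑ j, Y' i0 j : ℤ) : ℚ) := by rw [hY'row]; positivity
    exact_mod_cast h1.le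
  have htq : (t : ℚ) = q * (1 + m * n : ℚ) ^ K := by
    rw [← hYrow i0, ← ht]; simp
  have htq' : (t' : ℚ) = q' * (1 + m * n : ℚ) ^ K := by
    rw [← hY'row i0, ← ht']; simp
  have ht0 : (t : ℚ) ≠ 0 := by
    rw [htq]; positivity
  have hdvd : t ∣ (1 + m * n) ^ (2 * K) := by
    refine ⟨t', ?_⟩
    have h1 : ((1 + m * n : ℕ) : ℚ) ^ (2 * K) = (t : ℚ) * t' := by
      rw [htq, htq']
      push_cast
      calc (1 + (m : ℚ) * n) ^ (2 * K) = (q * q') * ((1 + m * n : ℚ) ^ K * (1 + m * n : ℚ) ^ K) := by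
            rw [hqq, one_mul, ← pow_add]; congr 1; ring
        _ = _ := by ring
    exact_mod_cast h1
  obtain ⟨P, P', j, hPg, hPP', hP1, hP2⟩ := divisors n m hn (2 * K) t hdvd
  have hcP : A * zQ P = zQ P * A := by
    refine comm_of_sums (q := (t : ℚ)) (fun i => ?_) (fun i => ?_)
    · have h1 := hP1 i
      have h2 : ((∑ j, P i j : ℤ) : ℚ) = t := by rw [h1]; simp
      rw [← h2]
      simp [zQ]
    · have h1 := hP2 i
      have h2 : ((∑ j, P j i : ℤ) : ℚ) = t := by rw [h1]; simp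
      rw [← h2]
      simp [zQ]
  have hPPq : zQ P * zQ P' = A ^ j := by
    rw [← zQ_mul, hPP', zQ_pow, zQ_toZ]
  have hPinv : zQ P * (zQ P' * B ^ j) = 1 := by
    rw [← Matrix.mul_assoc, hPPq, hABk]
  have hPinv' : zQ P' * B ^ j * zQ P = 1 := mul_eq_one_comm.mp hPinv
  have hcPi : A * (zQ P' * B ^ j) = zQ P' * B ^ j * A := cA hPinv hcP
  have hcY : A * zQ Y = zQ Y * A := by
    rw [← hY]
    exact cmul hcX (cpow K)
  -- Y₁
  obtain ⟨Y1, hY1⟩ : ∃ Y1, Y1 = zQ Y * (zQ P' * B ^ j) := ⟨_, rfl⟩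
  have hcY1 : A * Y1 = Y1 * A := by rw [hY1]; exact cmul hcY hcPi
  have hY1P : Y1 * zQ P = zQ Y := by
    rw [hY1, Matrix.mul_assoc, hPinv', Matrix.mul_one]
  have hY1A : Y1 * A ^ j = zQ (Y * P') := by
    rw [hY1, zQ_mul, Matrix.mul_assoc, Matrix.mul_assoc, hBAk, Matrix.mul_one]
  obtain ⟨q1, hr1, hs1⟩ := aut3_const hn hm hcY1
  have hq1one : q1 = 1 := by
    have h1 : ∀ i, ∑ j, (zQ P) i j = (t : ℚ) := by
      intro i
      have h2 : ((∑ j, P i j : ℤ) : ℚ) = t := by rw [hP1 i]; simp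
      rw [← h2]
      simp [zQ]
    have h2 := aut3_row_mul hr1 h1 i0
    rw [hY1P] at h2
    have h3 : ∑ j, (zQ Y) i0 j = t := by
      have h4 : ((∑ j, Y i0 j : ℤ) : ℚ) = t := by rw [← ht]; simp
      rw [← h4]
      simp [zQ]
    rw [h3] at h2
    have h5 : (q1 - 1) * (t : ℚ) = 0 := by linarith
    rcases mul_eq_zero.1 h5 with h6 | h6
    · linarith
    · exact absurd h6 ht0
  rw [hq1one] at hr1 hs1
  obtain ⟨Z1, hZ1⟩ := aut3_int hr1 j (Y * P') hY1A
  -- the inverse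
  obtain ⟨W, hW⟩ : ∃ W, W = zQ P * X' * B ^ K := ⟨_, rfl⟩
  have hcW : A * W = W * A := by rw [hW]; exact cmul (cmul hcP hcX') (cB K)
  have hY1W : Y1 * W = 1 := by
    calc Y1 * W = Y1 * zQ P * X' * B ^ K := by rw [hW]; simp only [Matrix.mul_assoc]
      _ = X * A ^ K * X' * B ^ K := by rw [hY1P, hY]
      _ = X * (A ^ K * X') * B ^ K := by simp only [Matrix.mul_assoc]
      _ = X * (X' * A ^ K) * B ^ K := by rw [swapA K hcX']
      _ = X * X' * (A ^ K * B ^ K) := by simp only [Matrix.mul_assoc]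
      _ = 1 := by rw [hXX', hABk, Matrix.mul_one]
  have hWA : W * A ^ (K + K) = zQ (P * Y') := by
    calc W * A ^ (K + K) = zQ P * X' * (B ^ K * A ^ K) * A ^ K := by
          rw [hW, pow_add]; simp only [Matrix.mul_assoc]
      _ = zQ (P * Y') := by rw [hBAk, Matrix.mul_one, Matrix.mul_assoc, hY', zQ_mul]
  obtain ⟨w, hw1, hw2⟩ := aut3_const hn hm hcW
  have hwone : w = 1 := by
    have h2 := aut3_row_mul hr1 hw1 i0
    rw [hY1W, aut3_row_one] at h2
    linarith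
  rw [hwone] at hw1
  obtain ⟨Z2, hZ2⟩ := aut3_int hw1 (K + K) (P * Y') hWA
  have huni : Uni Z1 := by
    refine ⟨⟨Z2, ?_⟩, ?_, ?_⟩
    · apply zQ_injective
      rw [zQ_mul, hZ1, hZ2, hY1W, zQ_one]
    · intro i
      have h1 := hr1 i
      rw [← hZ1] at h1
      have h2 : ((∑ j, Z1 i j : ℤ) : ℚ) = 1 := by
        rw [← h1]
        simp [zQ]
      exact_mod_cast h2
    · intro i
      have h1 := hs1 i
      rw [← hZ1] at h1
      have h2 : ((∑ j, Z1 j i : ℤ) : ℚ) = 1 := by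
        rw [← h1]
        simp [zQ]
      exact_mod_cast h2
  have hgY1 : Good (IJ n m) Y1 := by
    have h1 := h Z1 huni
    unfold GZ at h1
    rwa [hZ1] at h1
  have hgB : Good (IJ n m) (B ^ K) :=
    Good.inv (aut3_good_pow K) (hABk K) (cpow K)
  have hXeq : X = Y1 * zQ P * B ^ K := by
    rw [hY1P, ← hY, Matrix.mul_assoc, hABk, Matrix.mul_one]
  have hgX : Good (IJ n m) X := by
    rw [hXeq]
    exact Good.mul (Good.mul hgY1 hPg hcP) hgB (cB K)
  obtain ⟨U, k, hU1, hU2⟩ := hgX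
  refine ⟨U, k, hU1, fun v => ?_⟩
  rw [hU2, hψX, Matrix.vecMul_vecMul]

end Pool.Agent.DimRep
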