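import Pool.Agent.Lib.MP_5f1e54_an.DR.Defs

/-!
# Chains of elementary strong shift equivalences: concatenation, reversal
-/

open Matrix

namespace Pool.Agent.DimRep

variable {n k l : ℕ} {A : Matrix (Fin n) (Fin n) ℕ} {B : Matrix (Fin k) (Fin k) ℕ}
  {C : Matrix (Fin l) (Fin l) ℕ}

theorem Chain.comm {W : Matrix (Fin n) (Fin k) ℕ} (h : Chain A B W) : A * W = W * B := by
  induction h with
  | refl => simp
  | step h1 h2 ih =>
    obtain ⟨h3, h4⟩ := h2
    rw [← Matrix.mul_assoc, ih, h4, h3]
    simp only [Matrix.mul_assoc]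

theorem Chain.trans {W : Matrix (Fin n) (Fin k) ℕ} (h : Chain A B W)
    {V : Matrix (Fin k) (Fin l) ℕ} (h' : Chain B C V) : Chain A C (W * V) := by
  induction h' with
  | refl => simpa using h
  | step h1 h2 ih =>
    rw [← Matrix.mul_assoc]
    exact Chain.step ih h2

theorem Chain.single {R : Matrix (Fin n) (Fin k) ℕ} {S : Matrix (Fin k) (Fin n) ℕ}
    (h : ESSE A B R S) : Chain A B R := by
  have := Chain.step (Chain.refl (A := A)) h
  simpa using this

theorem Chain.inv {W : Matrix (Fin n) (Fin k) ℕ} (h : Chain A B W) :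
    ∃ (V : Matrix (Fin k) (Fin n) ℕ) (j : ℕ), Chain B A V ∧ W * V = A ^ j ∧ V * W = B ^ j := by
  induction h with
  | refl => exact ⟨1, 0, Chain.refl, by simp, by simp⟩
  | @step k l B C W R S h1 h2 ih =>
    obtain ⟨V, j, h3, h4, h5⟩ := ih
    refine ⟨S * V, j + 1, ?_, ?_, ?_⟩
    · exact (Chain.single ⟨h2.2, h2.1⟩).trans h3
    · have h6 : W * R * (S * V) = W * (R * S) * V := by simp only [Matrix.mul_assoc]
      rw [h6, ← h2.1, ← h1.comm, Matrix.mul_assoc, h4, pow_succ']
    · have h6 : S * V * (W * R) = S * (V * W) * R := by simp only [Matrix.mul_assoc]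
      rw [h6, h5, h2.1, h2.2]
      have h7 : ∀ j : ℕ, S * (R * S) ^ j * R = (S * R) ^ (j + 1) := by
        intro j
        induction j with
        | zero => simp
        | succ j ih =>
          rw [pow_succ (S * R), ← ih, pow_succ]
          simp only [Matrix.mul_assoc]
      exact h7 j

/-- the closed chain `A = A · 1`, `A = 1 · A` -/
theorem Chain.self : Chain A A A :=
  Chain.single (S := 1) ⟨(Matrix.mul_one A).symm, (Matrix.one_mul A).symm⟩

theorem Chain.pow (j : ℕ) : Chain A A (A ^ j) := by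
  induction j with
  | zero => simpa using Chain.refl
  | succ j ih =>
    rw [pow_succ]
    exact ih.trans Chain.self

/-! ### integral matrices on arbitrary finite index sets -/

/-- all entries are nonnegative -/
def Nn {ι κ : Type} (M : Matrix ι κ ℤ) : Prop := ∀ i j, 0 ≤ M i j

/-- `B` is reached from `A` by a chain with product `W` (for any enumeration of the index set) -/
def Rch (A : Matrix (Fin n) (Fin n) ℕ) {κ : Type} [Fintype κ] [DecidableEq κ]
    (B : Matrix κ κ ℤ) (W : Matrix (Fin n) κ ℤ) : Prop :=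
  ∃ (B' : Matrix κ κ ℕ) (W' : Matrix (Fin n) κ ℕ), B = B'.map (fun x : ℕ => (x : ℤ)) ∧
    W = W'.map (fun x : ℕ => (x : ℤ)) ∧
    ∀ (k : ℕ) (e : κ ≃ Fin k), Chain A (B'.submatrix e.symm e.symm) (W'.submatrix id e.symm)

theorem Rch.refl : Rch A (toZ A) 1 := by
  refine ⟨A, 1, rfl, ?_, ?_⟩
  · ext i j
    simp only [Matrix.map_apply, Matrix.one_apply]
    split_ifs <;> simp
  · intro k e
    apply Chain.single (S := A.submatrix e.symm id)
    constructor
    · have h := Matrix.submatrix_mul_equiv (1 : Matrix (Fin n) (Fin n) ℕ) A id e.symm id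
      rw [h, Matrix.one_mul, Matrix.submatrix_id_id]
    · have h : A.submatrix e.symm (Equiv.refl (Fin n)) *
          (1 : Matrix (Fin n) (Fin n) ℕ).submatrix (Equiv.refl (Fin n)) e.symm
          = (A * 1).submatrix e.symm e.symm :=
        Matrix.submatrix_mul_equiv A (1 : Matrix (Fin n) (Fin n) ℕ) e.symm (Equiv.refl _) e.symm
      rw [Matrix.mul_one] at h
      exact h.symm

theorem exists_nat_of_nn {ι κ : Type} {M : Matrix ι κ ℤ} (h : Nn M) :
    ∃ M' : Matrix ι κ ℕ, M = M'.map (fun x : ℕ => (x : ℤ)) := by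
  refine ⟨Matrix.of fun i j => (M i j).toNat, ?_⟩
  ext i j
  simp only [Matrix.map_apply, Matrix.of_apply]
  exact (Int.toNat_of_nonneg (h i j)).symm

theorem map_cast_injective {ι κ : Type} {M N : Matrix ι κ ℕ}
    (h : M.map (fun x : ℕ => (x : ℤ)) = N.map (fun x : ℕ => (x : ℤ))) : M = N := by
  ext i j
  have := congrFun (congrFun h i) j
  simpa using this

theorem map_cast_mul {ι κ μ : Type} [Fintype κ] (M : Matrix ι κ ℕ) (N : Matrix κ μ ℕ) :
    (M * N).map (fun x : ℕ => (x : ℤ))
      = M.map (fun x : ℕ => (x : ℤ)) * N.map (fun x : ℕ => (x : ℤ)) := by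
  ext i j
  simp [Matrix.mul_apply]

theorem Rch.step {κ μ : Type} [Fintype κ] [DecidableEq κ] [Fintype μ] [DecidableEq μ]
    {B : Matrix κ κ ℤ} {W : Matrix (Fin n) κ ℤ} (h : Rch A B W)
    {R : Matrix κ μ ℤ} {S : Matrix μ κ ℤ} (hR : Nn R) (hS : Nn S) (hB : B = R * S) :
    Rch A (S * R) (W * R) := by
  obtain ⟨B', W', h1, h2, h3⟩ := h
  obtain ⟨R', rfl⟩ := exists_nat_of_nn hR
  obtain ⟨S', rfl⟩ := exists_nat_of_nn hS
  have h4 : B' = R' * S' := by
    apply map_cast_injective
    rw [← h1, hB, map_cast_mul]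
  refine ⟨S' * R', W' * R', (map_cast_mul _ _).symm, ?_, ?_⟩
  · rw [h2, map_cast_mul]
  · intro k e'
    have e := Fintype.equivFin κ
    have h5 := h3 _ e
    have h6 := Chain.step h5 (C := (S' * R').submatrix e'.symm e'.symm)
      (R := R'.submatrix e.symm e'.symm) (S := S'.submatrix e'.symm e.symm) ⟨?_, ?_⟩
    · rw [Matrix.submatrix_mul_equiv] at h6
      exact h6
    · rw [h4, Matrix.submatrix_mul_equiv]
    · rw [Matrix.submatrix_mul_equiv]

theorem map_cast_pow {κ : Type} [Fintype κ] [DecidableEq κ] (M : Matrix κ κ ℕ) (j : ℕ) :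
    (M ^ j).map (fun x : ℕ => (x : ℤ)) = (M.map (fun x : ℕ => (x : ℤ))) ^ j := by
  induction j with
  | zero =>
    ext a b
    simp only [pow_zero, Matrix.map_apply, Matrix.one_apply]
    split_ifs <;> simp
  | succ j ih => rw [pow_succ, pow_succ, map_cast_mul, ih]

theorem submatrix_pow' {κ : Type} [Fintype κ] [DecidableEq κ] (M : Matrix κ κ ℕ) {m : ℕ}
    (e : κ ≃ Fin m) (j : ℕ) :
    (M ^ j).submatrix e.symm e.symm = (M.submatrix e.symm e.symm) ^ j := by
  induction j with
  | zero => ext a b; simp [Matrix.one_apply]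
  | succ j ih => rw [pow_succ, pow_succ, ← ih, Matrix.submatrix_mul_equiv]

/-- closed chains from two chains with the same end -/
theorem Rch.close {κ : Type} [Fintype κ] [DecidableEq κ] {B : Matrix κ κ ℤ}
    {W V : Matrix (Fin n) κ ℤ} (h : Rch A B W) (h' : Rch A B V) :
    ∃ (U : Matrix κ (Fin n) ℤ) (Y : Matrix (Fin n) (Fin n) ℕ) (j : ℕ), Chain A A Y ∧
      toZ Y = W * U ∧ U * V = B ^ j := by
  obtain ⟨B', W', h1, h2, h3⟩ := h
  obtain ⟨B'', V', h4, h5, h6⟩ := h'
  have h7 : B'' = B' := map_cast_injective (h4.symm.trans h1)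
  subst h7
  have e := Fintype.equivFin κ
  obtain ⟨U', j, h8, h9, h10⟩ := (h6 _ e).inv
  refine ⟨(U'.submatrix e id).map (fun x : ℕ => (x : ℤ)), W' * U'.submatrix e id, j, ?_, ?_, ?_⟩
  · have h11 := (h3 _ e).trans h8
    have h12 : W'.submatrix id e.symm * U' = W' * U'.submatrix e id := by
      have := Matrix.submatrix_mul_equiv W' (U'.submatrix e id) id e.symm id
      simpa using this
    rwa [h12] at h11
  · rw [h2]
    exact map_cast_mul _ _
  · rw [h5, ← map_cast_mul, h4]
    have h13 : U'.submatrix e id * V' = B'' ^ j := by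
      have h14 : (U'.submatrix e id * V').submatrix e.symm e.symm
          = (B'' ^ j).submatrix e.symm e.symm := by
        have h15 := Matrix.submatrix_mul_equiv (U'.submatrix e id) V' e.symm (Equiv.refl _) e.symm
        have h16 : (B'' ^ j).submatrix e.symm e.symm = (B''.submatrix e.symm e.symm) ^ j :=
          submatrix_pow' B'' e j
        rw [h16, ← h10, ← h15]
        simp
      ext a b
      have h17 := congrFun (congrFun h14 (e a)) (e b)
      simpa using h17
    rw [h13, map_cast_pow]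

end Pool.Agent.DimRep
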