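import Pool.Agent.Lib.MP_5f1e54_an.DR.Gen1

/-!
# DR-Circ: divisors of `1 + m n`

`P i j = #{k < t : j = i + k (mod n)}`, `P' i j = #{k < t' : j = i + t k (mod n)}` (index set `Fin n`, with
`(i + k : ZMod n)`-style addition, e.g. `NeZero n`, `i + (k : Fin n)` or `(i.val + k) % n = j.val`).
`(P P') i j = #{(k, k') : j = i + (k + t k')} = #{s < t t' : j = i + s}`
(every `s < t t'` is `k + t k'` in a unique way) `= #{s < 1 + m n : j = i + s} = [j = i] + m`
(every block of `n` consecutive `s` meets each residue once).  `P' P = P P'` (circulant matrices commute; or the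
same count).  Row and column sums of `P` are `t`.
-/

open Matrix Finset

namespace Pool.Agent.DimRep

/-- the cyclic shift -/
private def sh (n : ℕ) (hn : 1 ≤ n) (s : ℕ) (i : Fin n) : Fin n :=
  ⟨(i.val + s) % n, Nat.mod_lt _ hn⟩

private theorem sh_sh (n : ℕ) (hn : 1 ≤ n) (a b : ℕ) (i : Fin n) :
    sh n hn b (sh n hn a i) = sh n hn (a + b) i := by
  apply Fin.ext
  simp only [sh]
  rw [Nat.mod_add_mod, Nat.add_assoc]

private theorem sh_mul (n : ℕ) (hn : 1 ≤ n) (a k : ℕ) (i : Fin n) :
    sh n hn (n * k + a) i = sh n hn a i := by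
  apply Fin.ext
  simp only [sh]
  have h1 : i.val + (n * k + a) = (i.val + a) + n * k := by ring
  rw [h1, Nat.add_mul_mod_self_left]

private theorem sh_zero (n : ℕ) (hn : 1 ≤ n) (i : Fin n) : sh n hn 0 i = i := by
  apply Fin.ext
  simp only [sh, Nat.add_zero]
  exact Nat.mod_eq_of_lt i.isLt

private theorem sh_inj (n : ℕ) (hn : 1 ≤ n) (k : ℕ) : Function.Injective (sh n hn k) := by
  intro a b hab
  have h1 := congrArg (sh n hn (n * k - k)) hab
  rw [sh_sh, sh_sh] at h1
  have h2 : k + (n * k - k) = n * k + 0 := by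
    have : k ≤ n * k := Nat.le_mul_of_pos_left k hn
    omega
  rw [h2, sh_mul, sh_mul, sh_zero, sh_zero] at h1
  exact h1

/-- the matrix of the shift -/
private def Cs (n : ℕ) (hn : 1 ≤ n) (s : ℕ) : Matrix (Fin n) (Fin n) ℕ :=
  fun i j => if j = sh n hn s i then 1 else 0

private theorem Cs_mul (n : ℕ) (hn : 1 ≤ n) (a b : ℕ) : Cs n hn a * Cs n hn b = Cs n hn (a + b) := by
  ext i j
  rw [Matrix.mul_apply]
  simp only [Cs, ite_mul, one_mul, zero_mul, Finset.sum_ite_eq', Finset.mem_univ, if_true]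
  rw [sh_sh]

private theorem Cs_per (n : ℕ) (hn : 1 ≤ n) (a k : ℕ) : Cs n hn (n * k + a) = Cs n hn a := by
  ext i j
  simp only [Cs, sh_mul]

private theorem Cs_zero (n : ℕ) (hn : 1 ≤ n) : Cs n hn 0 = 1 := by
  ext i j
  simp only [Cs, sh_zero, Matrix.one_apply]
  by_cases h : i = j
  · rw [if_pos h.symm, if_pos h]
  · rw [if_neg (fun h' => h h'.symm), if_neg h]

private theorem Cs_row (n : ℕ) (hn : 1 ≤ n) (a : ℕ) (i : Fin n) : ∑ j, Cs n hn a i j = 1 := by
  simp [Cs]

private theorem Cs_col (n : ℕ) (hn : 1 ≤ n) (a : ℕ) (j : Fin n) : ∑ i, Cs n hn a i j = 1 := by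
  obtain ⟨i0, hi0⟩ := (Finite.injective_iff_surjective.1 (sh_inj n hn a)) j
  simp only [Cs]
  rw [Finset.sum_eq_single i0]
  · rw [if_pos hi0.symm]
  · intro b _ hb
    rw [if_neg]
    intro h
    exact hb (sh_inj n hn a (h.symm.trans hi0.symm))
  · intro h
    exact absurd (Finset.mem_univ _) h

private theorem Cs_sum_n (n : ℕ) (hn : 1 ≤ n) (i j : Fin n) :
    ∑ s ∈ Finset.range n, Cs n hn s i j = 1 := by
  have hi := i.isLt
  have hj := j.isLt
  have key : ∀ s < n, (j = sh n hn s i ↔ s = if i.val ≤ j.val then j.val - i.val else j.val + n - i.val) := by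
    intro s hs
    have h1 : (i.val + s) % n = if i.val + s < n then i.val + s else i.val + s - n := by
      by_cases h : i.val + s < n
      · rw [if_pos h, Nat.mod_eq_of_lt h]
      · rw [if_neg h, Nat.mod_eq_sub_mod (by omega), Nat.mod_eq_of_lt (by omega)]
    rw [Fin.ext_iff]
    simp only [sh, h1]
    split_ifs <;> omega
  rw [Finset.sum_eq_single (if i.val ≤ j.val then j.val - i.val else j.val + n - i.val)]
  · have h2 : (if i.val ≤ j.val then j.val - i.val else j.val + n - i.val) < n := by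
      split_ifs <;> omega
    simp only [Cs]
    rw [if_pos ((key _ h2).2 rfl)]
  · intro b hb hne
    simp only [Cs]
    rw [if_neg]
    intro h
    exact hne ((key b (Finset.mem_range.1 hb)).1 h)
  · intro h
    exfalso
    apply h
    rw [Finset.mem_range]
    split_ifs <;> omega

private theorem S_mul (n : ℕ) (hn : 1 ≤ n) (t t' : ℕ) :
    (∑ k ∈ Finset.range t, Cs n hn k) * ∑ k ∈ Finset.range t', Cs n hn (t * k) =
      ∑ s ∈ Finset.range (t * t'), Cs n hn s := by
  induction t' with
  | zero => simp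
  | succ t' ih =>
    rw [Finset.sum_range_succ, mul_add, ih, Nat.mul_succ, Finset.sum_range_add, Finset.sum_mul]
    congr 1
    refine Finset.sum_congr rfl fun k _ => ?_
    rw [Cs_mul, Nat.add_comm]

private theorem S_n (n : ℕ) (hn : 1 ≤ n) (m : ℕ) (i j : Fin n) :
    (∑ s ∈ Finset.range (n * m), Cs n hn s) i j = m := by
  induction m with
  | zero => simp
  | succ m ih =>
    rw [Nat.mul_succ, Finset.sum_range_add, Matrix.add_apply, ih]
    congr 1
    rw [Matrix.sum_apply]
    simp only [Cs_per]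
    exact Cs_sum_n n hn i j

theorem circ (n m t t' : ℕ) (hn : 1 ≤ n) (h : t * t' = 1 + m * n) :
    ∃ P P' : Matrix (Fin n) (Fin n) ℕ, P * P' = IJ n m ∧ P' * P = IJ n m ∧
      (∀ i, ∑ j, P i j = t) ∧ (∀ j, ∑ i, P i j = t) := by
  have h1 : (∑ k ∈ Finset.range t, Cs n hn k) * ∑ k ∈ Finset.range t', Cs n hn (t * k) =
      IJ n m := by
    rw [S_mul, h]
    have h2 : 1 + m * n = n * m + 1 := by ring
    rw [h2, Finset.sum_range_succ]
    have h3 : Cs n hn (n * m) = 1 := by
      have := Cs_per n hn 0 m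
      rw [Nat.add_zero] at this
      rw [this, Cs_zero]
    rw [h3]
    ext i j
    rw [Matrix.add_apply, S_n, Matrix.one_apply]
    simp only [IJ]
    rw [Nat.add_comm]
  have hc : Commute (∑ k ∈ Finset.range t, Cs n hn k) (∑ k ∈ Finset.range t', Cs n hn (t * k)) := by
    refine Commute.sum_left _ _ _ fun a _ => Commute.sum_right _ _ _ fun b _ => ?_
    show Cs n hn a * Cs n hn (t * b) = Cs n hn (t * b) * Cs n hn a
    rw [Cs_mul, Cs_mul, Nat.add_comm]
  refine ⟨_, _, h1, ?_, ?_, ?_⟩
  · rw [← hc.eq, h1]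
  · intro i
    simp only [Matrix.sum_apply]
    rw [Finset.sum_comm]
    simp [Cs_row]
  · intro j
    simp only [Matrix.sum_apply]
    rw [Finset.sum_comm]
    simp [Cs_col]

end Pool.Agent.DimRep
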