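import Mathlib

/-!
# MP_5f1e54_an: the dimension representation, definitions

Strong shift equivalence, Krieger's dimension triple of a nonnegative integer matrix and the image of
the dimension representation.
-/

open Matrix

namespace Pool.Agent.DimRep

/-- An elementary strong shift equivalence `(R, S)` from `A` to `B`: `A = R S` and `B = S R`,
with `R`, `S` nonnegative integer matrices. -/
def ESSE {n k : ℕ} (A : Matrix (Fin n) (Fin n) ℕ) (B : Matrix (Fin k) (Fin k) ℕ)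
    (R : Matrix (Fin n) (Fin k) ℕ) (S : Matrix (Fin k) (Fin n) ℕ) : Prop :=
  A = R * S ∧ B = S * R

/-- `Chain A B W`: there is a chain `A = A₀, A₁, …, A_ℓ = B` of elementary strong shift equivalences
`A_{i-1} = R_i S_i`, `A_i = S_i R_i`, and `W = R_1 R_2 ⋯ R_ℓ`. -/
inductive Chain {n : ℕ} (A : Matrix (Fin n) (Fin n) ℕ) :
    {k : ℕ} → Matrix (Fin k) (Fin k) ℕ → Matrix (Fin n) (Fin k) ℕ → Prop
  | refl : Chain A A 1
  | step {k l : ℕ} {B : Matrix (Fin k) (Fin k) ℕ} {C : Matrix (Fin l) (Fin l) ℕ}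
      {W : Matrix (Fin n) (Fin k) ℕ} {R : Matrix (Fin k) (Fin l) ℕ} {S : Matrix (Fin l) (Fin k) ℕ} :
      Chain A B W → ESSE B C R S → Chain A C (W * R)

/-- the matrix, with rational entries -/
def toQ {n k : ℕ} (A : Matrix (Fin n) (Fin k) ℕ) : Matrix (Fin n) (Fin k) ℚ :=
  A.map (fun x : ℕ => (x : ℚ))

/-- the matrix, with integer entries -/
def toZ {n k : ℕ} (A : Matrix (Fin n) (Fin k) ℕ) : Matrix (Fin n) (Fin k) ℤ :=
  A.map (fun x : ℕ => (x : ℤ))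

theorem cast_vecMul_pow {n : ℕ} (A : Matrix (Fin n) (Fin n) ℕ) (z : Fin n → ℤ) (k : ℕ) :
    (fun i => (z i : ℚ)) ᵥ* toQ A ^ k = fun i => ((z ᵥ* toZ A ^ k) i : ℚ) := by
  have h1 : toQ A ^ k = ((toZ A) ^ k).map (Int.castRingHom ℚ) := by
    have h2 : toQ A = (Int.castRingHom ℚ).mapMatrix (toZ A) := by
      ext i j
      simp [toQ, toZ]
    rw [h2, ← map_pow]
    rfl
  ext i
  rw [h1]
  exact (RingHom.map_vecMul (Int.castRingHom ℚ) ((toZ A) ^ k) z i).symm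

/-- Krieger's dimension group `Δ_A = {v ∈ R_A : v A^k ∈ ℤ^n for some k}`, where `R_A = ℚ^n A^n` is
the eventual range. -/
def Delta {n : ℕ} (A : Matrix (Fin n) (Fin n) ℕ) : AddSubgroup (Fin n → ℚ) where
  carrier := {v | (∃ u : Fin n → ℚ, v = u ᵥ* toQ A ^ n) ∧
    ∃ (k : ℕ) (z : Fin n → ℤ), v ᵥ* toQ A ^ k = fun i => (z i : ℚ)}
  zero_mem' := ⟨⟨0, by simp⟩, 0, 0, by ext i; simp⟩
  add_mem' := by
    rintro v w ⟨⟨u, hu⟩, k, z, hz⟩ ⟨⟨u', hu'⟩, k', z', hz'⟩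
    refine ⟨⟨u + u', by rw [Matrix.add_vecMul, hu, hu']⟩, k + k',
      z ᵥ* toZ A ^ k' + z' ᵥ* toZ A ^ k, ?_⟩
    have h1 : v ᵥ* toQ A ^ (k + k') = fun i => ((z ᵥ* toZ A ^ k') i : ℚ) := by
      rw [pow_add, ← Matrix.vecMul_vecMul, hz, cast_vecMul_pow]
    have h2 : w ᵥ* toQ A ^ (k + k') = fun i => ((z' ᵥ* toZ A ^ k) i : ℚ) := by
      rw [add_comm k k', pow_add, ← Matrix.vecMul_vecMul, hz', cast_vecMul_pow]
    rw [Matrix.add_vecMul, h1, h2]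
    ext i
    simp
  neg_mem' := by
    rintro v ⟨⟨u, hu⟩, k, z, hz⟩
    refine ⟨⟨-u, by rw [Matrix.neg_vecMul, hu]⟩, k, -z, ?_⟩
    rw [Matrix.neg_vecMul, hz]
    ext i
    simp

/-- The positive cone `Δ_A⁺ = {v ∈ R_A : v A^k ∈ ℤ_{≥0}^n for some k}`. -/
def DeltaPos {n : ℕ} (A : Matrix (Fin n) (Fin n) ℕ) : Set (Fin n → ℚ) :=
  {v | (∃ u : Fin n → ℚ, v = u ᵥ* toQ A ^ n) ∧
    ∃ (k : ℕ) (z : Fin n → ℕ), v ᵥ* toQ A ^ k = fun i => (z i : ℚ)}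

/-- `ψ ∈ aut(Δ_A)`: a group automorphism of `Δ_A` with `ψ(Δ_A⁺) = Δ_A⁺` which commutes with
`δ_A : v ↦ v A`. -/
structure IsAut {n : ℕ} (A : Matrix (Fin n) (Fin n) ℕ) (ψ : Delta A ≃+ Delta A) : Prop where
  pos : ∀ v : Delta A, (ψ v : Fin n → ℚ) ∈ DeltaPos A ↔ (v : Fin n → ℚ) ∈ DeltaPos A
  comm : ∀ v w : Delta A, (w : Fin n → ℚ) = (v : Fin n → ℚ) ᵥ* toQ A →
    (ψ w : Fin n → ℚ) = (ψ v : Fin n → ℚ) ᵥ* toQ A

/-- `ψ` is in the image of the dimension representation `s_A : aut(X_A) → aut(Δ_A)`: there are a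
closed chain `A = A₀, …, A_ℓ = A` of elementary strong shift equivalences (that is, an automorphism
`φ` of `X_A`, with `s_A(φ) : v ↦ v R_1 ⋯ R_ℓ`) and `k ≥ 0` with `s_A(φ) = δ_A^k ∘ ψ`
(recall `δ_A = s_A(σ_A)`, so that `ψ = s_A(σ_A^{-k} φ)`). -/
def InImage {n : ℕ} (A : Matrix (Fin n) (Fin n) ℕ) (ψ : Delta A ≃+ Delta A) : Prop :=
  ∃ (W : Matrix (Fin n) (Fin n) ℕ) (k : ℕ), Chain A A W ∧
    ∀ v : Delta A, (v : Fin n → ℚ) ᵥ* toQ W = (ψ v : Fin n → ℚ) ᵥ* toQ A ^ k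

/-- the matrix `I + m J`, `J` the all-ones matrix of size `n` -/
def IJ (n m : ℕ) : Matrix (Fin n) (Fin n) ℕ := fun i j => (if i = j then 1 else 0) + m

end Pool.Agent.DimRep
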