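import Pool.Agent.Lib.MP_5f1e54_an.DR.R3V

/-!
# The loop for size `3`, `m ≥ 2`
-/

open Matrix Finset

namespace Pool.Agent.DimRep

def a3F5 : Matrix (Fin 3) (Fin 5) ℤ := !![1,1,0,0,1; 0,0,1,1,1; 1,0,1,0,1]

def a3P5 (q : ℤ) : Matrix (Fin 5) (Fin 3) ℤ := !![1,1,2; 2,1,0; 1,1,1; 1,2,1; q,q,q]

def a3F9 : Matrix (Fin 3) (Fin 5) ℤ := !![1,-1,0,1,1; -1,2,1,0,1; 1,0,0,0,1]

def a3R9 : Matrix (Fin 5) (Fin 5) ℤ := !![1,0,1,0,0; 0,0,1,0,0; 1,0,0,1,0; 0,1,0,0,0; 0,0,0,0,1]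

def a3P13 (q : ℤ) : Matrix (Fin 5) (Fin 3) ℤ := !![0,1,3; 2,1,0; 1,1,1; 2,2,0; q,q,q]

def a3R13 : Matrix (Fin 5) (Fin 5) ℤ := !![1,1,0,0,0; 0,0,1,0,0; 1,0,0,1,0; 0,1,0,0,0; 0,0,0,0,1]

def a3F18 : Matrix (Fin 3) (Fin 4) ℤ := !![0,-1,2,1; 1,2,-2,1; 0,0,1,1]

def a3R18 : Matrix (Fin 4) (Fin 5) ℤ := !![0,1,0,1,0; 1,0,1,0,0; 1,1,0,0,0; 0,0,0,0,1]

def a3F0 : Matrix (Fin 3) (Fin 4) ℤ := !![1,0,0,1; 0,1,0,1; 0,0,1,1]

def a3P0 (q : ℤ) : Matrix (Fin 4) (Fin 3) ℤ := !![3,2,2; 2,3,2; 2,2,3; q,q,q]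

theorem toZ_IJ3 (q : ℕ) : toZ (IJ 3 (q + 2)) = !![(q:ℤ)+3,q+2,q+2; q+2,q+3,q+2; q+2,q+2,q+3] := by
  ext i j
  rw [toZ_IJ]
  fin_cases i <;> fin_cases j <;> simp [dl] <;> ring

theorem good_V_two (m : ℕ) (hm : 2 ≤ m) : GZ m (V3 (-1) 0 1 2) := by
  obtain ⟨q, rfl⟩ := Nat.exists_eq_add_of_le' hm
  have hq : (0 : ℤ) ≤ q := by positivity
  have h0 := (Obj.start' (A := IJ 3 (q + 2)))
  have h5 := h0.fwd a3F5 (a3P5 q)
    (by
      rw [toZ_IJ3]
      ext i j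
      fin_cases i <;> fin_cases j <;> simp [a3F5, a3P5, Matrix.mul_apply, Fin.sum_univ_succ] <;> ring)
    (by
      intro i j
      fin_cases i <;> fin_cases j <;> simp [a3F5])
    (by
      rw [Matrix.mul_one]
      intro i j
      fin_cases i <;> fin_cases j <;> simp [a3P5])
  rw [Matrix.one_mul] at h5
  have h9 := h5.bwd a3R9 a3F9
    (by decide)
    (by
      intro i j
      fin_cases i <;> fin_cases j <;> simp [a3R9])
    (by
      intro i j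
      fin_cases i <;> fin_cases j <;> simp [a3F9, a3P5, Matrix.mul_apply, Fin.sum_univ_succ] <;> linarith)
  have h13 := h9.fwd a3R13 (a3P13 q)
    (by
      ext i j
      fin_cases i <;> fin_cases j <;>
        simp [a3R9, a3P5, a3R13, a3P13, Matrix.mul_apply, Fin.sum_univ_succ])
    (by
      intro i j
      fin_cases i <;> fin_cases j <;> simp [a3R13])
    (by
      intro i j
      fin_cases i <;> fin_cases j <;> simp [a3F9, a3P13, Matrix.mul_apply, Fin.sum_univ_succ] <;> linarith)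
  have h18 := h13.bwd a3R18 a3F18
    (by decide)
    (by
      intro i j
      fin_cases i <;> fin_cases j <;> simp [a3R18])
    (by
      intro i j
      fin_cases i <;> fin_cases j <;> simp [a3F18, a3P13, Matrix.mul_apply, Fin.sum_univ_succ] <;> linarith)
  have h00 := h0.fwd a3F0 (a3P0 q)
    (by
      rw [toZ_IJ3]
      ext i j
      fin_cases i <;> fin_cases j <;> simp [a3F0, a3P0, Matrix.mul_apply, Fin.sum_univ_succ] <;> ring)
    (by
      intro i j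
      fin_cases i <;> fin_cases j <;> simp [a3F0])
    (by
      rw [Matrix.mul_one]
      intro i j
      fin_cases i <;> fin_cases j <;> simp [a3P0])
  rw [Matrix.one_mul] at h00
  have hX : V3 1 0 1 2 * V3 (-1) 0 1 2 = 1 := by decide
  have hV : V3 1 0 1 2 = !![2,1,-2; -1,0,2; 0,0,1] := by decide
  have hF : a3F0 = V3 1 0 1 2 * a3F18 := by decide
  have hP : a3R18 * a3P13 q = a3P0 q * V3 1 0 1 2 := by
    rw [hV]
    ext i j
    fin_cases i <;> fin_cases j <;>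
      simp [a3R18, a3P13, a3P0, Matrix.mul_apply, Fin.sum_univ_succ] <;> ring
  have hB : a3R18 * a3P13 q * a3F18 = a3P0 q * a3F0 := by
    rw [hP, hF, Matrix.mul_assoc]
  exact Obj.close h18 h00 hB hP hX ((uni_V3 1 (by decide) (by decide) (by decide)).comm _)

end Pool.Agent.DimRep
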