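import Pool.Agent.Lib.MP_5f1e54_an.DR.R3V

/-!
# The loop for size `3`, `m = 1`
-/

open Matrix Finset

namespace Pool.Agent.DimRep

theorem b3c0 : Chain (!![2,1,1; 1,2,1; 1,1,2] : Matrix (Fin 3) (Fin 3) ℕ) (!![2,1,1; 1,2,1; 1,1,2] : Matrix (Fin 3) (Fin 3) ℕ) 1 :=
  Chain.refl

theorem b3c1 : Chain (!![2,1,1; 1,2,1; 1,1,2] : Matrix (Fin 3) (Fin 3) ℕ) (!![2,1,1; 1,2,1; 1,1,2] : Matrix (Fin 3) (Fin 3) ℕ)
    !![0,1,1; 1,0,1; 1,1,0] := by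
  have h := Chain.step b3c0 (R := !![0,1,1; 1,0,1; 1,1,0])
    (S := !![0,1,1; 1,0,1; 1,1,0]) (C := !![2,1,1; 1,2,1; 1,1,2])
    ⟨by decide, by decide⟩
  have e : (1 : Matrix (Fin 3) (Fin 3) ℕ) * !![0,1,1; 1,0,1; 1,1,0]
    = !![0,1,1; 1,0,1; 1,1,0] := by decide +kernel
  rwa [e] at h

theorem b3c2 : Chain (!![2,1,1; 1,2,1; 1,1,2] : Matrix (Fin 3) (Fin 3) ℕ) (!![1,1,0,0; 1,1,1,1; 1,1,2,1; 1,1,1,2] : Matrix (Fin 4) (Fin 4) ℕ)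
    !![0,0,1,1; 1,1,0,1; 1,1,1,0] := by
  have h := Chain.step b3c1 (R := !![1,1,0,0; 0,0,1,0; 0,0,0,1])
    (S := !![1,0,0; 1,1,1; 1,2,1; 1,1,2]) (C := !![1,1,0,0; 1,1,1,1; 1,1,2,1; 1,1,1,2])
    ⟨by decide, by decide⟩
  have e : (!![0,1,1; 1,0,1; 1,1,0] : Matrix (Fin 3) (Fin 3) ℕ) * !![1,1,0,0; 0,0,1,0; 0,0,0,1]
    = !![0,0,1,1; 1,1,0,1; 1,1,1,0] := by decide +kernel
  rwa [e] at h

theorem b3c3 : Chain (!![2,1,1; 1,2,1; 1,1,2] : Matrix (Fin 3) (Fin 3) ℕ) (!![0,0,0,1,1; 1,1,1,0,0; 1,1,1,0,0; 1,1,1,2,1; 1,1,1,1,2] : Matrix (Fin 5) (Fin 5) ℕ)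
    !![0,0,0,1,1; 1,1,1,0,1; 1,1,1,1,0] := by
  have h := Chain.step b3c2 (R := !![0,1,0,0,0; 1,0,1,0,0; 0,0,0,1,0; 0,0,0,0,1])
    (S := !![0,0,1,1; 1,1,0,0; 1,1,0,0; 1,1,2,1; 1,1,1,2]) (C := !![0,0,0,1,1; 1,1,1,0,0; 1,1,1,0,0; 1,1,1,2,1; 1,1,1,1,2])
    ⟨by decide, by decide⟩
  have e : (!![0,0,1,1; 1,1,0,1; 1,1,1,0] : Matrix (Fin 3) (Fin 4) ℕ) * !![0,1,0,0,0; 1,0,1,0,0; 0,0,0,1,0; 0,0,0,0,1]
    = !![0,0,0,1,1; 1,1,1,0,1; 1,1,1,1,0] := by decide +kernel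
  rwa [e] at h

theorem b3c4 : Chain (!![2,1,1; 1,2,1; 1,1,2] : Matrix (Fin 3) (Fin 3) ℕ) (!![0,0,1,1; 1,2,0,0; 1,2,2,1; 1,2,1,2] : Matrix (Fin 4) (Fin 4) ℕ)
    !![0,0,1,1; 1,2,0,1; 1,2,1,0] := by
  have h := Chain.step b3c3 (R := !![1,0,0,0; 0,1,0,0; 0,1,0,0; 0,0,1,0; 0,0,0,1])
    (S := !![0,0,0,1,1; 1,1,1,0,0; 1,1,1,2,1; 1,1,1,1,2]) (C := !![0,0,1,1; 1,2,0,0; 1,2,2,1; 1,2,1,2])
    ⟨by decide, by decide⟩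
  have e : (!![0,0,0,1,1; 1,1,1,0,1; 1,1,1,1,0] : Matrix (Fin 3) (Fin 5) ℕ) * !![1,0,0,0; 0,1,0,0; 0,1,0,0; 0,0,1,0; 0,0,0,1]
    = !![0,0,1,1; 1,2,0,1; 1,2,1,0] := by decide +kernel
  rwa [e] at h

theorem b3c5 : Chain (!![2,1,1; 1,2,1; 1,1,2] : Matrix (Fin 3) (Fin 3) ℕ) (!![0,1,1,0,1; 0,1,1,0,1; 1,1,1,2,0; 1,0,0,2,0; 1,1,1,2,2] : Matrix (Fin 5) (Fin 5) ℕ)
    !![0,1,1,0,1; 1,0,0,2,1; 1,1,1,2,0] := by
  have h := Chain.step b3c4 (R := !![1,0,0,0,0; 0,0,0,1,0; 0,1,1,0,0; 0,0,0,0,1])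
    (S := !![0,0,1,1; 0,0,1,1; 1,2,1,0; 1,2,0,0; 1,2,1,2]) (C := !![0,1,1,0,1; 0,1,1,0,1; 1,1,1,2,0; 1,0,0,2,0; 1,1,1,2,2])
    ⟨by decide, by decide⟩
  have e : (!![0,0,1,1; 1,2,0,1; 1,2,1,0] : Matrix (Fin 3) (Fin 4) ℕ) * !![1,0,0,0,0; 0,0,0,1,0; 0,1,1,0,0; 0,0,0,0,1]
    = !![0,1,1,0,1; 1,0,0,2,1; 1,1,1,2,0] := by decide +kernel
  rwa [e] at h

theorem b3c6 : Chain (!![2,1,1; 1,2,1; 1,1,2] : Matrix (Fin 3) (Fin 3) ℕ) (!![1,1,0,1; 2,1,2,0; 1,0,2,0; 2,1,2,2] : Matrix (Fin 4) (Fin 4) ℕ)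
    !![1,1,0,1; 1,0,2,1; 2,1,2,0] := by
  have h := Chain.step b3c5 (R := !![1,0,0,0; 1,0,0,0; 0,1,0,0; 0,0,1,0; 0,0,0,1])
    (S := !![0,1,1,0,1; 1,1,1,2,0; 1,0,0,2,0; 1,1,1,2,2]) (C := !![1,1,0,1; 2,1,2,0; 1,0,2,0; 2,1,2,2])
    ⟨by decide, by decide⟩
  have e : (!![0,1,1,0,1; 1,0,0,2,1; 1,1,1,2,0] : Matrix (Fin 3) (Fin 5) ℕ) * !![1,0,0,0; 1,0,0,0; 0,1,0,0; 0,0,1,0; 0,0,0,1]
    = !![1,1,0,1; 1,0,2,1; 2,1,2,0] := by decide +kernel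
  rwa [e] at h

theorem b3c7 : Chain (!![2,1,1; 1,2,1; 1,1,2] : Matrix (Fin 3) (Fin 3) ℕ) (!![0,0,1,2,0; 0,1,2,2,0; 1,1,1,0,1; 0,0,1,2,0; 2,1,1,0,2] : Matrix (Fin 5) (Fin 5) ℕ)
    !![1,1,1,0,1; 1,0,1,2,1; 0,1,2,2,0] := by
  have h := Chain.step b3c6 (R := !![0,0,1,0,0; 0,1,0,0,0; 0,0,0,1,0; 1,0,0,0,1])
    (S := !![1,0,2,0; 2,1,2,0; 1,1,0,1; 1,0,2,0; 1,1,0,2]) (C := !![0,0,1,2,0; 0,1,2,2,0; 1,1,1,0,1; 0,0,1,2,0; 2,1,1,0,2])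
    ⟨by decide, by decide⟩
  have e : (!![1,1,0,1; 1,0,2,1; 2,1,2,0] : Matrix (Fin 3) (Fin 4) ℕ) * !![0,0,1,0,0; 0,1,0,0,0; 0,0,0,1,0; 1,0,0,0,1]
    = !![1,1,1,0,1; 1,0,1,2,1; 0,1,2,2,0] := by decide +kernel
  rwa [e] at h

theorem b3c8 : Chain (!![2,1,1; 1,2,1; 1,1,2] : Matrix (Fin 3) (Fin 3) ℕ) (!![1,2,2,0; 1,1,1,1; 0,1,2,0; 1,1,2,2] : Matrix (Fin 4) (Fin 4) ℕ)
    !![1,1,1,1; 0,1,3,1; 1,2,2,0] := by
  have h := Chain.step b3c7 (R := !![0,0,1,0; 1,0,0,0; 0,1,0,0; 0,0,1,0; 0,0,0,1])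
    (S := !![0,1,2,2,0; 1,1,1,0,1; 0,0,1,2,0; 2,1,1,0,2]) (C := !![1,2,2,0; 1,1,1,1; 0,1,2,0; 1,1,2,2])
    ⟨by decide, by decide⟩
  have e : (!![1,1,1,0,1; 1,0,1,2,1; 0,1,2,2,0] : Matrix (Fin 3) (Fin 5) ℕ) * !![0,0,1,0; 1,0,0,0; 0,1,0,0; 0,0,1,0; 0,0,0,1]
    = !![1,1,1,1; 0,1,3,1; 1,2,2,0] := by decide +kernel
  rwa [e] at h

theorem b3c9 : Chain (!![2,1,1; 1,2,1; 1,1,2] : Matrix (Fin 3) (Fin 3) ℕ) (!![0,0,1,2,0; 0,1,2,2,0; 1,1,1,1,1; 0,0,1,2,0; 2,1,0,0,2] : Matrix (Fin 5) (Fin 5) ℕ)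
    !![1,1,1,1,1; 1,0,1,3,1; 0,1,2,2,0] := by
  have h := Chain.step b3c8 (R := !![0,1,0,0,0; 0,0,1,0,0; 0,0,0,1,0; 1,0,0,0,1])
    (S := !![0,1,2,0; 1,2,2,0; 1,1,1,1; 0,1,2,0; 1,0,0,2]) (C := !![0,0,1,2,0; 0,1,2,2,0; 1,1,1,1,1; 0,0,1,2,0; 2,1,0,0,2])
    ⟨by decide, by decide⟩
  have e : (!![1,1,1,1; 0,1,3,1; 1,2,2,0] : Matrix (Fin 3) (Fin 4) ℕ) * !![0,1,0,0,0; 0,0,1,0,0; 0,0,0,1,0; 1,0,0,0,1]
    = !![1,1,1,1,1; 1,0,1,3,1; 0,1,2,2,0] := by decide +kernel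
  rwa [e] at h

theorem b3c10 : Chain (!![2,1,1; 1,2,1; 1,1,2] : Matrix (Fin 3) (Fin 3) ℕ) (!![1,2,2,0; 1,1,2,1; 0,1,2,0; 1,0,2,2] : Matrix (Fin 4) (Fin 4) ℕ)
    !![1,1,2,1; 0,1,4,1; 1,2,2,0] := by
  have h := Chain.step b3c9 (R := !![0,0,1,0; 1,0,0,0; 0,1,0,0; 0,0,1,0; 0,0,0,1])
    (S := !![0,1,2,2,0; 1,1,1,1,1; 0,0,1,2,0; 2,1,0,0,2]) (C := !![1,2,2,0; 1,1,2,1; 0,1,2,0; 1,0,2,2])
    ⟨by decide, by decide⟩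
  have e : (!![1,1,1,1,1; 1,0,1,3,1; 0,1,2,2,0] : Matrix (Fin 3) (Fin 5) ℕ) * !![0,0,1,0; 1,0,0,0; 0,1,0,0; 0,0,1,0; 0,0,0,1]
    = !![1,1,2,1; 0,1,4,1; 1,2,2,0] := by decide +kernel
  rwa [e] at h

theorem b3c11 : Chain (!![2,1,1; 1,2,1; 1,1,2] : Matrix (Fin 3) (Fin 3) ℕ) (!![1,1,0,1,0; 1,1,0,1,0; 1,1,1,2,0; 1,1,1,1,1; 1,1,1,0,2] : Matrix (Fin 5) (Fin 5) ℕ)
    !![5,5,3,5,3; 6,6,2,5,3; 5,5,3,6,2] := by
  have h := Chain.step b3c10 (R := !![1,1,1,2,0; 1,1,1,1,1; 1,1,0,1,0; 1,1,1,0,2])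
    (S := !![0,0,1,0; 0,0,1,0; 1,0,0,0; 0,1,0,0; 0,0,0,1]) (C := !![1,1,0,1,0; 1,1,0,1,0; 1,1,1,2,0; 1,1,1,1,1; 1,1,1,0,2])
    ⟨by decide, by decide⟩
  have e : (!![1,1,2,1; 0,1,4,1; 1,2,2,0] : Matrix (Fin 3) (Fin 4) ℕ) * !![1,1,1,2,0; 1,1,1,1,1; 1,1,0,1,0; 1,1,1,0,2]
    = !![5,5,3,5,3; 6,6,2,5,3; 5,5,3,6,2] := by decide +kernel
  rwa [e] at h

theorem b3c12 : Chain (!![2,1,1; 1,2,1; 1,1,2] : Matrix (Fin 3) (Fin 3) ℕ) (!![1,2,1,0; 1,1,1,1; 0,2,2,0; 1,0,1,2] : Matrix (Fin 4) (Fin 4) ℕ)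
    !![11,21,21,11; 10,21,22,11; 11,22,21,10] := by
  have h := Chain.step b3c11 (R := !![0,1,1,0; 0,1,1,0; 1,2,1,0; 1,1,1,1; 1,0,1,2])
    (S := !![0,0,1,0,0; 0,0,0,1,0; 1,1,0,0,0; 0,0,0,0,1]) (C := !![1,2,1,0; 1,1,1,1; 0,2,2,0; 1,0,1,2])
    ⟨by decide, by decide⟩
  have e : (!![5,5,3,5,3; 6,6,2,5,3; 5,5,3,6,2] : Matrix (Fin 3) (Fin 5) ℕ) * !![0,1,1,0; 0,1,1,0; 1,2,1,0; 1,1,1,1; 1,0,1,2]
    = !![11,21,21,11; 10,21,22,11; 11,22,21,10] := by decide +kernel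
  rwa [e] at h

theorem b3c13 : Chain (!![2,1,1; 1,2,1; 1,1,2] : Matrix (Fin 3) (Fin 3) ℕ) (!![0,0,2,2,0; 1,1,2,0,0; 1,1,1,0,1; 0,0,2,2,0; 1,1,0,0,2] : Matrix (Fin 5) (Fin 5) ℕ)
    !![43,43,85,42,43; 42,42,85,44,43; 43,43,86,42,42] := by
  have h := Chain.step b3c12 (R := !![1,1,2,0,0; 1,1,1,0,1; 0,0,2,2,0; 1,1,0,0,2])
    (S := !![0,0,1,0; 1,0,0,0; 0,1,0,0; 0,0,1,0; 0,0,0,1]) (C := !![0,0,2,2,0; 1,1,2,0,0; 1,1,1,0,1; 0,0,2,2,0; 1,1,0,0,2])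
    ⟨by decide, by decide⟩
  have e : (!![11,21,21,11; 10,21,22,11; 11,22,21,10] : Matrix (Fin 3) (Fin 4) ℕ) * !![1,1,2,0,0; 1,1,1,0,1; 0,0,2,2,0; 1,1,0,0,2]
    = !![43,43,85,42,43; 42,42,85,44,43; 43,43,86,42,42] := by decide +kernel
  rwa [e] at h

theorem b3c14 : Chain (!![2,1,1; 1,2,1; 1,1,2] : Matrix (Fin 3) (Fin 3) ℕ) (!![1,1,1,0; 4,1,0,2; 0,1,2,0; 2,0,0,2] : Matrix (Fin 4) (Fin 4) ℕ)
    !![341,171,171,170; 341,170,171,172; 342,171,170,170] := by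
  have h := Chain.step b3c13 (R := !![2,0,0,2; 2,1,0,0; 1,1,1,0; 2,0,0,2; 0,1,2,0])
    (S := !![0,0,1,0,0; 1,1,0,0,0; 0,0,0,0,1; 0,0,0,1,0]) (C := !![1,1,1,0; 4,1,0,2; 0,1,2,0; 2,0,0,2])
    ⟨by decide, by decide⟩
  have e : (!![43,43,85,42,43; 42,42,85,44,43; 43,43,86,42,42] : Matrix (Fin 3) (Fin 5) ℕ) * !![2,0,0,2; 2,1,0,0; 1,1,1,0; 2,0,0,2; 0,1,2,0]
    = !![341,171,171,170; 341,170,171,172; 342,171,170,170] := by decide +kernel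
  rwa [e] at h

theorem b3c15 : Chain (!![2,1,1; 1,2,1; 1,1,2] : Matrix (Fin 3) (Fin 3) ℕ) (!![0,1,1,1,0; 0,1,1,1,0; 2,2,1,0,2; 0,0,1,2,0; 2,0,0,0,2] : Matrix (Fin 5) (Fin 5) ℕ)
    !![682,683,683,683,682; 684,681,682,683,684; 682,684,683,682,682] := by
  have h := Chain.step b3c14 (R := !![0,1,1,1,0; 2,2,1,0,2; 0,0,1,2,0; 2,0,0,0,2])
    (S := !![1,0,0,0; 1,0,0,0; 0,1,0,0; 0,0,1,0; 0,0,0,1]) (C := !![0,1,1,1,0; 0,1,1,1,0; 2,2,1,0,2; 0,0,1,2,0; 2,0,0,0,2])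
    ⟨by decide, by decide⟩
  have e : (!![341,171,171,170; 341,170,171,172; 342,171,170,170] : Matrix (Fin 3) (Fin 4) ℕ) * !![0,1,1,1,0; 2,2,1,0,2; 0,0,1,2,0; 2,0,0,0,2]
    = !![682,683,683,683,682; 684,681,682,683,684; 682,684,683,682,682] := by decide +kernel
  rwa [e] at h

theorem b3c16 : Chain (!![2,1,1; 1,2,1; 1,1,2] : Matrix (Fin 3) (Fin 3) ℕ) (!![1,1,1,0; 2,1,0,2; 0,1,2,0; 1,1,1,2] : Matrix (Fin 4) (Fin 4) ℕ)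
    !![2731,2731,2731,2730; 2729,2730,2731,2732; 2732,2731,2730,2730] := by
  have h := Chain.step b3c15 (R := !![1,1,1,0; 1,1,1,0; 2,1,0,2; 0,1,2,0; 0,0,0,2])
    (S := !![0,1,0,0,0; 0,0,1,0,0; 0,0,0,1,0; 1,0,0,0,1]) (C := !![1,1,1,0; 2,1,0,2; 0,1,2,0; 1,1,1,2])
    ⟨by decide, by decide⟩
  have e : (!![682,683,683,683,682; 684,681,682,683,684; 682,684,683,682,682] : Matrix (Fin 3) (Fin 5) ℕ) * !![1,1,1,0; 1,1,1,0; 2,1,0,2; 0,1,2,0; 0,0,0,2]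
    = !![2731,2731,2731,2730; 2729,2730,2731,2732; 2732,2731,2730,2730] := by decide +kernel
  rwa [e] at h

theorem b3c17 : Chain (!![2,1,1; 1,2,1; 1,1,2] : Matrix (Fin 3) (Fin 3) ℕ) (!![1,1,0,0,1; 2,1,1,1,0; 1,1,1,1,1; 1,1,1,1,1; 0,1,0,0,2] : Matrix (Fin 5) (Fin 5) ℕ)
    !![10923,10923,5461,5461,10923; 10921,10922,5462,5462,10923; 10924,10923,5461,5461,10922] := by
  have h := Chain.step b3c16 (R := !![1,1,0,0,1; 2,1,1,1,0; 0,1,0,0,2; 1,1,1,1,1])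
    (S := !![1,0,0,0; 0,1,0,0; 0,0,0,1; 0,0,0,1; 0,0,1,0]) (C := !![1,1,0,0,1; 2,1,1,1,0; 1,1,1,1,1; 1,1,1,1,1; 0,1,0,0,2])
    ⟨by decide, by decide⟩
  have e : (!![2731,2731,2731,2730; 2729,2730,2731,2732; 2732,2731,2730,2730] : Matrix (Fin 3) (Fin 4) ℕ) * !![1,1,0,0,1; 2,1,1,1,0; 0,1,0,0,2; 1,1,1,1,1]
    = !![10923,10923,5461,5461,10923; 10921,10922,5462,5462,10923; 10924,10923,5461,5461,10922] := by decide +kernel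
  rwa [e] at h

theorem b3c18 : Chain (!![2,1,1; 1,2,1; 1,1,2] : Matrix (Fin 3) (Fin 3) ℕ) (!![1,1,1,0; 2,1,0,1; 0,1,2,0; 2,2,2,2] : Matrix (Fin 4) (Fin 4) ℕ)
    !![43691,43691,43691,21845; 43689,43690,43691,21846; 43692,43691,43690,21845] := by
  have h := Chain.step b3c17 (R := !![1,1,1,0; 2,1,0,1; 1,1,1,1; 1,1,1,1; 0,1,2,0])
    (S := !![1,0,0,0,0; 0,1,0,0,0; 0,0,0,0,1; 0,0,1,1,0]) (C := !![1,1,1,0; 2,1,0,1; 0,1,2,0; 2,2,2,2])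
    ⟨by decide, by decide⟩
  have e : (!![10923,10923,5461,5461,10923; 10921,10922,5462,5462,10923; 10924,10923,5461,5461,10922] : Matrix (Fin 3) (Fin 5) ℕ) * !![1,1,1,0; 2,1,0,1; 1,1,1,1; 1,1,1,1; 0,1,2,0]
    = !![43691,43691,43691,21845; 43689,43690,43691,21846; 43692,43691,43690,21845] := by decide +kernel
  rwa [e] at h

theorem b3c19 : Chain (!![2,1,1; 1,2,1; 1,1,2] : Matrix (Fin 3) (Fin 3) ℕ) (!![0,1,1,1,0; 0,1,1,1,0; 1,1,1,0,1; 0,0,1,2,0; 2,0,2,2,2] : Matrix (Fin 5) (Fin 5) ℕ)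
    !![87381,87382,174763,174763,87381; 87382,87379,174762,174763,87382; 87381,87383,174763,174762,87381] := by
  have h := Chain.step b3c18 (R := !![0,1,1,1,0; 1,1,1,0,1; 0,0,1,2,0; 2,0,2,2,2])
    (S := !![1,0,0,0; 1,0,0,0; 0,1,0,0; 0,0,1,0; 0,0,0,1]) (C := !![0,1,1,1,0; 0,1,1,1,0; 1,1,1,0,1; 0,0,1,2,0; 2,0,2,2,2])
    ⟨by decide, by decide⟩
  have e : (!![43691,43691,43691,21845; 43689,43690,43691,21846; 43692,43691,43690,21845] : Matrix (Fin 3) (Fin 4) ℕ) * !![0,1,1,1,0; 1,1,1,0,1; 0,0,1,2,0; 2,0,2,2,2]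
    = !![87381,87382,174763,174763,87381; 87382,87379,174762,174763,87382; 87381,87383,174763,174762,87381] := by decide +kernel
  rwa [e] at h

theorem b3c20 : Chain (!![2,1,1; 1,2,1; 1,1,2] : Matrix (Fin 3) (Fin 3) ℕ) (!![1,1,1,0; 1,1,0,1; 0,1,2,0; 1,3,3,2] : Matrix (Fin 4) (Fin 4) ℕ)
    !![349526,699051,699051,349525; 349523,699050,699051,349526; 349527,699051,699050,349525] := by
  have h := Chain.step b3c19 (R := !![1,1,1,0; 1,1,1,0; 1,1,0,1; 0,1,2,0; 0,2,2,2])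
    (S := !![0,1,0,0,0; 0,0,1,0,0; 0,0,0,1,0; 1,0,0,0,1]) (C := !![1,1,1,0; 1,1,0,1; 0,1,2,0; 1,3,3,2])
    ⟨by decide, by decide⟩
  have e : (!![87381,87382,174763,174763,87381; 87382,87379,174762,174763,87382; 87381,87383,174763,174762,87381] : Matrix (Fin 3) (Fin 5) ℕ) * !![1,1,1,0; 1,1,1,0; 1,1,0,1; 0,1,2,0; 0,2,2,2]
    = !![349526,699051,699051,349525; 349523,699050,699051,349526; 349527,699051,699050,349525] := by decide +kernel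
  rwa [e] at h

theorem b3c21 : Chain (!![2,1,1; 1,2,1; 1,1,2] : Matrix (Fin 3) (Fin 3) ℕ) (!![0,0,1,2,0; 0,1,1,1,0; 1,1,1,0,1; 0,0,1,2,0; 2,1,2,1,2] : Matrix (Fin 5) (Fin 5) ℕ)
    !![349525,349526,699051,699051,349525; 349526,349523,699050,699051,349526; 349525,349527,699051,699050,349525] := by
  have h := Chain.step b3c20 (R := !![0,1,0,0,0; 0,0,1,0,0; 0,0,0,1,0; 1,0,0,0,1])
    (S := !![0,1,2,0; 1,1,1,0; 1,1,0,1; 0,1,2,0; 1,2,1,2]) (C := !![0,0,1,2,0; 0,1,1,1,0; 1,1,1,0,1; 0,0,1,2,0; 2,1,2,1,2])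
    ⟨by decide, by decide⟩
  have e : (!![349526,699051,699051,349525; 349523,699050,699051,349526; 349527,699051,699050,349525] : Matrix (Fin 3) (Fin 4) ℕ) * !![0,1,0,0,0; 0,0,1,0,0; 0,0,0,1,0; 1,0,0,0,1]
    = !![349525,349526,699051,699051,349525; 349526,349523,699050,699051,349526; 349525,349527,699051,699050,349525] := by decide +kernel
  rwa [e] at h

theorem b3c22 : Chain (!![2,1,1; 1,2,1; 1,1,2] : Matrix (Fin 3) (Fin 3) ℕ) (!![1,1,1,0; 1,1,1,1; 0,1,2,0; 1,2,3,2] : Matrix (Fin 4) (Fin 4) ℕ)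
    !![349526,699051,1048576,349525; 349523,699050,1048577,349526; 349527,699051,1048575,349525] := by
  have h := Chain.step b3c21 (R := !![0,0,1,0; 1,0,0,0; 0,1,0,0; 0,0,1,0; 0,0,0,1])
    (S := !![0,1,1,1,0; 1,1,1,0,1; 0,0,1,2,0; 2,1,2,1,2]) (C := !![1,1,1,0; 1,1,1,1; 0,1,2,0; 1,2,3,2])
    ⟨by decide, by decide⟩
  have e : (!![349525,349526,699051,699051,349525; 349526,349523,699050,699051,349526; 349525,349527,699051,699050,349525] : Matrix (Fin 3) (Fin 5) ℕ) * !![0,0,1,0; 1,0,0,0; 0,1,0,0; 0,0,1,0; 0,0,0,1]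
    = !![349526,699051,1048576,349525; 349523,699050,1048577,349526; 349527,699051,1048575,349525] := by decide +kernel
  rwa [e] at h

theorem b3c23 : Chain (!![2,1,1; 1,2,1; 1,1,2] : Matrix (Fin 3) (Fin 3) ℕ) (!![1,0,1,1,0; 0,1,1,1,0; 0,1,1,1,0; 1,0,1,1,1; 1,1,2,2,2] : Matrix (Fin 5) (Fin 5) ℕ)
    !![1398102,1398101,2796203,2796203,1398101; 1398099,1398103,2796202,2796202,1398102; 1398103,1398100,2796203,2796203,1398101] := by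
  have h := Chain.step b3c22 (R := !![1,0,1,1,0; 1,0,1,1,1; 0,1,1,1,0; 1,1,2,2,2])
    (S := !![1,0,0,0; 0,0,1,0; 0,0,1,0; 0,1,0,0; 0,0,0,1]) (C := !![1,0,1,1,0; 0,1,1,1,0; 0,1,1,1,0; 1,0,1,1,1; 1,1,2,2,2])
    ⟨by decide, by decide⟩
  have e : (!![349526,699051,1048576,349525; 349523,699050,1048577,349526; 349527,699051,1048575,349525] : Matrix (Fin 3) (Fin 4) ℕ) * !![1,0,1,1,0; 1,0,1,1,1; 0,1,1,1,0; 1,1,2,2,2]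
    = !![1398102,1398101,2796203,2796203,1398101; 1398099,1398103,2796202,2796202,1398102; 1398103,1398100,2796203,2796203,1398101] := by decide +kernel
  rwa [e] at h

theorem b3c24 : Chain (!![2,1,1; 1,2,1; 1,1,2] : Matrix (Fin 3) (Fin 3) ℕ) (!![1,0,1,0; 0,1,1,0; 1,1,2,1; 1,1,2,2] : Matrix (Fin 4) (Fin 4) ℕ)
    !![5592406,5592405,11184811,5592405; 5592403,5592407,11184810,5592406; 5592407,5592404,11184811,5592405] := by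
  have h := Chain.step b3c23 (R := !![1,0,1,0; 0,1,1,0; 0,1,1,0; 1,0,1,1; 1,1,2,2])
    (S := !![1,0,0,0,0; 0,1,0,0,0; 0,0,1,1,0; 0,0,0,0,1]) (C := !![1,0,1,0; 0,1,1,0; 1,1,2,1; 1,1,2,2])
    ⟨by decide, by decide⟩
  have e : (!![1398102,1398101,2796203,2796203,1398101; 1398099,1398103,2796202,2796202,1398102; 1398103,1398100,2796203,2796203,1398101] : Matrix (Fin 3) (Fin 5) ℕ) * !![1,0,1,0; 0,1,1,0; 0,1,1,0; 1,0,1,1; 1,1,2,2]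
    = !![5592406,5592405,11184811,5592405; 5592403,5592407,11184810,5592406; 5592407,5592404,11184811,5592405] := by decide +kernel
  rwa [e] at h

theorem b3c25 : Chain (!![2,1,1; 1,2,1; 1,1,2] : Matrix (Fin 3) (Fin 3) ℕ) (!![1,0,0,1,0; 0,1,1,0,0; 1,1,1,1,1; 1,1,1,1,1; 1,1,1,1,2] : Matrix (Fin 5) (Fin 5) ℕ)
    !![22369622,22369621,22369621,22369622,22369621; 22369619,22369623,22369623,22369619,22369622; 22369623,22369620,22369620,22369623,22369621] := by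
  have h := Chain.step b3c24 (R := !![1,0,0,1,0; 0,1,1,0,0; 1,1,1,1,1; 1,1,1,1,2])
    (S := !![1,0,0,0; 0,1,0,0; 0,0,1,0; 0,0,1,0; 0,0,0,1]) (C := !![1,0,0,1,0; 0,1,1,0,0; 1,1,1,1,1; 1,1,1,1,1; 1,1,1,1,2])
    ⟨by decide, by decide⟩
  have e : (!![5592406,5592405,11184811,5592405; 5592403,5592407,11184810,5592406; 5592407,5592404,11184811,5592405] : Matrix (Fin 3) (Fin 4) ℕ) * !![1,0,0,1,0; 0,1,1,0,0; 1,1,1,1,1; 1,1,1,1,2]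
    = !![22369622,22369621,22369621,22369622,22369621; 22369619,22369623,22369623,22369619,22369622; 22369623,22369620,22369620,22369623,22369621] := by decide +kernel
  rwa [e] at h

theorem b3c26 : Chain (!![2,1,1; 1,2,1; 1,1,2] : Matrix (Fin 3) (Fin 3) ℕ) (!![1,1,0,0; 1,1,1,1; 1,1,2,1; 1,1,1,2] : Matrix (Fin 4) (Fin 4) ℕ)
    !![89478486,89478486,89478485,89478485; 89478483,89478483,89478487,89478486; 89478487,89478487,89478484,89478485] := by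
  have h := Chain.step b3c25 (R := !![1,1,0,0; 0,0,1,0; 1,1,1,1; 1,1,1,1; 1,1,1,2])
    (S := !![1,0,0,0,0; 0,0,0,1,0; 0,1,1,0,0; 0,0,0,0,1]) (C := !![1,1,0,0; 1,1,1,1; 1,1,2,1; 1,1,1,2])
    ⟨by decide, by decide⟩
  have e : (!![22369622,22369621,22369621,22369622,22369621; 22369619,22369623,22369623,22369619,22369622; 22369623,22369620,22369620,22369623,22369621] : Matrix (Fin 3) (Fin 5) ℕ) * !![1,1,0,0; 0,0,1,0; 1,1,1,1; 1,1,1,1; 1,1,1,2]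
    = !![89478486,89478486,89478485,89478485; 89478483,89478483,89478487,89478486; 89478487,89478487,89478484,89478485] := by decide +kernel
  rwa [e] at h

theorem b3c27 : Chain (!![2,1,1; 1,2,1; 1,1,2] : Matrix (Fin 3) (Fin 3) ℕ) (!![2,1,1; 1,2,1; 1,1,2] : Matrix (Fin 3) (Fin 3) ℕ)
    !![357913942,357913941,357913941; 357913939,357913943,357913942; 357913943,357913940,357913941] := by
  have h := Chain.step b3c26 (R := !![1,0,0; 1,1,1; 1,2,1; 1,1,2])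
    (S := !![1,1,0,0; 0,0,1,0; 0,0,0,1]) (C := !![2,1,1; 1,2,1; 1,1,2])
    ⟨by decide, by decide⟩
  have e : (!![89478486,89478486,89478485,89478485; 89478483,89478483,89478487,89478486; 89478487,89478487,89478484,89478485] : Matrix (Fin 3) (Fin 4) ℕ) * !![1,0,0; 1,1,1; 1,2,1; 1,1,2]
    = !![357913942,357913941,357913941; 357913939,357913943,357913942; 357913943,357913940,357913941] := by decide +kernel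
  rwa [e] at h

theorem good_V_one : GZ 1 (V3 1 1 2 0) := by
  have hA : IJ 3 1 = !![2,1,1; 1,2,1; 1,1,2] := by decide
  refine ⟨_, 15, by rw [hA]; exact b3c27, ?_⟩
  have h : toZ (!![357913942,357913941,357913941; 357913939,357913943,357913942; 357913943,357913940,357913941] : Matrix (Fin 3) (Fin 3) ℕ) = V3 1 1 2 0 * toZ (IJ 3 1) ^ 15 := by
    decide +kernel
  rw [← zQ_toZ, h, zQ_mul, zQ_pow, zQ_toZ]

end Pool.Agent.DimRep
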