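import Pool.Agent.Lib.MP_5f1e54_an.DR.R3V

/-!
# DR-R3C: size `3`: every unimodular `X` with row and column sums `1` is realised

Column `0` of `X`: `x i = X i 0`, `∑ x = 1`; put `y i = 1 - 3 * x i`; `∑ y = 0`, `y i ≡ 1 (mod 3)`, so `y i ≠ 0`.
`V3 k a b c * X` has column `0`: `x a + k y c`, `x b - k y c`, `x c`, that is `y a - 3 k y c`, `y b + 3 k y c`, `y c`
(`a, b, c` distinct; `x a + x b - 2 x c = 1 - 3 x c = y c`).
* `gcd_y`: a common divisor `g` of the `y i` is a unit: let `X' X = 1` (`mul_eq_one_comm`); row sums `1` give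
  `y i = ∑ j, X i j - 3 X i 0 = X i 1 + X i 2 - 2 X i 0`, hence `g ∣ ∑ i, X' 1 i * (X i 1 + X i 2 - 2 X i 0) = 1`.
* `descend` (strong induction on `μ = min_i |y i|`, or on `|y c|` for some `c`): for every such `X` there is a product `M` of
  matrices `V3 k a b c` (so `Uni M`, `GZ m M`) such that column `0` of `M * X` is a basis vector `e_i`.
  Let `c` be an index with `|y c|` minimal, `a, b` the two others, `g = |y c| ≥ 1`.
  Choose `k` with `|y a - 3 k y c| ≤ 3 g / 2` (division with remainder by `3 g`: `Int.emod` / `Int.bmod`).  After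
  `V3 k a b c` we may assume `|y a| ≤ 3 g / 2`, `y b = - y a - y c`.
  - `|y a| < g`: the minimum decreased;
  - `y a` and `y c` of opposite signs, `g ≤ |y a| ≤ 3g/2`: `|y b| = |y a| - g ≤ g/2 < g`: decreased;
  - same sign, `g < |y a|`: apply `V3 (∓1) a b c` to get `|y b| = 3 g - (g + |y a|) = 2 g - |y a| < g`: decreased;
  - `y a = y c`, `y b = - 2 y c`: `y c` is a common divisor, so `g = 1`, and `y c ≡ 1 (mod 3)` gives `y c = 1`:
    `y = (1, 1, -2)` at `(a, c, b)`: `x a = x c = 0`, `x b = 1`: done.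
* `gen_three`: by `descend` and a transposition `Sw` (`GZ.cancel`), column `0` of `X` is `e_0`.  Then row sums `1`
  give `X i 2 = 1 - X i 0 - X i 1`; with `p = X 0 1`, `q = X 1 1`, `r = X 2 1`, `p + q + r = 1`;
  determinant `q (1 - r) - r (1 - q) = q - r = ± 1` (`X X' = 1`, `Matrix.det_mul`, `Int.isUnit_iff`, `Matrix.det_fin_three`).
  If `q - r = -1` multiply by `Sw 1 2` on the left.  If `q - r = 1`: `X = U3 r 1 2 0`.
-/

open Matrix Finset

namespace Pool.Agent.DimRep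

theorem gcd_y {X : Matrix (Fin 3) (Fin 3) ℤ} (hX : Uni X) {g : ℤ} (h : ∀ i, g ∣ 1 - 3 * X i 0) :
    IsUnit g := by
  obtain ⟨X', h1⟩ := hX.inv
  have h2 : X' * X = 1 := mul_eq_one_comm.mp h1
  have h3 : ∀ i, 1 - 3 * X i 0 = X i 1 + X i 2 - 2 * X i 0 := by
    intro i
    have := hX.row i
    rw [Fin.sum_univ_three] at this
    linarith
  have h4 : ∑ i, X' 1 i * (1 - 3 * X i 0) = 1 := by
    have e0 : ∑ i, X' 1 i * X i 0 = 0 := by
      rw [← Matrix.mul_apply, h2]; simp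
    have e1 : ∑ i, X' 1 i * X i 1 = 1 := by
      rw [← Matrix.mul_apply, h2]; simp
    have e2 : ∑ i, X' 1 i * X i 2 = 0 := by
      rw [← Matrix.mul_apply, h2]; simp
    calc ∑ i, X' 1 i * (1 - 3 * X i 0)
        = ∑ i, X' 1 i * X i 1 + ∑ i, X' 1 i * X i 2 - 2 * ∑ i, X' 1 i * X i 0 := by
          rw [Finset.mul_sum, ← Finset.sum_add_distrib, ← Finset.sum_sub_distrib]
          refine Finset.sum_congr rfl fun i _ => ?_
          rw [h3 i]; ring
      _ = 1 := by rw [e0, e1, e2]; norm_num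
  apply isUnit_of_dvd_one
  rw [← h4]
  exact Finset.dvd_sum fun i _ => Dvd.dvd.mul_left (h i) _

private theorem exists_near (u w : ℤ) (hw : w ≠ 0) : ∃ k : ℤ, 2 * |u - k * w| ≤ |w| := by
  have h1 := Int.emod_nonneg u hw
  have h2 := Int.emod_lt_abs u hw
  have h3 := Int.mul_ediv_add_emod u w
  by_cases h : 2 * (u % w) ≤ |w|
  · refine ⟨u / w, ?_⟩
    have : u - u / w * w = u % w := by linarith
    rw [this, abs_of_nonneg h1]
    exact h
  · push Not at h
    refine ⟨u / w + Int.sign w, ?_⟩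
    have h4 : Int.sign w * w = |w| := by
      rw [Int.sign_mul_self_eq_abs]
    have : u - (u / w + Int.sign w) * w = u % w - |w| := by
      rw [add_mul, h4]; linarith
    rw [this, abs_of_nonpos (by linarith)]
    linarith

private theorem V3_mul_col (k : ℤ) {a b c : Fin 3} (hab : a ≠ b) (hac : a ≠ c) (hbc : b ≠ c)
    {X : Matrix (Fin 3) (Fin 3) ℤ} (hX : Uni X) (i : Fin 3) :
    (V3 k a b c * X) i 0 = X i 0 + k * (dl i a - dl i b) * (1 - 3 * X c 0) := by
  have hs := hX.col 0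
  rw [Fin.sum_univ_three] at hs
  have hs' : X a 0 + X b 0 + X c 0 = 1 := by
    rw [← hs]
    fin_cases a <;> fin_cases b <;> fin_cases c <;> simp at hab hac hbc ⊢ <;> ring
  have h1 : (V3 k a b c * X) i 0 =
      X i 0 + k * (dl i a - dl i b) * (X a 0 + X b 0 - 2 * X c 0) := by
    rw [Matrix.mul_apply]
    have e : ∀ t, V3 k a b c i t * X t 0 = dl i t * X t 0 +
        k * (dl i a - dl i b) * (dl a t * X t 0 + dl b t * X t 0 - 2 * (dl c t * X t 0)) := by
      intro t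
      simp only [V3]
      ring
    rw [Finset.sum_congr rfl fun t _ => e t, Finset.sum_add_distrib, ← Finset.mul_sum,
      Finset.sum_sub_distrib, Finset.sum_add_distrib, ← Finset.mul_sum]
    rw [sum_dl_mul i (fun t => X t 0), sum_dl_mul a (fun t => X t 0), sum_dl_mul b (fun t => X t 0),
      sum_dl_mul c (fun t => X t 0)]
  rw [h1]
  have : X a 0 + X b 0 - 2 * X c 0 = 1 - 3 * X c 0 := by linarith
  rw [this]

private theorem sum_three {a b c : Fin 3} (hab : a ≠ b) (hac : a ≠ c) (hbc : b ≠ c)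
    {X : Matrix (Fin 3) (Fin 3) ℤ} (hX : Uni X) : X a 0 + X b 0 + X c 0 = 1 := by
  have hs := hX.col 0
  rw [Fin.sum_univ_three] at hs
  rw [← hs]
  fin_cases a <;> fin_cases b <;> fin_cases c <;> simp at hab hac hbc ⊢ <;> ring

private theorem others (c : Fin 3) : ∃ a b : Fin 3, a ≠ b ∧ a ≠ c ∧ b ≠ c := by
  revert c
  decide

private theorem cases_three {a b c : Fin 3} (hab : a ≠ b) (hac : a ≠ c) (hbc : b ≠ c) (i : Fin 3) :
    i = a ∨ i = b ∨ i = c := by
  revert a b c i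
  decide

private theorem descend_aux {m : ℕ} (hV : GZ m (V3 1 0 1 2)) (n : ℕ) :
    ∀ (X : Matrix (Fin 3) (Fin 3) ℤ), Uni X → ∀ c : Fin 3, (1 - 3 * X c 0).natAbs = n →
    ∃ M : Matrix (Fin 3) (Fin 3) ℤ, Uni M ∧ GZ m M ∧ ∃ i : Fin 3, ∀ j, (M * X) j 0 = dl i j := by
  induction n using Nat.strong_induction_on with
  | _ n ih =>
  intro X hX c hc
  -- a reduction step
  have step : ∀ (N : Matrix (Fin 3) (Fin 3) ℤ), Uni N → GZ m N → ∀ i : Fin 3,
      |1 - 3 * (N * X) i 0| < |1 - 3 * X c 0| →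
      ∃ M : Matrix (Fin 3) (Fin 3) ℤ, Uni M ∧ GZ m M ∧ ∃ i : Fin 3, ∀ j, (M * X) j 0 = dl i j := by
    intro N hN hNg i hlt
    have h1 : (1 - 3 * (N * X) i 0).natAbs < n := by
      rw [← hc]
      zify
      exact hlt
    obtain ⟨M, hM, hMg, j, hj⟩ := ih _ h1 (N * X) (hN.mul hX) i rfl
    refine ⟨M * N, hM.mul hN, hMg.mul hNg hN, j, fun l => ?_⟩
    rw [Matrix.mul_assoc]
    exact hj l
  obtain ⟨a, b, hab, hac, hbc⟩ := others c
  set C := 1 - 3 * X c 0 with hC
  have hC0 : C ≠ 0 := by omega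
  obtain ⟨k, hk⟩ := exists_near (1 - 3 * X a 0) (3 * C) (by omega)
  have hcol := V3_mul_col k hab hac hbc hX
  have hcol' := V3_mul_col (k + 1) hab hac hbc hX
  have hcolm := V3_mul_col (k - 1) hab hac hbc hX
  have hsum := sum_three hab hac hbc hX
  have ha : (V3 k a b c * X) a 0 = X a 0 + k * C := by
    rw [hcol, dl_self, dl_ne hab]; ring
  have hb : (V3 k a b c * X) b 0 = X b 0 - k * C := by
    rw [hcol, dl_self, dl_ne hab.symm]; ring
  have hcc : (V3 k a b c * X) c 0 = X c 0 := by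
    rw [hcol, dl_ne hac.symm, dl_ne hbc.symm]; ring
  have hb' : (V3 (k + 1) a b c * X) b 0 = X b 0 - (k + 1) * C := by
    rw [hcol', dl_self, dl_ne hab.symm]; ring
  set A := 1 - 3 * X a 0 - k * (3 * C) with hA
  have hB : 1 - 3 * X b 0 + k * (3 * C) = - A - C := by
    rw [hA, hC]
    linarith
  have h3C : |3 * C| = 3 * |C| := by rw [abs_mul]; norm_num
  rw [h3C] at hk
  have hCpos : 0 < |C| := abs_pos.mpr hC0
  by_cases h1 : |A| < |C|
  · refine step (V3 k a b c) (uni_V3 k hab hac hbc) (good_V3 hV k hab hac hbc) a ?_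
    have : 1 - 3 * (V3 k a b c * X) a 0 = A := by rw [ha, hA]; ring
    rw [this]
    exact h1
  push Not at h1
  by_cases h2 : |A + C| < |C|
  · refine step (V3 k a b c) (uni_V3 k hab hac hbc) (good_V3 hV k hab hac hbc) b ?_
    have : 1 - 3 * (V3 k a b c * X) b 0 = - (A + C) := by
      rw [hb]
      linarith
    rw [this, abs_neg]
    exact h2
  by_cases h3 : |2 * C - A| < |C|
  · refine step (V3 (k + 1) a b c) (uni_V3 _ hab hac hbc) (good_V3 hV _ hab hac hbc) b ?_
    have : 1 - 3 * (V3 (k + 1) a b c * X) b 0 = 2 * C - A := by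
      rw [hb']
      linarith
    rw [this]
    exact h3
  -- now `A = C`
  have hAC : A = C := by
    rcases abs_cases A with ⟨e1, _⟩ | ⟨e1, _⟩ <;> rcases abs_cases C with ⟨e2, _⟩ | ⟨e2, _⟩ <;>
    rcases abs_cases (A + C) with ⟨e3, _⟩ | ⟨e3, _⟩ <;>
    rcases abs_cases (2 * C - A) with ⟨e4, _⟩ | ⟨e4, _⟩ <;> omega
  have hY : Uni (V3 k a b c * X) := (uni_V3 k hab hac hbc).mul hX
  have hunit : IsUnit C := by
    apply gcd_y hY
    intro i
    rcases cases_three hab hac hbc i with rfl | rfl | rfl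
    · rw [ha]
      refine ⟨1, ?_⟩
      linarith
    · rw [hb]
      refine ⟨-2, ?_⟩
      linarith
    · rw [hcc]
  have hC1 : C = 1 := by
    rcases Int.isUnit_iff.mp hunit with h | h
    · exact h
    · omega
  refine ⟨V3 k a b c, uni_V3 k hab hac hbc, good_V3 hV k hab hac hbc, b, fun j => ?_⟩
  rcases cases_three hab hac hbc j with rfl | rfl | rfl
  · rw [ha, dl_ne hab.symm]
    rw [hAC] at hA
    nlinarith
  · rw [hb, dl_self]
    rw [hC1] at hB hAC ⊢
    linarith
  · rw [hcc, dl_ne hbc]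
    omega

theorem descend {m : ℕ} (hV : GZ m (V3 1 0 1 2)) (X : Matrix (Fin 3) (Fin 3) ℤ) (hX : Uni X) :
    ∃ M : Matrix (Fin 3) (Fin 3) ℤ, Uni M ∧ GZ m M ∧ ∃ i : Fin 3, ∀ j, (M * X) j 0 = dl i j :=
  descend_aux hV _ X hX 0 rfl

private theorem dl_swap (i j : Fin 3) : dl i (Equiv.swap i 0 j) = dl 0 j := by
  revert i j
  unfold dl
  decide

private theorem gen_last {m : ℕ} (hV : GZ m (V3 1 0 1 2)) (X : Matrix (Fin 3) (Fin 3) ℤ)
    (hX : Uni X) (h : ∀ j, X j 0 = dl 0 j) (hd : X 1 1 - X 2 1 = 1) : GZ m X := by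
  have e : X = U3 (X 2 1) 1 2 0 := by
    have h00 := h 0
    have h10 := h 1
    have h20 := h 2
    have r0 := hX.row 0
    have r1 := hX.row 1
    have r2 := hX.row 2
    have c1 := hX.col 1
    rw [Fin.sum_univ_three] at r0 r1 r2 c1
    simp [dl] at h00 h10 h20
    ext i j
    fin_cases i <;> fin_cases j <;> simp [U3, dl] <;> linarith
  rw [e]
  exact good_U3 hV _ (by decide) (by decide) (by decide)

theorem gen_three {m : ℕ} (hV : GZ m (V3 1 0 1 2)) (X : Matrix (Fin 3) (Fin 3) ℤ) (hX : Uni X) :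
    GZ m X := by
  obtain ⟨M, hM, hMg, i, hi⟩ := descend hV X hX
  apply GZ.cancel hMg hM hX
  set Y := M * X with hYdef
  have hY : Uni Y := hM.mul hX
  apply GZ.cancel (good_Sw m i 0) (uni_Sw i 0) hY
  set Z := Sw i 0 * Y with hZdef
  have hZ : Uni Z := (uni_Sw i 0).mul hY
  have hZ0 : ∀ j, Z j 0 = dl 0 j := by
    intro j
    rw [hZdef, Sw_mul, hi]
    exact dl_swap i j
  have h00 := hZ0 0
  have h10 := hZ0 1
  have h20 := hZ0 2
  have r1 := hZ.row 1
  have r2 := hZ.row 2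
  rw [Fin.sum_univ_three] at r1 r2
  simp [dl] at h00 h10 h20
  have hdet : IsUnit Z.det := by
    obtain ⟨Z', hZ'⟩ := hZ.inv
    have := congrArg Matrix.det hZ'
    rw [Matrix.det_mul, Matrix.det_one] at this
    exact IsUnit.of_mul_eq_one _ this
  have hdet2 : Z.det = Z 1 1 - Z 2 1 := by
    rw [Matrix.det_fin_three, h00, h10, h20]
    have e1 : Z 1 2 = 1 - Z 1 1 := by linarith
    have e2 : Z 2 2 = 1 - Z 2 1 := by linarith
    rw [e1, e2]
    ring
  rw [hdet2, Int.isUnit_iff] at hdet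
  rcases hdet with hd | hd
  · exact gen_last hV Z hZ hZ0 hd
  · apply GZ.cancel (good_Sw m 1 2) (uni_Sw 1 2) hZ
    apply gen_last hV _ ((uni_Sw 1 2).mul hZ)
    · intro j
      rw [Sw_mul, hZ0]
      fin_cases j <;> simp [dl, Equiv.swap_apply_def]
    · rw [Sw_mul, Sw_mul, Equiv.swap_apply_left, Equiv.swap_apply_right]
      linarith

end Pool.Agent.DimRep
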