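import Pool.Agent.Lib.MP_5f1e54_an.DR.Gen1

/-!
# DR-Small: sizes `1` and `2`

`n = 1`: row sum `1` gives `X = 1` (`GZ m 1`: `MK.one` or `Good.one`, `zQ_one`).
`n = 2`: `X = !![x, 1 - x; 1 - x, x]`, `det X = 2 x - 1` is a unit, so `x ∈ {0, 1}`: `X = 1` or `X = Sw 0 1`.
-/

open Matrix Finset

namespace Pool.Agent.DimRep

theorem gen_one (m : ℕ) (X : Matrix (Fin 1) (Fin 1) ℤ) (hX : Uni X) : GZ m X := by
  have h1 : X = 1 := by
    ext i j
    have h := hX.row i
    have hj : j = 0 := Subsingleton.elim _ _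
    have hi : i = 0 := Subsingleton.elim _ _
    subst hj
    subst hi
    simpa using h
  rw [h1]
  exact (MK.one m Finset.univ).good

theorem gen_two (m : ℕ) (X : Matrix (Fin 2) (Fin 2) ℤ) (hX : Uni X) : GZ m X := by
  obtain ⟨X', hX'⟩ := hX.inv
  have r0 := hX.row 0
  have r1 := hX.row 1
  have c0 := hX.col 0
  simp only [Fin.sum_univ_two] at r0 r1 c0
  have hd : X.det * X'.det = 1 := by
    rw [← Matrix.det_mul, hX', Matrix.det_one]
  have hu : IsUnit X.det := IsUnit.of_mul_eq_one _ hd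
  have h2 : X.det = 1 ∨ X.det = -1 := Int.isUnit_iff.mp hu
  rw [Matrix.det_fin_two] at h2
  have h01 : X 0 1 = 1 - X 0 0 := by linarith
  have h10 : X 1 0 = 1 - X 0 0 := by linarith
  have h11 : X 1 1 = X 0 0 := by linarith
  have h3 : X 0 0 * X 1 1 - X 0 1 * X 1 0 = 2 * X 0 0 - 1 := by
    rw [h01, h10, h11]
    ring
  rw [h3] at h2
  rcases h2 with h | h
  · have h00 : X 0 0 = 1 := by omega
    have h1 : X = 1 := by
      ext i j
      fin_cases i <;> fin_cases j <;> simp [h00, h01, h10, h11]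
    rw [h1]
    exact (MK.one m Finset.univ).good
  · have h00 : X 0 0 = 0 := by omega
    have h1 : X = Sw 0 1 := by
      ext i j
      fin_cases i <;> fin_cases j <;> simp [h00, h01, h10, h11, Sw, dl]
    rw [h1]
    exact good_Sw m 0 1

end Pool.Agent.DimRep
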