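import Pool.Agent.Lib.MP_5f1e54_an.DR.Gen4
import Pool.Agent.Lib.MP_5f1e54_an.DR.Aut3
import Pool.Agent.Lib.MP_5f1e54_an.DR.R3A
import Pool.Agent.Lib.MP_5f1e54_an.DR.R3B
import Pool.Agent.Lib.MP_5f1e54_an.DR.R3C
import Pool.Agent.Lib.MP_5f1e54_an.DR.Small

/-!
# The dimension representation of `I + m J` is onto
-/

open Matrix Finset

namespace Pool.Agent.DimRep

theorem good_V_all (m : ℕ) (hm : 1 ≤ m) : GZ m (V3 1 0 1 2) := by
  have h01 : (0 : Fin 3) ≠ 1 := by decide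
  have h02 : (0 : Fin 3) ≠ 2 := by decide
  have h12 : (1 : Fin 3) ≠ 2 := by decide
  rcases Nat.lt_or_ge m 2 with h | h
  · have hm1 : m = 1 := by omega
    subst hm1
    have e : V3 1 0 1 2 = Sw 1 2 * (Sw 0 1 * V3 1 1 2 0 * Sw 0 1) * Sw 1 2 := by decide
    rw [e]
    have g1 : GZ 1 (Sw 0 1 * V3 1 1 2 0 * Sw 0 1) :=
      ((good_Sw 1 0 1).mul good_V_one (uni_V3 1 h12 h01.symm h02.symm)).mul (good_Sw 1 0 1)
        (uni_Sw 0 1)
    have u1 : Uni (Sw 0 1 * V3 1 1 2 0 * Sw 0 1) :=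
      ((uni_Sw 0 1).mul (uni_V3 1 h12 h01.symm h02.symm)).mul (uni_Sw 0 1)
    exact ((good_Sw 1 1 2).mul g1 u1).mul (good_Sw 1 1 2) (uni_Sw 1 2)
  · have h1 := good_V_two m h
    refine h1.inv (uni_V3 (-1) h01 h02 h12) ?_
    rw [V3_mul_V3 _ _ h01 h02 h12, neg_add_cancel, V3_zero]

theorem gz_all (n m : ℕ) (hn : 1 ≤ n) (hm : 1 ≤ m) (X : Matrix (Fin n) (Fin n) ℤ) (hX : Uni X) :
    GZ m X := by
  rcases Nat.lt_or_ge n 4 with h | h
  · interval_cases n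
    · exact gen_one m X hX
    · exact gen_two m X hX
    · exact gen_three (good_V_all m hm) X hX
  · exact gen_four hm h hX

theorem main (n m : ℕ) (hn : 1 ≤ n) (hm : 1 ≤ m) (ψ : Delta (IJ n m) ≃+ Delta (IJ n m))
    (hψ : IsAut (IJ n m) ψ) : InImage (IJ n m) ψ :=
  surj_of_uni hn hm (fun X hX => gz_all n m hn hm X hX) ψ hψ

end Pool.Agent.DimRep
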