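import Pool.Agent.Lib.MP_5f1e54_an.DR.TGood

/-!
# Integral unimodular matrices with row and column sums `1`: basic facts
-/

open Matrix Finset

namespace Pool.Agent.DimRep

variable {n : ℕ}

/-- unimodular, all row and column sums are `1` -/
structure Uni (X : Matrix (Fin n) (Fin n) ℤ) : Prop where
  inv : ∃ X', X * X' = 1
  row : ∀ i, ∑ j, X i j = 1
  col : ∀ j, ∑ i, X i j = 1

/-- realised -/
def GZ (m : ℕ) (X : Matrix (Fin n) (Fin n) ℤ) : Prop := Good (IJ n m) (zQ X)

theorem Uni.comm {X : Matrix (Fin n) (Fin n) ℤ} (h : Uni X) (m : ℕ) :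
    toZ (IJ n m) * X = X * toZ (IJ n m) := by
  ext i j
  rw [Matrix.mul_apply, Matrix.mul_apply]
  simp only [toZ_IJ, add_mul, mul_add, Finset.sum_add_distrib]
  rw [sum_dl_mul, sum_mul_dl, ← Finset.mul_sum, ← Finset.sum_mul, h.col, h.row]
  ring

theorem Uni.one : Uni (1 : Matrix (Fin n) (Fin n) ℤ) where
  inv := ⟨1, by simp⟩
  row i := by simp [Matrix.one_apply]
  col j := by simp [Matrix.one_apply]

theorem Uni.mul {X Y : Matrix (Fin n) (Fin n) ℤ} (hX : Uni X) (hY : Uni Y) : Uni (X * Y) where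
  inv := by
    obtain ⟨X', h1⟩ := hX.inv
    obtain ⟨Y', h2⟩ := hY.inv
    refine ⟨Y' * X', ?_⟩
    calc X * Y * (Y' * X') = X * (Y * Y') * X' := by simp only [Matrix.mul_assoc]
      _ = 1 := by rw [h2, Matrix.mul_one, h1]
  row i := by
    simp only [Matrix.mul_apply]
    rw [Finset.sum_comm]
    simp only [← Finset.mul_sum, hY.row, mul_one, hX.row]
  col j := by
    simp only [Matrix.mul_apply]
    rw [Finset.sum_comm]
    simp only [← Finset.sum_mul, hX.col, one_mul, hY.col]

theorem Uni.inverse {X X' : Matrix (Fin n) (Fin n) ℤ} (hX : Uni X) (h : X * X' = 1) : Uni X' := by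
  have h' : X' * X = 1 := mul_eq_one_comm.mp h
  refine ⟨⟨X, h'⟩, ?_, ?_⟩
  · intro i
    have h1 : ∑ j, (X' * X) i j = ∑ j, X' i j := by
      simp only [Matrix.mul_apply]
      rw [Finset.sum_comm]
      simp only [← Finset.mul_sum, hX.row, mul_one]
    rw [← h1, h']
    simp [Matrix.one_apply]
  · intro j
    have h1 : ∑ i, (X * X') i j = ∑ i, X' i j := by
      simp only [Matrix.mul_apply]
      rw [Finset.sum_comm]
      simp only [← Finset.sum_mul, hX.col, one_mul]
    rw [← h1, h]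
    simp [Matrix.one_apply]

theorem GZ.mul {m : ℕ} {X Y : Matrix (Fin n) (Fin n) ℤ} (hX : GZ m X) (hY : GZ m Y)
    (h : Uni Y) : GZ m (X * Y) := by
  unfold GZ
  rw [zQ_mul]
  exact Good.mul hX hY (zQ_comm (h.comm m))

theorem GZ.inv {m : ℕ} {X X' : Matrix (Fin n) (Fin n) ℤ} (hX : GZ m X) (h : Uni X)
    (h' : X * X' = 1) : GZ m X' := by
  refine Good.inv hX ?_ (zQ_comm (h.comm m))
  rw [← zQ_mul, h', zQ_one]

theorem GZ.cancel {m : ℕ} {M X : Matrix (Fin n) (Fin n) ℤ} (hM : GZ m M) (h : Uni M)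
    (hX : Uni X) (h' : GZ m (M * X)) : GZ m X := by
  obtain ⟨M', h1⟩ := h.inv
  have h2 : M' * M = 1 := mul_eq_one_comm.mp h1
  have h3 : X = M' * (M * X) := by rw [← Matrix.mul_assoc, h2, Matrix.one_mul]
  rw [h3]
  exact (hM.inv h h1).mul h' (h.mul hX)

/-- the group used to clear the columns in `K` -/
structure MK (m : ℕ) (K : Finset (Fin n)) (M : Matrix (Fin n) (Fin n) ℤ) : Prop where
  uni : Uni M
  good : GZ m M
  fix : ∀ j, j ∉ K → ∀ i, M i j = dl i j

theorem MK.one (m : ℕ) (K : Finset (Fin n)) : MK m K 1 where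
  uni := Uni.one
  good := by unfold GZ; rw [zQ_one]; exact Good.one
  fix j _ i := by simp [Matrix.one_apply, dl]

theorem MK.mul {m : ℕ} {K : Finset (Fin n)} {M N : Matrix (Fin n) (Fin n) ℤ} (hM : MK m K M)
    (hN : MK m K N) : MK m K (M * N) where
  uni := hM.uni.mul hN.uni
  good := hM.good.mul hN.good hN.uni
  fix j hj i := by
    rw [Matrix.mul_apply]
    simp only [hN.fix j hj]
    rw [sum_mul_dl j (fun x => M i x), hM.fix j hj]

theorem uni_T {a b c d : Fin n} (hac : a ≠ c) (had : a ≠ d) (hbc : b ≠ c) (hbd : b ≠ d) (k : ℤ) :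
    Uni (T k a b c d) where
  inv := ⟨T (-k) a b c d, by
    rw [T_mul_T _ _ hac had hbc hbd, add_neg_cancel, T_zero]⟩
  row i := by
    simp only [T, Finset.sum_add_distrib, sum_dl_left, ← Finset.mul_sum, Finset.sum_sub_distrib,
      sub_self, mul_zero, add_zero]
  col j := by
    simp only [T, Finset.sum_add_distrib, sum_dl_right, ← Finset.sum_mul, ← Finset.mul_sum,
      Finset.sum_sub_distrib, sub_self, mul_zero, zero_mul, add_zero]

theorem MK.T {m : ℕ} (hm : 1 ≤ m) (hn : 4 ≤ n) {K : Finset (Fin n)} {a b c d : Fin n}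
    (hac : a ≠ c) (had : a ≠ d) (hbc : b ≠ c) (hbd : b ≠ d) (hcd : c ≠ d) (hc : c ∈ K)
    (hd : d ∈ K) (k : ℤ) : MK m K (T k a b c d) where
  uni := uni_T hac had hbc hbd k
  good := good_T m hm hn hac had hbc hbd hcd k
  fix j hj i := by
    have h1 : c ≠ j := fun h => hj (h ▸ hc)
    have h2 : d ≠ j := fun h => hj (h ▸ hd)
    simp only [DimRep.T]
    rw [dl_ne h1, dl_ne h2]
    ring

/-- transposition matrices -/
def Sw (a b : Fin n) : Matrix (Fin n) (Fin n) ℤ := fun i j => dl (Equiv.swap a b i) j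

theorem Sw_mul {ι : Type} (a b : Fin n) (M : Matrix (Fin n) ι ℤ) (i : Fin n) (j : ι) :
    (Sw a b * M) i j = M (Equiv.swap a b i) j := by
  rw [Matrix.mul_apply]
  exact sum_dl_mul _ (fun x => M x j)

/-- transposition matrices over `ℕ` -/
def SwN (a b : Fin n) : Matrix (Fin n) (Fin n) ℕ := fun i j => if Equiv.swap a b i = j then 1 else 0

/-- `Sw A` -/
def SwA (m : ℕ) (a b : Fin n) : Matrix (Fin n) (Fin n) ℕ := fun i j => SwN a b i j + m

theorem sum_swap (a b i : Fin n) (f : Fin n → ℕ) :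
    ∑ x : Fin n, (if Equiv.swap a b i = x then 1 else 0) * f x = f (Equiv.swap a b i) := by
  simp only [ite_mul, one_mul, zero_mul, Finset.sum_ite_eq, Finset.mem_univ, if_true]

theorem swap_twice (a b i : Fin n) : Equiv.swap a b (Equiv.swap a b i) = i :=
  Equiv.swap_apply_self a b i

theorem good_Sw (m : ℕ) (a b : Fin n) : GZ m (Sw a b) := by
  have h : Good (IJ n m) (toQ (SwN a b)) := by
    apply Good.of_factor (Q := SwA m a b)
    · ext i j
      rw [Matrix.mul_apply]
      simp only [SwN, SwA, IJ]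
      rw [sum_swap a b i (fun x => (if Equiv.swap a b x = j then 1 else 0) + m), swap_twice]
    · ext i j
      rw [Matrix.mul_apply]
      simp only [SwN, SwA, IJ, add_mul, Finset.sum_add_distrib]
      have h1 : ∑ x : Fin n, (if Equiv.swap a b i = x then 1 else 0) *
          (if Equiv.swap a b x = j then 1 else 0) = if i = j then 1 else 0 := by
        rw [sum_swap a b i (fun x => (if Equiv.swap a b x = j then 1 else 0)), swap_twice]
      have h2 : ∑ x : Fin n, m * (if Equiv.swap a b x = j then 1 else 0) = m := by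
        rw [← Finset.mul_sum]
        have h3 : ∑ x : Fin n, (if Equiv.swap a b x = j then 1 else 0)
            = ∑ x : Fin n, (if x = j then 1 else 0) :=
          Equiv.sum_comp (Equiv.swap a b) (fun x => if x = j then 1 else 0)
        rw [h3]
        simp
      rw [h1, h2]
  have h1 : zQ (Sw a b) = toQ (SwN a b) := by
    ext i j
    simp only [zQ, Sw, toQ, SwN, dl, Matrix.map_apply]
    split_ifs <;> simp
  unfold GZ
  rw [h1]
  exact h

theorem uni_Sw (a b : Fin n) : Uni (Sw a b) where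
  inv := ⟨Sw a b, by
    ext i j
    rw [Sw_mul]
    simp [Sw, dl, Matrix.one_apply]⟩
  row i := by simp only [Sw, sum_dl_left]
  col j := by
    simp only [Sw]
    rw [Equiv.sum_comp (Equiv.swap a b) (fun x => dl x j), sum_dl_right]

theorem MK.Sw (m : ℕ) {K : Finset (Fin n)} {a b : Fin n} (ha : a ∈ K) (hb : b ∈ K) :
    MK m K (Sw a b) where
  uni := uni_Sw a b
  good := good_Sw m a b
  fix j hj i := by
    have h1 : a ≠ j := fun h => hj (h ▸ ha)
    have h2 : b ≠ j := fun h => hj (h ▸ hb)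
    simp only [DimRep.Sw, dl]
    congr 1
    rw [Equiv.swap_apply_eq_iff, Equiv.swap_apply_of_ne_of_ne h1.symm h2.symm]

end Pool.Agent.DimRep
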