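import Pool.Agent.Lib.MP_5f1e54_an.DR.Gen1

/-!
# Clearing a column
-/

open Matrix Finset

namespace Pool.Agent.DimRep

variable {n : ℕ}

/-- the columns outside `K` are those of the identity matrix -/
def Fx (K : Finset (Fin n)) (X : Matrix (Fin n) (Fin n) ℤ) : Prop := ∀ j, j ∉ K → ∀ i, X i j = dl i j

theorem MK.fx_mul {m : ℕ} {K : Finset (Fin n)} {M X : Matrix (Fin n) (Fin n) ℤ} (hM : MK m K M)
    (hX : Fx K X) : Fx K (M * X) := by
  intro j hj i
  rw [Matrix.mul_apply]
  simp only [hX j hj]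
  rw [sum_mul_dl j (fun x => M i x), hM.fix j hj]

theorem Fx.inverse {K : Finset (Fin n)} {X X' : Matrix (Fin n) (Fin n) ℤ} (hX : Fx K X)
    (h : X * X' = 1) : Fx K X' := by
  have h' : X' * X = 1 := mul_eq_one_comm.mp h
  intro j hj i
  have h1 : (X' * X) i j = X' i j := by
    rw [Matrix.mul_apply]
    simp only [hX j hj]
    exact sum_mul_dl j (fun x => X' i x)
  rw [← h1, h']
  simp [Matrix.one_apply, dl]

/-- the differences in a column (over `K`) have no common divisor -/
theorem gcd_col {K : Finset (Fin n)} {X : Matrix (Fin n) (Fin n) ℤ} (hu : Uni X) (hX : Fx K X)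
    {k k' : Fin n} (hk : k ∈ K) (hk' : k' ∈ K) (hne : k ≠ k') (g : ℤ)
    (hg : ∀ i ∈ K, ∀ j ∈ K, g ∣ X i k - X j k) : IsUnit g := by
  obtain ⟨X', h1⟩ := hu.inv
  have h2 : X' * X = 1 := mul_eq_one_comm.mp h1
  have hX' := hX.inverse h1
  have hu' := hu.inverse h1
  -- for every row `a ∈ K` of `X'`: `(X' X)_{a k} ≡ X k k (mod g)`
  have key : ∀ a ∈ K, g ∣ (X' * X) a k - X k k := by
    intro a ha
    have e1 : (X' * X) a k - X k k = ∑ i, X' a i * (X i k - X k k) := by
      rw [Matrix.mul_apply]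
      simp only [mul_sub, Finset.sum_sub_distrib, ← Finset.sum_mul, hu'.row, one_mul]
    rw [e1]
    apply Finset.dvd_sum
    intro i _
    by_cases hi : i ∈ K
    · exact Dvd.dvd.mul_left (hg i hi k hk) _
    · rw [hX' i hi a]
      have : a ≠ i := fun h => hi (h ▸ ha)
      rw [dl_ne this]
      simp
  have h3 := key k hk
  have h4 := key k' hk'
  rw [h2] at h3 h4
  rw [Matrix.one_apply_eq] at h3
  rw [Matrix.one_apply_ne hne.symm] at h4
  have h5 : g ∣ 1 := by
    have := dvd_sub h3 h4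
    simpa using this
  exact isUnit_of_dvd_one h5

theorem exists_fourth (hn : 4 ≤ n) (a c d : Fin n) : ∃ b : Fin n, b ≠ a ∧ b ≠ c ∧ b ≠ d := by
  have h : ({a, c, d} : Finset (Fin n)).card < Fintype.card (Fin n) := by
    rw [Fintype.card_fin]
    exact lt_of_le_of_lt Finset.card_le_three (by omega)
  obtain ⟨b, hb⟩ : ∃ b, b ∉ ({a, c, d} : Finset (Fin n)) := by
    by_contra hcon
    push Not at hcon
    have : ({a, c, d} : Finset (Fin n)) = Finset.univ := Finset.eq_univ_iff_forall.mpr hcon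
    rw [this, Finset.card_univ] at h
    exact lt_irrefl _ h
  simp only [Finset.mem_insert, Finset.mem_singleton, not_or] at hb
  exact ⟨b, hb.1, hb.2.1, hb.2.2⟩

variable {m : ℕ}

/-- Step 1: a pair of entries with difference one -/
theorem step_one (hm : 1 ≤ m) (hn : 4 ≤ n) {K : Finset (Fin n)} {k k' : Fin n} (hk : k ∈ K)
    (hk' : k' ∈ K) (hne : k ≠ k') (N : ℕ) : ∀ X : Matrix (Fin n) (Fin n) ℤ, Uni X → Fx K X →
    (∃ c ∈ K, ∃ d ∈ K, X d k - X c k ≠ 0 ∧ (X d k - X c k).natAbs ≤ N) →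
    ∃ M, MK m K M ∧ ∃ c ∈ K, ∃ d ∈ K, (M * X) d k = (M * X) c k + 1 := by
  induction N with
  | zero =>
    rintro X _ _ ⟨c, _, d, _, h1, h2⟩
    exact absurd (Int.natAbs_eq_zero.mp (Nat.le_zero.mp h2)) h1
  | succ N ih =>
    rintro X hu hX ⟨c, hc, d, hd, h1, h2⟩
    by_cases hall : ∀ a ∈ K, (X d k - X c k) ∣ (X a k - X c k)
    · have hunit : IsUnit (X d k - X c k) := by
        apply gcd_col hu hX hk hk' hne
        intro i hi j hj
        have := dvd_sub (hall i hi) (hall j hj)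
        have e : X i k - X c k - (X j k - X c k) = X i k - X j k := by ring
        rwa [e] at this
      rcases Int.isUnit_iff.mp hunit with h3 | h3
      · exact ⟨1, MK.one m K, c, hc, d, hd, by rw [Matrix.one_mul]; linarith⟩
      · exact ⟨1, MK.one m K, d, hd, c, hc, by rw [Matrix.one_mul]; linarith⟩
    · push Not at hall
      obtain ⟨a, ha, hdvd⟩ := hall
      have hac : a ≠ c := by
        rintro rfl
        exact hdvd (by simp)
      have had : a ≠ d := by
        rintro rfl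
        exact hdvd dvd_rfl
      have hcd : c ≠ d := by
        rintro rfl
        exact h1 (by simp)
      obtain ⟨b, hba, hbc, hbd⟩ := exists_fourth hn a c d
      set D := X d k - X c k with hD
      set q := (X a k - X c k) / D with hq
      have hM := MK.T (m := m) hm hn had hac hbd hbc hcd.symm hd hc (-q)
      have e1 : (T (-q) a b d c * X) a k = X a k - q * D := by
        rw [T_mul, dl_self, dl_ne hba.symm, ← hD]
        ring
      have e2 : (T (-q) a b d c * X) c k = X c k := by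
        rw [T_mul, dl_ne hac.symm, dl_ne hbc.symm]
        ring
      have e3 : (X a k - X c k) % D = X a k - X c k - q * D := by
        rw [hq, Int.emod_def]
        ring
      have e4 : (X a k - X c k) % D ≠ 0 := fun h => hdvd (Int.dvd_of_emod_eq_zero h)
      have e5 : ((X a k - X c k) % D).natAbs ≤ N := by
        have h5 := Int.emod_nonneg (X a k - X c k) h1
        have h6 := Int.emod_lt_abs (X a k - X c k) h1
        have h7 : ((X a k - X c k) % D).natAbs < D.natAbs := by
          zify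
          rw [abs_of_nonneg h5]
          exact h6
        omega
      obtain ⟨M, hM', c', hc', d', hd', h8⟩ := ih (T (-q) a b d c * X) (hM.uni.mul hu)
        (hM.fx_mul hX) ⟨c, hc, a, ha, by rw [e1, e2]; rw [e3] at e4; intro h; apply e4; linarith,
          by rw [e1, e2]; rw [e3] at e5; convert e5 using 2; ring⟩
      refine ⟨M * T (-q) a b d c, hM'.mul hM, c', hc', d', hd', ?_⟩
      rw [Matrix.mul_assoc]
      exact h8

/-- Step 2: shift the pair to `(0, 1)` -/
theorem step_two (hm : 1 ≤ m) (hn : 4 ≤ n) {K : Finset (Fin n)} (hK : 3 ≤ K.card) {k : Fin n}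
    (N : ℕ) : ∀ X : Matrix (Fin n) (Fin n) ℤ, Uni X → Fx K X →
    (∃ c ∈ K, ∃ d ∈ K, X d k = X c k + 1 ∧ (X c k).natAbs ≤ N) →
    ∃ M, MK m K M ∧ ∃ c ∈ K, ∃ d ∈ K, (M * X) c k = 0 ∧ (M * X) d k = 1 := by
  induction N with
  | zero =>
    rintro X _ _ ⟨c, hc, d, hd, h1, h2⟩
    have h3 : X c k = 0 := Int.natAbs_eq_zero.mp (Nat.le_zero.mp h2)
    exact ⟨1, MK.one m K, c, hc, d, hd, by rw [Matrix.one_mul, h3],
      by rw [Matrix.one_mul, h1, h3, zero_add]⟩
  | succ N ih =>
    rintro X hu hX ⟨c, hc, d, hd, h1, h2⟩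
    have hcd : c ≠ d := by
      rintro rfl
      linarith
    obtain ⟨a, ha, hac, had⟩ : ∃ a ∈ K, a ≠ c ∧ a ≠ d := by
      have h3 : ({c, d} : Finset (Fin n)).card < K.card :=
        lt_of_le_of_lt Finset.card_le_two (by omega)
      obtain ⟨a, ha, hb⟩ := Finset.exists_mem_notMem_of_card_lt_card h3
      simp only [Finset.mem_insert, Finset.mem_singleton, not_or] at hb
      exact ⟨a, ha, hb.1, hb.2⟩
    obtain ⟨b, hba, hbc, hbd⟩ := exists_fourth hn a c d
    by_cases h0 : X c k = 0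
    · exact ⟨1, MK.one m K, c, hc, d, hd, by rw [Matrix.one_mul, h0],
        by rw [Matrix.one_mul, h1, h0, zero_add]⟩
    -- `row a += t (row d - row c)`
    have hM : ∀ t : ℤ, MK m K (T t a b d c) := fun t =>
      MK.T (m := m) hm hn had hac hbd hbc hcd.symm hd hc t
    have e1 : ∀ t : ℤ, (T t a b d c * X) a k = X a k + t := by
      intro t
      rw [T_mul, dl_self, dl_ne hba.symm, h1]
      ring
    have e2 : ∀ t : ℤ, (T t a b d c * X) c k = X c k := by
      intro t
      rw [T_mul, dl_ne hac.symm, dl_ne hbc.symm]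
      ring
    have e3 : ∀ t : ℤ, (T t a b d c * X) d k = X d k := by
      intro t
      rw [T_mul, dl_ne had.symm, dl_ne hbd.symm]
      ring
    rcases lt_or_gt_of_ne h0 with h4 | h4
    · -- negative: new pair `(d, a)`
      set t := X c k + 2 - X a k with ht
      obtain ⟨M, hM', c', hc', d', hd', h8⟩ := ih (T t a b d c * X) ((hM t).uni.mul hu)
        ((hM t).fx_mul hX) ⟨d, hd, a, ha, by rw [e1, e3, h1, ht]; ring, by
          rw [e3, h1]
          omega⟩
      refine ⟨M * T t a b d c, hM'.mul (hM t), c', hc', d', hd', ?_⟩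
      rw [Matrix.mul_assoc]
      exact h8
    · set t := X c k - 1 - X a k with ht
      obtain ⟨M, hM', c', hc', d', hd', h8⟩ := ih (T t a b d c * X) ((hM t).uni.mul hu)
        ((hM t).fx_mul hX) ⟨a, ha, c, hc, by rw [e1, e2, ht]; ring, by
          rw [e1, ht]
          omega⟩
      refine ⟨M * T t a b d c, hM'.mul (hM t), c', hc', d', hd', ?_⟩
      rw [Matrix.mul_assoc]
      exact h8

/-- Step 3: clear the other entries -/
theorem step_three (hm : 1 ≤ m) (hn : 4 ≤ n) {K : Finset (Fin n)} {k : Fin n}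
    {X : Matrix (Fin n) (Fin n) ℤ} (hu : Uni X) {c d : Fin n} (hc : c ∈ K) (hd : d ∈ K)
    (h0 : X c k = 0) (h1 : X d k = 1) :
    ∃ M, MK m K M ∧ ∀ i, (M * X) i k = dl i d := by
  have hcd : c ≠ d := by
    rintro rfl
    rw [h0] at h1
    exact absurd h1 (by norm_num)
  obtain ⟨b, -, hbc, hbd⟩ := exists_fourth hn c c d
  have key : ∀ s : Finset (Fin n), b ∉ s → c ∉ s → d ∉ s →
      ∃ M, MK m K M ∧ (M * X) c k = 0 ∧ (M * X) d k = 1 ∧ ∀ i ∈ s, (M * X) i k = 0 := by
    intro s
    induction s using Finset.induction_on with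
    | empty =>
      intro _ _ _
      exact ⟨1, MK.one m K, by rw [Matrix.one_mul, h0], by rw [Matrix.one_mul, h1], by simp⟩
    | insert a s has ih =>
      intro hb' hc' hd'
      simp only [Finset.mem_insert, not_or] at hb' hc' hd'
      obtain ⟨M, hM, h2, h3, h4⟩ := ih hb'.2 hc'.2 hd'.2
      set t := -(M * X) a k with ht
      have hT : MK m K (T t a b d c) :=
        MK.T (m := m) hm hn (Ne.symm hd'.1) (Ne.symm hc'.1) hbd hbc hcd.symm hd hc t
      refine ⟨T t a b d c * M, hT.mul hM, ?_, ?_, ?_⟩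
      · rw [Matrix.mul_assoc, T_mul, dl_ne hc'.1, dl_ne hbc.symm, h2]
        ring
      · rw [Matrix.mul_assoc, T_mul, dl_ne hd'.1, dl_ne hbd.symm, h3]
        ring
      · intro i hi
        rw [Matrix.mul_assoc, T_mul, h2, h3]
        rcases Finset.mem_insert.mp hi with rfl | hi
        · rw [dl_self, dl_ne (Ne.symm hb'.1), ht]
          ring
        · have e1 : i ≠ a := fun h => has (h ▸ hi)
          have e2 : i ≠ b := fun h => hb'.2 (h ▸ hi)
          rw [dl_ne e1, dl_ne e2, h4 i hi]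
          ring
  obtain ⟨M, hM, h2, h3, h4⟩ := key (Finset.univ \ {b, c, d}) (by simp) (by simp) (by simp)
  refine ⟨M, hM, ?_⟩
  have hsum := (hM.uni.mul hu).col k
  have h5 : ∀ i, i ≠ b → (M * X) i k = dl i d := by
    intro i hib
    by_cases hic : i = c
    · rw [hic, h2, dl_ne hcd]
    by_cases hid : i = d
    · rw [hid, h3, dl_self]
    · rw [h4 i (by simp [hib, hic, hid]), dl_ne hid]
  have h6 : (M * X) b k = 0 := by
    rw [← Finset.add_sum_erase _ _ (Finset.mem_univ b)] at hsum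
    have h7 : ∑ x ∈ Finset.univ.erase b, (M * X) x k = ∑ x ∈ Finset.univ.erase b, dl x d :=
      Finset.sum_congr rfl fun x hx => h5 x (Finset.ne_of_mem_erase hx)
    have h8 : dl b d + ∑ x ∈ Finset.univ.erase b, dl x d = 1 := by
      rw [Finset.add_sum_erase _ (fun x => dl x d) (Finset.mem_univ b), sum_dl_right]
    rw [dl_ne hbd, zero_add] at h8
    rw [h7, h8] at hsum
    linarith
  intro i
  by_cases hib : i = b
  · rw [hib, h6, dl_ne hbd]
  · exact h5 i hib

/-- a column is cleared -/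
theorem clear_col (hm : 1 ≤ m) (hn : 4 ≤ n) {K : Finset (Fin n)} (hK : 3 ≤ K.card) {k : Fin n}
    (hk : k ∈ K) {X : Matrix (Fin n) (Fin n) ℤ} (hu : Uni X) (hX : Fx K X) :
    ∃ M, MK m K M ∧ ∀ i, (M * X) i k = dl i k := by
  obtain ⟨k', hk', hne⟩ : ∃ k' ∈ K, k ≠ k' := by
    have h3 : ({k} : Finset (Fin n)).card < K.card := by
      rw [Finset.card_singleton]
      omega
    obtain ⟨a, ha, hb⟩ := Finset.exists_mem_notMem_of_card_lt_card h3
    simp only [Finset.mem_singleton] at hb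
    exact ⟨a, ha, Ne.symm hb⟩
  -- a nonzero difference
  obtain ⟨c, hc, d, hd, hcd⟩ : ∃ c ∈ K, ∃ d ∈ K, X d k - X c k ≠ 0 := by
    by_contra hcon
    push Not at hcon
    have := gcd_col hu hX hk hk' hne 0 (fun i hi j hj => by rw [hcon j hj i hi])
    exact not_isUnit_zero this
  obtain ⟨M1, hM1, c1, hc1, d1, hd1, h1⟩ := step_one hm hn hk hk' hne _ X hu hX
    ⟨c, hc, d, hd, hcd, le_rfl⟩
  obtain ⟨M2, hM2, c2, hc2, d2, hd2, h2, h3⟩ := step_two hm hn hK _ (M1 * X) (hM1.uni.mul hu)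
    (hM1.fx_mul hX) ⟨c1, hc1, d1, hd1, h1, le_rfl⟩
  obtain ⟨M3, hM3, h4⟩ := step_three hm hn (hM2.uni.mul (hM1.uni.mul hu)) hc2 hd2 h2 h3
  refine ⟨Sw d2 k * (M3 * (M2 * M1)), (MK.Sw m hd2 hk).mul (hM3.mul (hM2.mul hM1)), ?_⟩
  intro i
  have e1 : Sw d2 k * (M3 * (M2 * M1)) * X = Sw d2 k * (M3 * (M2 * (M1 * X))) := by
    simp only [Matrix.mul_assoc]
  rw [e1, Sw_mul, h4]
  unfold dl
  congr 1
  rw [Equiv.swap_apply_eq_iff, Equiv.swap_apply_left]

end Pool.Agent.DimRep
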