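import Pool.Agent.Lib.MP_5f1e54_an.DR.Gen2

/-!
# DR-Gen3: all columns but two are those of the identity

Put `v i = X i a - dl i a`.  Row sums `1` and `hX` give `X i b = dl i b - v i`, so
`X i j = dl i j + v i * (dl a j - dl b j)` (all `i j`), and `∑ v = 0` (column sums).
With `V v : i j ↦ dl i j + v i * (dl a j - dl b j)`:
* `V v * V w = V (v + w)` if `w a = w b`; `V 0 = 1`; `T k i c a b = V (k (e_i - e_c))`.
* (base0) if `v a = v b = 0` and `∑ v = 0`: choose `c ∉ {a, b}`; `v = ∑_{i ∉ {a,b,c}} v i (e_i - e_c)`, and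
  `V v` is the product of the `T (v i) i c a b`: Finset induction with `GZ.mul`, `good_T`.
* (base1) if `v a = v b =: β`, `∑ v = 0`: choose distinct `c, d ∉ {a, b}`;
  `T 1 a c b d * T 1 b c a d * T (-1) a c b d = V z`, `z = e_a + e_b - 2 e_c`;
  hence `GZ m (V (β z))` (`Int.induction_on`; `V (β z)` for negative `β` by `GZ.inv`), and
  `V v = V (β z) * V (v - β z)`.
* invertibility: let `X' ` be the inverse; `X'` also has the identity columns outside `{a,b}` and row sums
  `1` (`Fx.inverse`, `Uni.inverse` with `K = {a, b}`), so `(X' X) a a = 1` and `(X' X) b a = 0` read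
  `X' a a (1 + v a) + (1 - X' a a) v b = 1`, `X' b a (1 + v a) + (1 - X' b a) v b = 0`; subtract:
  `(X' a a - X' b a) (1 + v a - v b) = 1`, so `v a - v b ∈ {0, -2}` (`Int.isUnit_iff`).
* `v a - v b = 0`: (base1).  `v a - v b = -2`: `Sw a b * X` is again of the form considered, with the
  difference `0` (its rows `a`, `b` are interchanged), and `GZ.cancel (good_Sw m a b) (uni_Sw a b)`.
-/

open Matrix Finset

namespace Pool.Agent.DimRep

variable {n m : ℕ}

/-- the matrix `1 + v ⊗ (u_a - u_b)` -/
private def VV (a b : Fin n) (v : Fin n → ℤ) : Matrix (Fin n) (Fin n) ℤ :=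
  fun i j => dl i j + v i * (dl a j - dl b j)

private theorem VV_zero (a b : Fin n) : VV a b (fun _ => 0) = 1 := by
  ext i j
  simp [VV, dl, Matrix.one_apply]

private theorem VV_mul (a b : Fin n) (v w : Fin n → ℤ) :
    VV a b v * VV a b w = VV a b (fun i => w i + v i * (1 + w a - w b)) := by
  ext i j
  rw [Matrix.mul_apply]
  have e : ∀ x, VV a b v i x * VV a b w x j
      = dl i x * VV a b w x j + v i * (dl a x * VV a b w x j) - v i * (dl b x * VV a b w x j) := by
    intro x
    simp only [VV]
    ring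
  simp only [e, Finset.sum_add_distrib, Finset.sum_sub_distrib, ← Finset.mul_sum]
  rw [sum_dl_mul i (fun x => VV a b w x j), sum_dl_mul a (fun x => VV a b w x j),
    sum_dl_mul b (fun x => VV a b w x j)]
  simp only [VV]
  ring

private theorem VV_mul' (a b : Fin n) (v w : Fin n → ℤ) (h : w a = w b) :
    VV a b v * VV a b w = VV a b (fun i => v i + w i) := by
  rw [VV_mul]
  congr 1
  funext i
  rw [h]
  ring

private theorem VV_inj {a b : Fin n} (hab : a ≠ b) {v w : Fin n → ℤ} (h : VV a b v = VV a b w) :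
    v = w := by
  funext i
  have h1 := congrFun (congrFun h i) a
  simp only [VV, dl_self, dl_ne hab.symm] at h1
  linarith

private theorem VV_uni {a b : Fin n} {v : Fin n → ℤ} (h : v a = v b) (hs : ∑ i, v i = 0) :
    Uni (VV a b v) where
  inv := ⟨VV a b (fun i => - v i), by
    rw [VV_mul' _ _ _ _ (by simp [h])]
    simpa using VV_zero a b⟩
  row i := by
    simp only [VV, Finset.sum_add_distrib, sum_dl_left, ← Finset.mul_sum, Finset.sum_sub_distrib,
      sub_self, mul_zero, add_zero]
  col j := by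
    simp only [VV, Finset.sum_add_distrib, sum_dl_right, ← Finset.sum_mul, hs, zero_mul, add_zero]

private theorem VV_of_fx {a b : Fin n} (hab : a ≠ b) {X : Matrix (Fin n) (Fin n) ℤ}
    (hrow : ∀ i, ∑ j, X i j = 1) (hX : Fx {a, b} X) : X = VV a b (fun i => X i a - dl i a) := by
  ext i j
  simp only [VV]
  by_cases hja : j = a
  · subst hja
    rw [dl_self, dl_ne hab.symm]
    ring
  by_cases hjb : j = b
  · subst hjb
    rw [dl_self, dl_ne hab]
    have h1 := hrow i
    have h2 : ∑ x, dl i x = 1 := sum_dl_left i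
    have ha : a ∈ (Finset.univ : Finset (Fin n)) := Finset.mem_univ a
    have hj : j ∈ (Finset.univ : Finset (Fin n)).erase a :=
      Finset.mem_erase.mpr ⟨hja, Finset.mem_univ _⟩
    rw [← Finset.add_sum_erase _ _ ha, ← Finset.add_sum_erase _ _ hj] at h1 h2
    have h3 : ∑ x ∈ (Finset.univ.erase a).erase j, X i x
        = ∑ x ∈ (Finset.univ.erase a).erase j, dl i x := by
      refine Finset.sum_congr rfl fun x hx => hX x ?_ i
      have h4 := Finset.ne_of_mem_erase hx
      have h5 := Finset.ne_of_mem_erase (Finset.mem_of_mem_erase hx)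
      simp only [Finset.mem_insert, Finset.mem_singleton, not_or]
      exact ⟨h5, h4⟩
    rw [h3] at h1
    linarith
  · rw [hX j (by simp [hja, hjb]) i, dl_ne (Ne.symm hja), dl_ne (Ne.symm hjb)]
    ring

private theorem VV_base0 (hm : 1 ≤ m) (hn : 4 ≤ n) {a b : Fin n} (hab : a ≠ b) {v : Fin n → ℤ}
    (ha : v a = 0) (hb : v b = 0) (hs : ∑ i, v i = 0) : GZ m (VV a b v) := by
  obtain ⟨c, hca, hcb, -⟩ := exists_fourth hn a b b
  have key : ∀ s : Finset (Fin n), a ∉ s → b ∉ s →
      GZ m (VV a b (fun x => ∑ i ∈ s, v i * (dl x i - dl x c))) := by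
    intro s
    induction s using Finset.induction_on with
    | empty =>
      intro _ _
      have h0 := VV_zero (n := n) a b
      simp only [Finset.sum_empty]
      rw [h0]
      unfold GZ
      rw [zQ_one]
      exact Good.one
    | insert i s his ih =>
      intro h1 h2
      simp only [Finset.mem_insert, not_or] at h1 h2
      have h3 := ih h1.2 h2.2
      have hT : T (v i) i c a b = VV a b (fun x => v i * (dl x i - dl x c)) := by
        ext x y
        simp only [T, VV]
      have e : VV a b (fun x => ∑ y ∈ insert i s, v y * (dl x y - dl x c))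
          = VV a b (fun x => ∑ y ∈ s, v y * (dl x y - dl x c)) * T (v i) i c a b := by
        rw [hT, VV_mul' _ _ _ _ (by
          rw [dl_ne h1.1, dl_ne h2.1, dl_ne hca.symm, dl_ne hcb.symm])]
        congr 1
        funext x
        rw [Finset.sum_insert his]
        ring
      rw [e]
      exact h3.mul (good_T m hm hn (Ne.symm h1.1) (Ne.symm h2.1) hca hcb hab (v i))
        (uni_T (Ne.symm h1.1) (Ne.symm h2.1) hca hcb (v i))
  have h1 := key (Finset.univ \ {a, b}) (by simp) (by simp)
  have h2 : (fun x => ∑ i ∈ Finset.univ \ {a, b}, v i * (dl x i - dl x c)) = v := by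
    funext x
    have hsum : ∀ f : Fin n → ℤ, f a = 0 → f b = 0 →
        ∑ i ∈ (Finset.univ \ {a, b} : Finset (Fin n)), f i = ∑ i, f i := by
      intro f fa fb
      rw [← Finset.sum_sdiff (Finset.subset_univ ({a, b} : Finset (Fin n))),
        Finset.sum_pair hab, fa, fb]
      ring
    rw [hsum _ (by rw [ha]; ring) (by rw [hb]; ring)]
    simp only [mul_sub, Finset.sum_sub_distrib]
    rw [← Finset.sum_mul, hs]
    have h3 : ∑ i, v i * dl x i = v x := sum_mul_dl' x v
    rw [h3]
    ring
  rw [h2] at h1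
  exact h1

private theorem VV_base1 (hm : 1 ≤ m) (hn : 4 ≤ n) {a b : Fin n} (hab : a ≠ b) {v : Fin n → ℤ}
    (h : v a = v b) (hs : ∑ i, v i = 0) : GZ m (VV a b v) := by
  obtain ⟨c, hca, hcb, -⟩ := exists_fourth hn a b b
  obtain ⟨d, hda, hdb, hdc⟩ := exists_fourth hn a b c
  set z : Fin n → ℤ := fun x => dl x a + dl x b - 2 * dl x c with hz
  have hza : z a = 1 := by
    simp only [hz, dl_self, dl_ne hab, dl_ne hca.symm]
    norm_num
  have hzb : z b = 1 := by
    simp only [hz, dl_self, dl_ne hab.symm, dl_ne hcb.symm]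
    norm_num
  have hzs : ∑ x, z x = 0 := by
    simp only [hz, Finset.sum_add_distrib, Finset.sum_sub_distrib, ← Finset.mul_sum, sum_dl_right]
    norm_num
  have hprod : T 1 a c b d * T 1 b c a d * T (-1) a c b d = VV a b z := by
    ext i j
    rw [mul_T]
    simp only [mul_T]
    simp only [T, VV, hz]
    simp only [dl_self, dl_ne hab.symm, dl_ne hca.symm, dl_ne hcb.symm, dl_ne hda, dl_ne hdb,
      dl_ne hdc]
    ring
  have hzu : Uni (VV a b z) := VV_uni (by rw [hza, hzb]) hzs
  have hzg : GZ m (VV a b z) := by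
    rw [← hprod]
    have u2 := uni_T (n := n) hab.symm hdb.symm hca hdc.symm 1
    have u3 := uni_T (n := n) hab hda.symm hcb hdc.symm (-1)
    have g1 : GZ m (T 1 a c b d) := good_T m hm hn hab hda.symm hcb hdc.symm hdb.symm 1
    have g2 : GZ m (T 1 b c a d) := good_T m hm hn hab.symm hdb.symm hca hdc.symm hda.symm 1
    have g3 : GZ m (T (-1) a c b d) := good_T m hm hn hab hda.symm hcb hdc.symm hdb.symm (-1)
    exact (g1.mul g2 u2).mul g3 u3
  have hnz : VV a b z * VV a b (fun x => - z x) = 1 := by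
    rw [VV_mul' _ _ _ _ (by rw [hza, hzb])]
    simpa using VV_zero a b
  have hzg' : GZ m (VV a b (fun x => - z x)) := hzg.inv hzu hnz
  have hall : ∀ β : ℤ, GZ m (VV a b (fun x => β * z x)) := by
    intro β
    induction β using Int.induction_on with
    | zero =>
      have h0 := VV_zero (n := n) a b
      simp only [zero_mul]
      rw [h0]
      unfold GZ
      rw [zQ_one]
      exact Good.one
    | succ i ih =>
      have e : VV a b (fun x => ((i : ℤ) + 1) * z x)
          = VV a b (fun x => (i : ℤ) * z x) * VV a b z := by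
        rw [VV_mul' _ _ _ _ (by rw [hza, hzb])]
        congr 1
        funext x
        ring
      rw [e]
      exact ih.mul hzg hzu
    | pred i ih =>
      have e : VV a b (fun x => (-(i : ℤ) - 1) * z x)
          = VV a b (fun x => -(i : ℤ) * z x) * VV a b (fun x => - z x) := by
        rw [VV_mul' _ _ _ _ (by rw [hza, hzb])]
        congr 1
        funext x
        ring
      rw [e]
      exact ih.mul hzg' (hzu.inverse hnz)
  have hw0 : GZ m (VV a b (fun x => v x - v a * z x)) := by
    apply VV_base0 hm hn hab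
    · rw [hza]; ring
    · rw [hzb, h]; ring
    · rw [Finset.sum_sub_distrib, ← Finset.mul_sum, hs, hzs]; ring
  have e : VV a b v = VV a b (fun x => v a * z x) * VV a b (fun x => v x - v a * z x) := by
    rw [VV_mul' _ _ _ _ (by rw [hza, hzb, h])]
    congr 1
    funext x
    ring
  rw [e]
  refine (hall (v a)).mul hw0 (VV_uni (by rw [hza, hzb, h]) ?_)
  rw [Finset.sum_sub_distrib, ← Finset.mul_sum, hs, hzs]
  ring

private theorem VV_fx_eq (hm : 1 ≤ m) (hn : 4 ≤ n) {a b : Fin n} (hab : a ≠ b)
    {X : Matrix (Fin n) (Fin n) ℤ} (hu : Uni X) (hX : Fx {a, b} X) (h : X a a - 1 = X b a) :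
    GZ m X := by
  rw [VV_of_fx hab hu.row hX]
  apply VV_base1 hm hn hab
  · rw [dl_self, dl_ne hab.symm]
    linarith
  · rw [Finset.sum_sub_distrib, hu.col, sum_dl_right]
    ring

theorem base_two (hm : 1 ≤ m) (hn : 4 ≤ n) {a b : Fin n} (hab : a ≠ b)
    {X : Matrix (Fin n) (Fin n) ℤ} (hu : Uni X) (hX : Fx {a, b} X) : GZ m X := by
  obtain ⟨X', h1⟩ := hu.inv
  have h2 : X' * X = 1 := mul_eq_one_comm.mp h1
  have hu' := hu.inverse h1
  have hX' := hX.inverse h1
  have e1 := VV_of_fx hab hu.row hX
  have e2 := VV_of_fx hab hu'.row hX'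
  set v : Fin n → ℤ := fun i => X i a - dl i a with hv
  set w : Fin n → ℤ := fun i => X' i a - dl i a with hw
  have h3 : VV a b (fun i => v i + w i * (1 + v a - v b)) = VV a b (fun _ => 0) := by
    rw [VV_zero, ← VV_mul, ← e1, ← e2, h2]
  have h4 := VV_inj hab h3
  have h5 : v a + w a * (1 + v a - v b) = 0 := congrFun h4 a
  have h6 : v b + w b * (1 + v a - v b) = 0 := congrFun h4 b
  have h7 : (1 + v a - v b) * (1 + w a - w b) = 1 := by linear_combination h5 - h6
  have hva : v a = X a a - 1 := by simp only [hv, dl_self]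
  have hvb : v b = X b a := by simp only [hv, dl_ne hab.symm, sub_zero]
  rcases Int.isUnit_iff.mp (IsUnit.of_mul_eq_one _ h7) with h8 | h8
  · exact VV_fx_eq hm hn hab hu hX (by rw [← hva, ← hvb]; linarith)
  · have ha : a ∈ ({a, b} : Finset (Fin n)) := by simp
    have hb : b ∈ ({a, b} : Finset (Fin n)) := by simp
    have hM := MK.Sw m ha hb
    refine GZ.cancel (good_Sw m a b) (uni_Sw a b) hu ?_
    refine VV_fx_eq hm hn hab ((uni_Sw a b).mul hu) (hM.fx_mul hX) ?_
    rw [Sw_mul, Sw_mul, Equiv.swap_apply_left, Equiv.swap_apply_right, ← hvb]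
    linarith

end Pool.Agent.DimRep
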