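import Pool.Agent.Lib.MP_5f1e54_an.DR.Gen3

/-!
# DR-Gen4: every integral unimodular matrix with row and column sums `1` is realised (`n ≥ 4`)
-/

open Matrix Finset

namespace Pool.Agent.DimRep

variable {n m : ℕ}

theorem gen_aux (hm : 1 ≤ m) (hn : 4 ≤ n) (N : ℕ) : ∀ (K : Finset (Fin n)), K.card ≤ N →
    ∀ X : Matrix (Fin n) (Fin n) ℤ, Uni X → Fx K X → GZ m X := by
  induction N with
  | zero =>
    intro K hK X hu hX
    have hK' : K = ∅ := Finset.card_eq_zero.mp (Nat.le_zero.mp hK)
    have h1 : X = 1 := by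
      ext i j
      rw [hX j (by simp [hK']) i]
      simp [dl, Matrix.one_apply]
    rw [h1]
    exact (MK.one m K).good
  | succ N ih =>
    intro K hK X hu hX
    by_cases h3 : 3 ≤ K.card
    · obtain ⟨k, hk⟩ : K.Nonempty := Finset.card_pos.mp (by omega)
      obtain ⟨M, hM, h4⟩ := clear_col hm hn h3 hk hu hX
      have h5 : GZ m (M * X) := by
        apply ih (K.erase k) (by rw [Finset.card_erase_of_mem hk]; omega) _ (hM.uni.mul hu)
        intro j hj i
        by_cases hjk : j = k
        · rw [hjk]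
          exact h4 i
        · apply hM.fx_mul hX j
          intro h
          exact hj (Finset.mem_erase.mpr ⟨hjk, h⟩)
      exact hM.good.cancel hM.uni hu h5
    · -- at most two columns
      obtain ⟨a, b, hab, hKab⟩ : ∃ a b : Fin n, a ≠ b ∧ K ⊆ {a, b} := by
        rcases Nat.lt_or_ge K.card 1 with h | h
        · have hK' : K = ∅ := Finset.card_eq_zero.mp (by omega)
          exact ⟨⟨0, by omega⟩, ⟨1, by omega⟩, by simp [Fin.ext_iff], by simp [hK']⟩
        · rcases Nat.lt_or_ge K.card 2 with h' | h'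
          · obtain ⟨a, ha⟩ := Finset.card_eq_one.mp (show K.card = 1 by omega)
            obtain ⟨b, hb, -, -⟩ := exists_fourth hn a a a
            exact ⟨a, b, hb.symm, by rw [ha]; simp⟩
          · obtain ⟨a, b, hab, hK'⟩ := Finset.card_eq_two.mp (show K.card = 2 by omega)
            exact ⟨a, b, hab, by rw [hK']⟩
      exact base_two hm hn hab hu (fun j hj i => hX j (fun h => hj (hKab h)) i)

theorem gen_four (hm : 1 ≤ m) (hn : 4 ≤ n) {X : Matrix (Fin n) (Fin n) ℤ} (hu : Uni X) : GZ m X :=
  gen_aux hm hn _ Finset.univ le_rfl X hu (fun j hj => absurd (Finset.mem_univ j) hj)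

end Pool.Agent.DimRep
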