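import Pool.Agent.Lib.MP_5f1e54_an.DR.Chain

/-!
# The group of matrices realised by closed chains; objects `(F, P)` with `F P = A`, `P F ≥ 0`
-/

open Matrix

namespace Pool.Agent.DimRep

variable {n : ℕ} {A : Matrix (Fin n) (Fin n) ℕ}

/-- `X` is realised: some closed chain has product `X A^k` -/
def Good (A : Matrix (Fin n) (Fin n) ℕ) (X : Matrix (Fin n) (Fin n) ℚ) : Prop :=
  ∃ (Y : Matrix (Fin n) (Fin n) ℕ) (k : ℕ), Chain A A Y ∧ toQ Y = X * toQ A ^ k

theorem toQ_mul {a b c : ℕ} (M : Matrix (Fin a) (Fin b) ℕ) (N : Matrix (Fin b) (Fin c) ℕ) :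
    toQ (M * N) = toQ M * toQ N := by
  ext i j
  simp [toQ, Matrix.mul_apply]

theorem toQ_pow (M : Matrix (Fin n) (Fin n) ℕ) (k : ℕ) : toQ (M ^ k) = toQ M ^ k := by
  induction k with
  | zero => ext i j; simp only [toQ, pow_zero, Matrix.map_apply, Matrix.one_apply]; split_ifs <;> simp
  | succ k ih => rw [pow_succ, pow_succ, toQ_mul, ih]

theorem Good.mul {X Y : Matrix (Fin n) (Fin n) ℚ} (hX : Good A X) (hY : Good A Y)
    (hc : toQ A * Y = Y * toQ A) : Good A (X * Y) := by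
  obtain ⟨U, k, h1, h2⟩ := hX
  obtain ⟨V, l, h3, h4⟩ := hY
  refine ⟨U * V, k + l, h1.trans h3, ?_⟩
  have h5 : toQ A ^ k * Y = Y * toQ A ^ k := (Commute.pow_left hc k)
  rw [toQ_mul, h2, h4, pow_add]
  calc X * toQ A ^ k * (Y * toQ A ^ l) = X * (toQ A ^ k * Y) * toQ A ^ l := by
        simp only [Matrix.mul_assoc]
    _ = X * Y * (toQ A ^ k * toQ A ^ l) := by rw [h5]; simp only [Matrix.mul_assoc]

theorem Good.inv {X X' : Matrix (Fin n) (Fin n) ℚ} (hX : Good A X) (h : X * X' = 1)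
    (hc : toQ A * X = X * toQ A) : Good A X' := by
  obtain ⟨U, k, h1, h2⟩ := hX
  obtain ⟨V, j, h3, h4, h5⟩ := h1.inv
  refine ⟨V * A ^ k, j, h3.trans (Chain.pow k), ?_⟩
  have h' : X' * X = 1 := mul_eq_one_comm.mp h
  have h6 : toQ V * toQ U = toQ A ^ j := by rw [← toQ_mul, h5, toQ_pow]
  rw [h2] at h6
  have h7 : X * toQ A ^ k = toQ A ^ k * X := (Commute.pow_left hc k).symm
  have hc' : toQ A * X' = X' * toQ A := by
    calc toQ A * X' = X' * X * (toQ A * X') := by rw [h', Matrix.one_mul]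
      _ = X' * (toQ A * X) * X' := by rw [hc]; simp only [Matrix.mul_assoc]
      _ = X' * toQ A := by rw [Matrix.mul_assoc X', Matrix.mul_assoc (toQ A), h, Matrix.mul_one]
  have h8 : toQ A ^ j * X' = X' * toQ A ^ j := Commute.pow_left hc' j
  rw [toQ_mul, toQ_pow, ← h8, ← h6, h7]
  simp only [Matrix.mul_assoc]
  rw [h, Matrix.mul_one]

theorem Good.one : Good A 1 := ⟨1, 0, Chain.refl, by
  ext i j; simp only [toQ, pow_zero, Matrix.map_apply, Matrix.one_apply, Matrix.mul_one]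
  split_ifs <;> simp⟩

theorem Good.self : Good A (toQ A) := ⟨A, 0, Chain.self, by simp⟩

/-- a matrix with `P Q = Q P = A` -/
theorem Good.of_factor {P Q : Matrix (Fin n) (Fin n) ℕ} (h1 : P * Q = A) (h2 : Q * P = A) :
    Good A (toQ P) :=
  ⟨P, 0, Chain.single ⟨h1.symm, h2.symm⟩, by simp⟩

/-- integral matrix, as a rational one -/
def zQ (X : Matrix (Fin n) (Fin n) ℤ) : Matrix (Fin n) (Fin n) ℚ := X.map (fun x : ℤ => (x : ℚ))

theorem zQ_mul (X Y : Matrix (Fin n) (Fin n) ℤ) : zQ (X * Y) = zQ X * zQ Y := by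
  ext i j
  simp [zQ, Matrix.mul_apply]

theorem zQ_one : zQ (1 : Matrix (Fin n) (Fin n) ℤ) = 1 := by
  ext i j
  simp only [zQ, Matrix.map_apply, Matrix.one_apply]
  split_ifs <;> simp

theorem zQ_toZ (M : Matrix (Fin n) (Fin n) ℕ) : zQ (toZ M) = toQ M := by
  ext i j
  simp [zQ, toZ, toQ]

theorem zQ_pow (X : Matrix (Fin n) (Fin n) ℤ) (k : ℕ) : zQ (X ^ k) = zQ X ^ k := by
  induction k with
  | zero => rw [pow_zero, pow_zero, zQ_one]
  | succ k ih => rw [pow_succ, pow_succ, zQ_mul, ih]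

theorem zQ_injective {X Y : Matrix (Fin n) (Fin n) ℤ} (h : zQ X = zQ Y) : X = Y := by
  ext i j
  have := congrFun (congrFun h i) j
  simpa [zQ] using this

/-! ### objects -/

/-- A factorisation `F P = A` over `ℤ`, with `P F ≥ 0` reached by a chain from `A` whose product is
inverse to `P` up to a power of `A` -/
def Obj (A : Matrix (Fin n) (Fin n) ℕ) {κ : Type} [Fintype κ] [DecidableEq κ]
    (F : Matrix (Fin n) κ ℤ) (P : Matrix κ (Fin n) ℤ) : Prop :=
  F * P = toZ A ∧ ∃ (W : Matrix (Fin n) κ ℤ) (k : ℕ), Rch A (P * F) W ∧ W * P = toZ A ^ k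

variable {κ μ : Type} [Fintype κ] [DecidableEq κ] [Fintype μ] [DecidableEq μ]

theorem Obj.start : Obj A (toZ A) 1 := by
  refine ⟨Matrix.mul_one _, 1, 0, ?_, by simp⟩
  rw [Matrix.one_mul]
  exact Rch.refl

theorem Obj.fwd {F : Matrix (Fin n) κ ℤ} {P : Matrix κ (Fin n) ℤ} (R : Matrix κ μ ℤ)
    (P' : Matrix μ (Fin n) ℤ) (h : Obj A F P) (hP : P = R * P') (hR : Nn R) (hS : Nn (P' * F)) :
    Obj A (F * R) P' := by
  obtain ⟨h1, W, k, h2, h3⟩ := h
  refine ⟨by rw [Matrix.mul_assoc, ← hP, h1], W * R, k, ?_, by rw [Matrix.mul_assoc, ← hP, h3]⟩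
  have h4 := h2.step hR hS (by rw [hP, Matrix.mul_assoc])
  rwa [Matrix.mul_assoc] at h4

theorem Obj.bwd {F : Matrix (Fin n) κ ℤ} {P : Matrix κ (Fin n) ℤ} (R : Matrix μ κ ℤ)
    (F' : Matrix (Fin n) μ ℤ) (h : Obj A F P) (hF : F = F' * R) (hR : Nn R) (hS : Nn (P * F')) :
    Obj A F' (R * P) := by
  obtain ⟨h1, W, k, h2, h3⟩ := h
  refine ⟨by rw [← Matrix.mul_assoc, ← hF, h1], W * (P * F'), k + 1, ?_, ?_⟩
  · have h4 := h2.step hS hR (by rw [hF, Matrix.mul_assoc])
    rwa [← Matrix.mul_assoc] at h4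
  · calc W * (P * F') * (R * P) = W * P * (F' * R * P) := by simp only [Matrix.mul_assoc]
      _ = toZ A ^ (k + 1) := by rw [← hF, h1, h3, pow_succ]

/-- `F = 1`, `P = A` -/
theorem Obj.start' : Obj A 1 (toZ A) := by
  have h := Obj.bwd (toZ A) 1 (Obj.start (A := A)) (Matrix.one_mul _).symm
    (fun i j => by simp [toZ]) (fun i j => by
      rw [Matrix.one_mul, Matrix.one_apply]
      split_ifs <;> simp)
  rwa [Matrix.mul_one] at h

/-- closing a loop -/
theorem Obj.close {F F' : Matrix (Fin n) κ ℤ} {P P' : Matrix κ (Fin n) ℤ} (h : Obj A F P)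
    (h' : Obj A F' P') (hB : P * F = P' * F') {X X' : Matrix (Fin n) (Fin n) ℤ}
    (hP : P = P' * X) (hX : X * X' = 1) (hc : toZ A * X = X * toZ A) : Good A (zQ X') := by
  obtain ⟨h1, W, k, h2, h3⟩ := h
  obtain ⟨h1', W', k', h2', h3'⟩ := h'
  rw [hB] at h2
  obtain ⟨U, Y, j, h4, h5, h6⟩ := h2.close h2'
  have hX' : X' * X = 1 := mul_eq_one_comm.mp hX
  have hc' : toZ A * X' = X' * toZ A := by
    calc toZ A * X' = X' * X * (toZ A * X') := by rw [hX', Matrix.one_mul]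
      _ = X' * (toZ A * X) * X' := by rw [hc]; simp only [Matrix.mul_assoc]
      _ = X' * toZ A := by rw [Matrix.mul_assoc X', Matrix.mul_assoc (toZ A), hX, Matrix.mul_one]
  refine ⟨Y * A ^ k', k + j, h4.trans (Chain.pow k'), ?_⟩
  have h7 : ∀ j : ℕ, (P' * F') ^ j * P' = P' * toZ A ^ j := by
    intro j
    induction j with
    | zero => simp
    | succ j ih =>
      rw [pow_succ', Matrix.mul_assoc, ih, ← Matrix.mul_assoc, Matrix.mul_assoc P', h1',
        Matrix.mul_assoc, ← pow_succ']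
  have h8 : toZ (Y * A ^ k') = X' * toZ A ^ (k + j) := by
    have e1 : toZ (Y * A ^ k') = toZ Y * toZ A ^ k' := by
      have := map_cast_mul Y (A ^ k')
      rw [map_cast_pow] at this
      exact this
    have e2 : W * P' = toZ A ^ k * X' := by
      calc W * P' = W * (P' * X) * X' := by
            rw [Matrix.mul_assoc W, Matrix.mul_assoc P', hX, Matrix.mul_one]
        _ = toZ A ^ k * X' := by rw [← hP, h3]
    calc toZ (Y * A ^ k') = W * U * (W' * P') := by rw [e1, h5, h3']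
      _ = W * (U * W') * P' := by simp only [Matrix.mul_assoc]
      _ = W * (P' * toZ A ^ j) := by rw [h6, Matrix.mul_assoc, h7]
      _ = toZ A ^ k * X' * toZ A ^ j := by rw [← Matrix.mul_assoc, e2]
      _ = X' * toZ A ^ k * toZ A ^ j := by rw [(Commute.pow_left hc' k : _ = _)]
      _ = X' * toZ A ^ (k + j) := by rw [Matrix.mul_assoc, ← pow_add]
  rw [← zQ_toZ, h8, zQ_mul, zQ_pow, zQ_toZ]

end Pool.Agent.DimRep
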