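import Pool.Agent.Lib.MP_5f1e54_an.DR.Gen1

/-!
# DR-R3V: the elementary matrices of size `3`

`V3 k a b c = 1 + k (e_a - e_b) ⊗ (u_a + u_b - 2 u_c)`, `U3 k a b c = 1 + k (e_a + e_b - 2 e_c) ⊗ (u_a - u_b)`.
All identities are polynomial identities in `k` on `Fin 3`: `fin_cases` or `ext i j` + `ring` with the values of `dl`.
`good_V3`: (1) `V3 k 0 1 2` for all `k` by `Int.induction_on` (as `good_T`), from `hV`;
(2) for a permutation `σ` of `Fin 3` written as a product of `Sw`: `Sw a b * V3 k c d e * Sw a b = V3 k (σ c) (σ d) (σ e)`,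
`σ = swap a b`; the six triples `(a, b, c)` of distinct elements are reached from `(0, 1, 2)`.
`good_U3`: `V3 1 0 1 2 = U3 1 1 2 0 * (Sw 0 1 * Sw 1 2)` or a similar identity with a permutation matrix (check the
matrices: `V3 1 0 1 2 = !![2, 1, -2; -1, 0, 2; 0, 0, 1]`, `U3 1 1 2 0 = !![1, -2, 2; 0, 2, -1; 0, 1, 0]`), so
`U3 1 1 2 0` is good (`GZ.mul`, the inverse of a permutation matrix is one); then all `k`, all triples as before.
-/

open Matrix Finset

namespace Pool.Agent.DimRep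

/-- `1 + k (e_a - e_b) ⊗ (u_a + u_b - 2 u_c)` -/
def V3 (k : ℤ) (a b c : Fin 3) : Matrix (Fin 3) (Fin 3) ℤ :=
  fun i j => dl i j + k * (dl i a - dl i b) * (dl a j + dl b j - 2 * dl c j)

/-- `1 + k (e_a + e_b - 2 e_c) ⊗ (u_a - u_b)` -/
def U3 (k : ℤ) (a b c : Fin 3) : Matrix (Fin 3) (Fin 3) ℤ :=
  fun i j => dl i j + k * (dl i a + dl i b - 2 * dl i c) * (dl a j - dl b j)

private theorem V3_mul (M : Matrix (Fin 3) (Fin 3) ℤ) (k : ℤ) (a b c i j : Fin 3) :
    (V3 k a b c * M) i j = M i j + k * (dl i a - dl i b) * (M a j + M b j - 2 * M c j) := by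
  rw [Matrix.mul_apply]
  simp only [V3, add_mul, Finset.sum_add_distrib]
  rw [sum_dl_mul i (fun x => M x j)]
  congr 1
  rw [← sum_dl_mul a (fun x => M x j), ← sum_dl_mul b (fun x => M x j),
    ← sum_dl_mul c (fun x => M x j), ← Finset.sum_add_distrib, Finset.mul_sum,
    ← Finset.sum_sub_distrib, Finset.mul_sum]
  exact Finset.sum_congr rfl fun x _ => by ring

private theorem U3_mul (M : Matrix (Fin 3) (Fin 3) ℤ) (k : ℤ) (a b c i j : Fin 3) :
    (U3 k a b c * M) i j = M i j + k * (dl i a + dl i b - 2 * dl i c) * (M a j - M b j) := by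
  rw [Matrix.mul_apply]
  simp only [U3, add_mul, Finset.sum_add_distrib]
  rw [sum_dl_mul i (fun x => M x j)]
  congr 1
  rw [← sum_dl_mul a (fun x => M x j), ← sum_dl_mul b (fun x => M x j),
    ← Finset.sum_sub_distrib, Finset.mul_sum]
  exact Finset.sum_congr rfl fun x _ => by ring

theorem V3_mul_V3 (k l : ℤ) {a b c : Fin 3} (hab : a ≠ b) (hac : a ≠ c) (hbc : b ≠ c) :
    V3 k a b c * V3 l a b c = V3 (k + l) a b c := by
  ext i j
  rw [V3_mul]
  simp only [V3]
  rw [dl_self, dl_self, dl_ne hab, dl_ne hab.symm, dl_ne hac.symm, dl_ne hbc.symm]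
  ring

theorem U3_mul_U3 (k l : ℤ) {a b c : Fin 3} (hab : a ≠ b) (hac : a ≠ c) (hbc : b ≠ c) :
    U3 k a b c * U3 l a b c = U3 (k + l) a b c := by
  ext i j
  rw [U3_mul]
  simp only [U3]
  rw [dl_self, dl_self, dl_ne hab, dl_ne hab.symm, dl_ne hac, dl_ne hbc]
  ring

theorem V3_zero (a b c : Fin 3) : V3 0 a b c = 1 := by
  ext i j
  simp [V3, dl, Matrix.one_apply]

theorem U3_zero (a b c : Fin 3) : U3 0 a b c = 1 := by
  ext i j
  simp [U3, dl, Matrix.one_apply]

theorem uni_V3 (k : ℤ) {a b c : Fin 3} (hab : a ≠ b) (hac : a ≠ c) (hbc : b ≠ c) :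
    Uni (V3 k a b c) where
  inv := ⟨V3 (-k) a b c, by
    rw [V3_mul_V3 _ _ hab hac hbc, add_neg_cancel, V3_zero]⟩
  row i := by
    simp only [V3, Finset.sum_add_distrib, sum_dl_left, ← Finset.mul_sum, Finset.sum_sub_distrib]
    ring
  col j := by
    simp only [V3, Finset.sum_add_distrib, sum_dl_right, ← Finset.sum_mul, ← Finset.mul_sum,
      Finset.sum_sub_distrib]
    ring

theorem uni_U3 (k : ℤ) {a b c : Fin 3} (hab : a ≠ b) (hac : a ≠ c) (hbc : b ≠ c) :
    Uni (U3 k a b c) where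
  inv := ⟨U3 (-k) a b c, by
    rw [U3_mul_U3 _ _ hab hac hbc, add_neg_cancel, U3_zero]⟩
  row i := by
    simp only [U3, Finset.sum_add_distrib, sum_dl_left, ← Finset.mul_sum, Finset.sum_sub_distrib]
    ring
  col j := by
    simp only [U3, Finset.sum_add_distrib, sum_dl_right, ← Finset.sum_mul, ← Finset.mul_sum,
      Finset.sum_sub_distrib]
    ring

private theorem mul_Sw (M : Matrix (Fin 3) (Fin 3) ℤ) (p q i j : Fin 3) :
    (M * Sw p q) i j = M i (Equiv.swap p q j) := by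
  rw [Matrix.mul_apply]
  have h : ∀ x : Fin 3, Sw p q x j = dl x (Equiv.swap p q j) := by
    intro x
    simp only [Sw, dl]
    congr 1
    rw [Equiv.swap_apply_eq_iff]
  simp only [h]
  exact sum_mul_dl _ (fun x => M i x)

private theorem dl_swap (p q i j : Fin 3) : dl (Equiv.swap p q i) j = dl i (Equiv.swap p q j) := by
  simp only [dl]
  congr 1
  rw [Equiv.swap_apply_eq_iff]

private theorem conj_V3 (p q : Fin 3) (k : ℤ) (a b c : Fin 3) :
    Sw p q * V3 k a b c * Sw p q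
      = V3 k (Equiv.swap p q a) (Equiv.swap p q b) (Equiv.swap p q c) := by
  ext i j
  rw [mul_Sw, Sw_mul]
  simp only [V3]
  rw [dl_swap p q i, dl_swap p q i, dl_swap p q i, ← dl_swap p q a, ← dl_swap p q b,
    ← dl_swap p q c, swap_twice]

private theorem conj_U3 (p q : Fin 3) (k : ℤ) (a b c : Fin 3) :
    Sw p q * U3 k a b c * Sw p q
      = U3 k (Equiv.swap p q a) (Equiv.swap p q b) (Equiv.swap p q c) := by
  ext i j
  rw [mul_Sw, Sw_mul]
  simp only [U3]
  rw [dl_swap p q i, dl_swap p q i, dl_swap p q i, dl_swap p q i, ← dl_swap p q a,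
    ← dl_swap p q b, swap_twice]

private theorem good_conj {m : ℕ} {X : Matrix (Fin 3) (Fin 3) ℤ} (h : GZ m X) (hX : Uni X)
    (p q : Fin 3) : GZ m (Sw p q * X * Sw p q) :=
  ((good_Sw m p q).mul h hX).mul (good_Sw m p q) (uni_Sw p q)

private theorem triple_ind (P : Fin 3 → Fin 3 → Fin 3 → Prop)
    (hs : ∀ p q a b c : Fin 3, a ≠ b → a ≠ c → b ≠ c → P a b c →
      P (Equiv.swap p q a) (Equiv.swap p q b) (Equiv.swap p q c)) (h0 : P 0 1 2) :
    ∀ a b c : Fin 3, a ≠ b → a ≠ c → b ≠ c → P a b c := by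
  have h021 : P 0 2 1 := hs 1 2 0 1 2 (by decide) (by decide) (by decide) h0
  have h102 : P 1 0 2 := hs 0 1 0 1 2 (by decide) (by decide) (by decide) h0
  have h210 : P 2 1 0 := hs 0 2 0 1 2 (by decide) (by decide) (by decide) h0
  have h120 : P 1 2 0 := hs 0 1 0 2 1 (by decide) (by decide) (by decide) h021
  have h201 : P 2 0 1 := hs 0 2 0 2 1 (by decide) (by decide) (by decide) h021
  intro a b c
  fin_cases a <;> fin_cases b <;> fin_cases c <;> intro h1 h2 h3 <;>
    first | assumption | exact absurd rfl h1 | exact absurd rfl h2 | exact absurd rfl h3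

private theorem all_k {m : ℕ} (F : ℤ → Matrix (Fin 3) (Fin 3) ℤ) (hF : ∀ k l, F k * F l = F (k + l))
    (h0 : F 0 = 1) (hU : ∀ k, Uni (F k)) (h1 : GZ m (F 1)) (k : ℤ) : GZ m (F k) := by
  have hneg : GZ m (F (-1)) := by
    refine h1.inv (hU 1) ?_
    rw [hF, ← h0]
    rfl
  induction k using Int.induction_on with
  | zero =>
    rw [h0]
    exact (MK.one m Finset.univ).good
  | succ i ih =>
    rw [← hF]
    exact ih.mul h1 (hU 1)
  | pred i ih =>
    have : (-(i : ℤ) - 1) = -(i : ℤ) + (-1) := by ring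
    rw [this, ← hF]
    exact ih.mul hneg (hU (-1))

theorem good_V3 {m : ℕ} (hV : GZ m (V3 1 0 1 2)) (k : ℤ) {a b c : Fin 3} (hab : a ≠ b)
    (hac : a ≠ c) (hbc : b ≠ c) : GZ m (V3 k a b c) := by
  refine triple_ind (fun a b c => GZ m (V3 k a b c)) ?_ ?_ a b c hab hac hbc
  · intro p q a b c hab hac hbc h
    have := good_conj h (uni_V3 k hab hac hbc) p q
    rwa [conj_V3] at this
  · exact all_k (fun k => V3 k 0 1 2)
      (fun k l => V3_mul_V3 k l (by decide) (by decide) (by decide)) (V3_zero 0 1 2)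
      (fun k => uni_V3 k (by decide) (by decide) (by decide)) hV k

theorem good_U3 {m : ℕ} (hV : GZ m (V3 1 0 1 2)) (k : ℤ) {a b c : Fin 3} (hab : a ≠ b)
    (hac : a ≠ c) (hbc : b ≠ c) : GZ m (U3 k a b c) := by
  have hU : GZ m (U3 1 1 2 0) := by
    have e : U3 1 1 2 0 = V3 1 0 1 2 * Sw 0 1 * Sw 1 2 := by
      ext i j
      rw [mul_Sw, mul_Sw]
      fin_cases i <;> fin_cases j <;> rfl
    rw [e]
    exact (hV.mul (good_Sw m 0 1) (uni_Sw 0 1)).mul (good_Sw m 1 2) (uni_Sw 1 2)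
  have hs : ∀ p q a b c : Fin 3, a ≠ b → a ≠ c → b ≠ c → GZ m (U3 k a b c) →
      GZ m (U3 k (Equiv.swap p q a) (Equiv.swap p q b) (Equiv.swap p q c)) := by
    intro p q a b c hab hac hbc h
    have := good_conj h (uni_U3 k hab hac hbc) p q
    rwa [conj_U3] at this
  refine triple_ind (fun a b c => GZ m (U3 k a b c)) hs ?_ a b c hab hac hbc
  have h120 : GZ m (U3 k 1 2 0) := all_k (fun k => U3 k 1 2 0)
      (fun k l => U3_mul_U3 k l (by decide) (by decide) (by decide)) (U3_zero 1 2 0)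
      (fun k => uni_U3 k (by decide) (by decide) (by decide)) hU k
  have h021 : GZ m (U3 k 0 2 1) := hs 0 1 1 2 0 (by decide) (by decide) (by decide) h120
  exact hs 1 2 0 2 1 (by decide) (by decide) (by decide) h021

end Pool.Agent.DimRep
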