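import Pool.Agent.Lib.MP_5f1e54_an.DR.Defs

/-!
# MP_5f1e54_an: the statement, with automorphisms of `Δ_A` as functions on a set of vectors
-/

open Matrix

namespace Pool.Agent.DimRep

/-- Krieger's dimension group `Δ_A = {v ∈ R_A : v A^k ∈ ℤ^n for some k}`, where `R_A = ℚ^n A^n` is
the eventual range. -/
def DimGroup {n : ℕ} (A : Matrix (Fin n) (Fin n) ℕ) : Set (Fin n → ℚ) :=
  {v | (∃ u : Fin n → ℚ, v = u ᵥ* toQ A ^ n) ∧
    ∃ (k : ℕ) (z : Fin n → ℤ), v ᵥ* toQ A ^ k = fun i => (z i : ℚ)}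

/-- `ψ` restricts to an element of `aut(Δ_A)`: a group automorphism of `Δ_A` with
`ψ(Δ_A⁺) = Δ_A⁺` which commutes with `δ_A : v ↦ v A`. (Values of `ψ` outside `Δ_A` play no role.) -/
structure IsDimAut {n : ℕ} (A : Matrix (Fin n) (Fin n) ℕ) (ψ : (Fin n → ℚ) → (Fin n → ℚ)) :
    Prop where
  bij : Set.BijOn ψ (DimGroup A) (DimGroup A)
  add : ∀ v ∈ DimGroup A, ∀ w ∈ DimGroup A, ψ (v + w) = ψ v + ψ w
  pos : ψ '' DeltaPos A = DeltaPos A
  comm : ∀ v ∈ DimGroup A, ψ (v ᵥ* toQ A) = ψ v ᵥ* toQ A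

/-- `ψ|Δ_A` is in the image of the dimension representation `s_A : aut(X_A) → aut(Δ_A)`: there are a
closed chain `A = A₀, …, A_ℓ = A` of elementary strong shift equivalences (that is, an automorphism
`φ` of `X_A`, with `s_A(φ) : v ↦ v R_1 ⋯ R_ℓ`) and `k ≥ 0` with `s_A(φ) = δ_A^k ∘ ψ`
(recall `δ_A = s_A(σ_A)`, so that `ψ = s_A(σ_A^{-k} φ)`). -/
def InImageOfDimRep {n : ℕ} (A : Matrix (Fin n) (Fin n) ℕ) (ψ : (Fin n → ℚ) → (Fin n → ℚ)) : Prop :=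
  ∃ (W : Matrix (Fin n) (Fin n) ℕ) (k : ℕ), Chain A A W ∧
    ∀ v ∈ DimGroup A, v ᵥ* toQ W = ψ v ᵥ* toQ A ^ k

variable {n : ℕ} {A : Matrix (Fin n) (Fin n) ℕ} {ψ : (Fin n → ℚ) → (Fin n → ℚ)}

/-- `Δ_A⁺ ⊆ Δ_A` -/
theorem pos_subset : DeltaPos A ⊆ DimGroup A := by
  rintro v ⟨h, k, z, hz⟩
  exact ⟨h, k, fun i => (z i : ℤ), by rw [hz]; ext i; simp⟩

/-- the automorphism as a group isomorphism -/
noncomputable def IsDimAut.equiv (h : IsDimAut A ψ) : Delta A ≃+ Delta A :=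
  AddEquiv.ofBijective
    (AddMonoidHom.mk' (fun v : Delta A => (⟨ψ v, h.bij.mapsTo v.2⟩ : Delta A))
      (fun v w => Subtype.ext (h.add v v.2 w w.2)))
    ⟨fun v w hvw => Subtype.ext (h.bij.injOn v.2 w.2 (congrArg Subtype.val hvw)), fun w => by
      obtain ⟨v, hv, hw⟩ := h.bij.surjOn w.2
      exact ⟨⟨v, hv⟩, Subtype.ext hw⟩⟩

theorem IsDimAut.equiv_apply (h : IsDimAut A ψ) (v : Delta A) :
    ((h.equiv v : Delta A) : Fin n → ℚ) = ψ v := rfl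

theorem IsDimAut.isAut (h : IsDimAut A ψ) : IsAut A h.equiv where
  pos v := by
    rw [h.equiv_apply]
    constructor
    · intro hv
      rw [← h.pos] at hv
      obtain ⟨w, hw, hwv⟩ := hv
      rwa [← h.bij.injOn (pos_subset hw) v.2 hwv]
    · intro hv
      rw [← h.pos]
      exact ⟨v, hv, rfl⟩
  comm v w hvw := by
    rw [h.equiv_apply, h.equiv_apply, hvw]
    exact h.comm v v.2

theorem IsDimAut.inImage (h : IsDimAut A ψ) (h' : InImage A h.equiv) : InImageOfDimRep A ψ := by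
  obtain ⟨W, k, h1, h2⟩ := h'
  exact ⟨W, k, h1, fun v hv => h2 ⟨v, hv⟩⟩

end Pool.Agent.DimRep
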