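import Pool.Agent.Lib.MP_5f1e54_an.DR.TPath

/-!
# The transvections `T k a b c d` are realised
-/

open Matrix Finset

namespace Pool.Agent.DimRep

variable {n : ℕ}

theorem mul_T {ι : Type} (M : Matrix ι (Fin n) ℤ) (k : ℤ) (a b c d : Fin n) (i : ι) (j : Fin n) :
    (M * T k a b c d) i j = M i j + k * (M i a - M i b) * (dl c j - dl d j) := by
  rw [Matrix.mul_apply]
  simp only [T, mul_add, Finset.sum_add_distrib]
  rw [sum_mul_dl j (fun x => M i x)]
  congr 1
  rw [← sum_mul_dl a (fun x => M i x), ← sum_mul_dl b (fun x => M i x), ← Finset.sum_sub_distrib,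
    Finset.mul_sum, Finset.sum_mul]
  exact Finset.sum_congr rfl fun x _ => by ring

theorem T_mul {ι : Type} (M : Matrix (Fin n) ι ℤ) (k : ℤ) (a b c d : Fin n) (i : Fin n) (j : ι) :
    (T k a b c d * M) i j = M i j + k * (dl i a - dl i b) * (M c j - M d j) := by
  rw [Matrix.mul_apply]
  simp only [T, add_mul, Finset.sum_add_distrib]
  rw [sum_dl_mul i (fun x => M x j)]
  congr 1
  rw [← sum_dl_mul c (fun x => M x j), ← sum_dl_mul d (fun x => M x j), ← Finset.sum_sub_distrib,
    Finset.mul_sum]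
  exact Finset.sum_congr rfl fun x _ => by ring

theorem T_zero (a b c d : Fin n) : T 0 a b c d = 1 := by
  ext i j
  simp [T, dl, Matrix.one_apply]

theorem T_mul_T (k l : ℤ) {a b c d : Fin n} (hac : a ≠ c) (had : a ≠ d) (hbc : b ≠ c)
    (hbd : b ≠ d) : T k a b c d * T l a b c d = T (k + l) a b c d := by
  ext i j
  rw [T_mul]
  simp only [T]
  rw [dl_ne hac.symm, dl_ne had.symm, dl_ne hbc.symm, dl_ne hbd.symm]
  ring

theorem T_swap (k : ℤ) (a b c d : Fin n) : T k a b c d = T (-k) a b d c := by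
  ext i j
  simp only [T]
  ring

theorem T_comm (m : ℕ) (k : ℤ) (a b c d : Fin n) :
    toZ (IJ n m) * T k a b c d = T k a b c d * toZ (IJ n m) := by
  ext i j
  rw [mul_T, T_mul]
  simp only [toZ_IJ]
  ring

theorem zQ_comm {m : ℕ} {X : Matrix (Fin n) (Fin n) ℤ}
    (h : toZ (IJ n m) * X = X * toZ (IJ n m)) :
    toQ (IJ n m) * zQ X = zQ X * toQ (IJ n m) := by
  rw [← zQ_toZ, ← zQ_mul, ← zQ_mul, h]

theorem good_T (m : ℕ) (hm : 1 ≤ m) (hn : 4 ≤ n) {a b c d : Fin n} (hac : a ≠ c) (had : a ≠ d)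
    (hbc : b ≠ c) (hbd : b ≠ d) (hcd : c ≠ d) (k : ℤ) : Good (IJ n m) (zQ (T k a b c d)) := by
  have key : ∀ {c d : Fin n}, a ≠ c → a ≠ d → b ≠ c → b ≠ d → c ≠ d →
      Good (IJ n m) (zQ (T (-1) a b c d)) := by
    intro c d hac had hbc hbd hcd
    have h1 := tpath m hm hn hac had hbc hbd hcd
    have h2 := tpath m hm hn had hac hbd hbc hcd.symm
    have hX : T 1 a b c d * T (-1) a b c d = 1 := by
      rw [T_mul_T _ _ hac had hbc hbd]
      simpa using T_zero a b c d
    have hP : P3 (m : ℤ) a b c d = P3 (m : ℤ) a b d c * T 1 a b c d := by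
      ext i j
      rw [mul_T]
      cases i with
      | none =>
        simp only [P3]
        rw [dl_ne hac.symm, dl_ne had.symm, dl_ne hbc.symm, dl_ne hbd.symm]
        ring
      | some i =>
        simp only [P3]
        rw [dl_ne hac.symm, dl_ne had.symm, dl_ne hbc.symm, dl_ne hbd.symm]
        ring
    have hF : F3 a b c d = T (-1) a b c d * F3 a b d c := by
      ext i j
      rw [T_mul]
      cases j with
      | none => simp [F3]
      | some j =>
        simp only [F3]
        rw [dl_ne hac.symm, dl_ne had.symm, dl_ne hbc.symm, dl_ne hbd.symm]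
        ring
    have hB : P3 (m : ℤ) a b c d * F3 a b c d = P3 (m : ℤ) a b d c * F3 a b d c := by
      rw [hP, hF]
      calc P3 (m : ℤ) a b d c * T 1 a b c d * (T (-1) a b c d * F3 a b d c)
          = P3 (m : ℤ) a b d c * (T 1 a b c d * T (-1) a b c d) * F3 a b d c := by
            simp only [Matrix.mul_assoc]
        _ = _ := by rw [hX, Matrix.mul_one]
    exact Obj.close h1 h2 hB hP hX (T_comm m 1 a b c d)
  have hneg := key hac had hbc hbd hcd
  have hpos : Good (IJ n m) (zQ (T 1 a b c d)) := by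
    have := key had hac hbd hbc hcd.symm
    rwa [T_swap, neg_neg] at this
  induction k using Int.induction_on with
  | zero => rw [T_zero, zQ_one]; exact Good.one
  | succ i ih =>
    rw [← T_mul_T _ _ hac had hbc hbd, zQ_mul]
    exact ih.mul hpos (zQ_comm (T_comm m 1 a b c d))
  | pred i ih =>
    have : (-(i : ℤ) - 1) = -(i : ℤ) + (-1) := by ring
    rw [this, ← T_mul_T _ _ hac had hbc hbd, zQ_mul]
    exact ih.mul hneg (zQ_comm (T_comm m (-1) a b c d))

end Pool.Agent.DimRep
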