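import Pool.Agent.Lib.MP_5f1e54_an.DR.Good

/-!
# The loop realising `1 + (e_a - e_b) ⊗ (u_c - u_d)` (`a, b, c, d` distinct)
-/

open Matrix Finset

namespace Pool.Agent.DimRep

variable {n : ℕ}

/-- indicator -/
def dl (i j : Fin n) : ℤ := if i = j then 1 else 0

theorem dl_self (i : Fin n) : dl i i = 1 := by simp [dl]

theorem dl_ne {i j : Fin n} (h : i ≠ j) : dl i j = 0 := by simp [dl, h]

theorem dl_comm (i j : Fin n) : dl i j = dl j i := by simp [dl, eq_comm]

theorem dl_nonneg (i j : Fin n) : 0 ≤ dl i j := by unfold dl; split_ifs <;> simp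

theorem dl_le_one (i j : Fin n) : dl i j ≤ 1 := by unfold dl; split_ifs <;> simp

theorem sum_dl_left (i : Fin n) : ∑ j, dl i j = 1 := by simp [dl]

theorem sum_dl_right (i : Fin n) : ∑ j, dl j i = 1 := by simp [dl]

theorem sum_dl_mul (i : Fin n) (f : Fin n → ℤ) : ∑ j, dl i j * f j = f i := by simp [dl]

theorem sum_dl_mul' (i : Fin n) (f : Fin n → ℤ) : ∑ j, dl j i * f j = f i := by simp [dl]

theorem sum_mul_dl (i : Fin n) (f : Fin n → ℤ) : ∑ j, f j * dl j i = f i := by simp [dl]

theorem sum_mul_dl' (i : Fin n) (f : Fin n → ℤ) : ∑ j, f j * dl i j = f i := by simp [dl]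

theorem toZ_IJ (m : ℕ) (i j : Fin n) : toZ (IJ n m) i j = dl i j + m := by
  simp only [toZ, IJ, Matrix.map_apply, dl]
  push_cast
  rfl

/-- `T n a b c d = 1 + k (e_a - e_b) ⊗ (u_c - u_d)` -/
def T (k : ℤ) (a b c d : Fin n) : Matrix (Fin n) (Fin n) ℤ :=
  fun i j => dl i j + k * (dl i a - dl i b) * (dl c j - dl d j)

/-- first object -/
def F1 {n : ℕ} : Matrix (Fin n) (Option (Fin n)) ℤ
  | _, none => 1
  | i, some j => dl i j

def P1 (m : ℤ) : Matrix (Option (Fin n)) (Fin n) ℤ
  | none, _ => m
  | some i, j => dl i j

def R2 (c d : Fin n) : Matrix (Option (Fin n)) (Option (Fin n)) ℤ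
  | some i, some j => dl i j
  | some _, none => 0
  | none, some j => dl c j + dl d j
  | none, none => 1

def P2 (m : ℤ) (c d : Fin n) : Matrix (Option (Fin n)) (Fin n) ℤ
  | none, j => m - dl c j - dl d j
  | some i, j => dl i j

def R3 (a b c d : Fin n) : Matrix (Option (Fin n)) (Option (Fin n)) ℤ
  | some i, some j => dl i j + dl i a * dl c j + dl i b * dl d j
  | some _, none => 0
  | none, some _ => 0
  | none, none => 1

def F3 (a b c d : Fin n) : Matrix (Fin n) (Option (Fin n)) ℤ
  | _, none => 1
  | i, some j => dl i j + dl c j * (1 - dl i a) + dl d j * (1 - dl i b)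

def P3 (m : ℤ) (a b c d : Fin n) : Matrix (Option (Fin n)) (Fin n) ℤ
  | none, j => m - dl c j - dl d j
  | some i, j => dl i j + dl i a * dl c j + dl i b * dl d j

theorem F1_mul_P1 (m : ℕ) : toZ (IJ n m) = (F1 : Matrix (Fin n) (Option (Fin n)) ℤ) *
    (P1 (m : ℤ) : Matrix (Option (Fin n)) (Fin n) ℤ) := by
  ext i j
  rw [toZ_IJ, Matrix.mul_apply, Fintype.sum_option]
  simp only [F1, P1]
  rw [sum_dl_mul i (fun k => dl k j)]
  ring

theorem P1_eq (m : ℤ) (c d : Fin n) : P1 m = R2 c d * P2 m c d := by
  ext i j
  rw [Matrix.mul_apply, Fintype.sum_option]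
  cases i with
  | none =>
    simp only [P1, R2, P2]
    simp only [add_mul, Finset.sum_add_distrib]
    rw [sum_dl_mul c (fun k => dl k j), sum_dl_mul d (fun k => dl k j)]
    ring
  | some i =>
    simp only [P1, R2, P2]
    rw [sum_dl_mul i (fun k => dl k j)]
    ring

theorem F1_R2 (a b c d : Fin n) (hac : a ≠ c) (had : a ≠ d) (hbc : b ≠ c) (hbd : b ≠ d) :
    (F1 : Matrix (Fin n) (Option (Fin n)) ℤ) * R2 c d = F3 a b c d * R3 a b c d := by
  ext i j
  rw [Matrix.mul_apply, Matrix.mul_apply, Fintype.sum_option, Fintype.sum_option]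
  cases j with
  | none => simp [F1, R2, F3, R3]
  | some j =>
    simp only [F1, R2, F3, R3]
    rw [sum_dl_mul i (fun k => dl k j)]
    have h1 : ∑ x : Fin n, (dl i x + dl c x * (1 - dl i a) + dl d x * (1 - dl i b)) *
        (dl x j + dl x a * dl c j + dl x b * dl d j)
        = (dl i j + dl c j * (1 - dl i a) + dl d j * (1 - dl i b))
          + (dl i a + dl c a * (1 - dl i a) + dl d a * (1 - dl i b)) * dl c j
          + (dl i b + dl c b * (1 - dl i a) + dl d b * (1 - dl i b)) * dl d j := by
      simp only [mul_add, Finset.sum_add_distrib]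
      congr 1
      · congr 1
        · exact sum_mul_dl j (fun x => dl i x + dl c x * (1 - dl i a) + dl d x * (1 - dl i b))
        · rw [← sum_mul_dl a (fun x => dl i x + dl c x * (1 - dl i a) + dl d x * (1 - dl i b)),
            Finset.sum_mul]
          exact Finset.sum_congr rfl fun x _ => by ring
      · rw [← sum_mul_dl b (fun x => dl i x + dl c x * (1 - dl i a) + dl d x * (1 - dl i b)),
          Finset.sum_mul]
        exact Finset.sum_congr rfl fun x _ => by ring
    rw [h1, dl_ne hac.symm, dl_ne had.symm, dl_ne hbc.symm, dl_ne hbd.symm]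
    ring

theorem R3_P2 (m : ℤ) (a b c d : Fin n) : R3 a b c d * P2 m c d = P3 m a b c d := by
  ext i j
  rw [Matrix.mul_apply, Fintype.sum_option]
  cases i with
  | none => simp [R3, P2, P3]
  | some i =>
    simp only [R3, P2, P3]
    simp only [add_mul, Finset.sum_add_distrib]
    have h1 : ∑ x : Fin n, dl i a * dl c x * dl x j = dl i a * dl c j := by
      rw [← sum_dl_mul c (fun x => dl x j), Finset.mul_sum]
      exact Finset.sum_congr rfl fun x _ => by ring
    have h2 : ∑ x : Fin n, dl i b * dl d x * dl x j = dl i b * dl d j := by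
      rw [← sum_dl_mul d (fun x => dl x j), Finset.mul_sum]
      exact Finset.sum_congr rfl fun x _ => by ring
    rw [h1, h2, sum_dl_mul i (fun x => dl x j)]
    ring

theorem tpath (m : ℕ) (hm : 1 ≤ m) (hn : 4 ≤ n) {a b c d : Fin n} (hac : a ≠ c) (had : a ≠ d)
    (hbc : b ≠ c) (hbd : b ≠ d) (hcd : c ≠ d) :
    Obj (IJ n m) (F3 a b c d) (P3 (m : ℤ) a b c d) := by
  have hm' : (1 : ℤ) ≤ m := by exact_mod_cast hm
  have hn' : (4 : ℤ) ≤ n := by exact_mod_cast hn
  have hz : ∀ j : Fin n, 0 ≤ (m : ℤ) - dl c j - dl d j := by
    intro j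
    by_cases h1 : c = j
    · have h2 : d ≠ j := fun h => hcd (h1.trans h.symm)
      rw [h1, dl_self, dl_ne h2]
      linarith
    · rw [dl_ne h1]
      have := dl_le_one d j
      linarith
  have hsum : ∑ j : Fin n, ((m : ℤ) - dl c j - dl d j) = n * m - 2 := by
    simp only [Finset.sum_sub_distrib, sum_dl_left]
    simp
    ring
  have h0 := (Obj.start' (A := IJ n m))
  have h1 := h0.fwd F1 (P1 (m : ℤ)) (F1_mul_P1 m)
    (by
      intro i j
      cases j with
      | none => simp [F1]
      | some j => exact dl_nonneg i j)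
    (by
      rw [Matrix.mul_one]
      intro i j
      cases i with
      | none => simp [P1]
      | some i => exact dl_nonneg i j)
  rw [Matrix.one_mul] at h1
  have h2 := h1.fwd (R2 c d) (P2 (m : ℤ) c d) (P1_eq _ c d)
    (by
      intro i j
      cases i with
      | none =>
        cases j with
        | none => simp [R2]
        | some j => exact add_nonneg (dl_nonneg _ _) (dl_nonneg _ _)
      | some i =>
        cases j with
        | none => simp [R2]
        | some j => exact dl_nonneg _ _)
    (by
      intro i j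
      rw [Matrix.mul_apply]
      cases i with
      | none =>
        apply Finset.sum_nonneg
        intro x _
        apply mul_nonneg (hz x)
        cases j with
        | none => simp [F1]
        | some j => exact dl_nonneg _ _
      | some i =>
        apply Finset.sum_nonneg
        intro x _
        apply mul_nonneg (dl_nonneg _ _)
        cases j with
        | none => simp [F1]
        | some j => exact dl_nonneg _ _)
  have h3 := h2.bwd (R3 a b c d) (F3 a b c d) (F1_R2 a b c d hac had hbc hbd)
    (by
      intro i j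
      cases i with
      | none =>
        cases j with
        | none => simp [R3]
        | some j => simp [R3]
      | some i =>
        cases j with
        | none => simp [R3]
        | some j =>
          have e1 := dl_nonneg i j
          have e2 := mul_nonneg (dl_nonneg i a) (dl_nonneg c j)
          have e3 := mul_nonneg (dl_nonneg i b) (dl_nonneg d j)
          simp only [R3]
          linarith)
    (by
      intro i j
      rw [Matrix.mul_apply]
      have hF : ∀ x : Fin n, ∀ j : Option (Fin n), 0 ≤ F3 a b c d x j := by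
        intro x j
        cases j with
        | none => simp [F3]
        | some j =>
          have e1 := dl_nonneg x j
          have e2 := mul_nonneg (dl_nonneg c j) (sub_nonneg.mpr (dl_le_one x a))
          have e3 := mul_nonneg (dl_nonneg d j) (sub_nonneg.mpr (dl_le_one x b))
          simp only [F3]
          linarith
      apply Finset.sum_nonneg
      intro x _
      cases i with
      | none => exact mul_nonneg (hz x) (hF x j)
      | some i => exact mul_nonneg (dl_nonneg _ _) (hF x j))
  rw [R3_P2] at h3
  exact h3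

end Pool.Agent.DimRep
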